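import Mathlib

set_option autoImplicit false

/-!
Finite data for the counterexample to Ingleton's inequality over skew partial fields, and the
finite check on it.  Subsets of the four types `W, X, Y, Z` are coded by numbers `< 16`.
-/

namespace Pool.Agent.H315R3

/-- Table of the rank function `h` on the 16 subsets of `{W, X, Y, Z}`. -/
def hN (m : ℕ) : ℕ := (12297827024499995984 >>> (4 * m)) % 16

/-- Table of annihilator masks: the set of those of eight functionals vanishing on `U_m`. -/
def kM (m : ℕ) : ℕ := (4911666972841216146469119 >>> (8 * m)) % 256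

/-- Table: the set of functionals vanishing at each of eight test vectors. -/
def zW (t : ℕ) : ℕ := (14984425318620331518 >>> (8 * t)) % 256

/-- sum of `n` over the subset coded by `m` -/
def ns (n0 n1 n2 n3 m : ℕ) : ℕ :=
  (m % 2) * n0 + (m / 2 % 2) * n1 + (m / 4 % 2) * n2 + (m / 8 % 2) * n3

/-- `t`-th test vector lies in `U_m` -/
def tin (m t : ℕ) : Bool := (kM m &&& zW t) == kM m

/-- `U_A ∩ U_B ⊆ U_C`, tested on the eight test vectors -/
def cont (A B C : ℕ) : Bool :=
  (List.range 8).all fun t => !(tin A t && tin B t) || tin C t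

/-- closure of a set of functionals under two-out-of-three in both planes -/
def cl8 (k : ℕ) : ℕ :=
  let k1 := if (k &&& 12 == 12) || (k &&& 72 == 72) || (k &&& 68 == 68) then k ||| 76 else k
  if (k1 &&& 48 == 48) || (k1 &&& 160 == 160) || (k1 &&& 144 == 144) then k1 ||| 176 else k1

def pre (T n0 n1 n2 n3 : ℕ) : Bool :=
  (ns n0 n1 n2 n3 T == hN T) &&
  ((T % 2 == 1) == (1 ≤ n0)) && ((T / 2 % 2 == 1) == (1 ≤ n1)) &&
  ((T / 4 % 2 == 1) == (1 ≤ n2)) && ((T / 8 % 2 == 1) == (1 ≤ n3)) &&
  (List.range 16).all fun Q => decide (ns n0 n1 n2 n3 Q ≤ hN Q)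

def chk (T n0 n1 n2 n3 N S : ℕ) : Bool :=
  !((N &&& T == N) && (N != 0) && 
    ((List.range 16).all fun Q => !(Q &&& N == Q) ||
      decide (ns n0 n1 n2 n3 Q + hN S ≤ hN (S ||| Q))) &&
    cont N (T - N) S) ||
  ((ns n0 n1 n2 n3 N + hN S == hN (S ||| N)) && (ns n0 n1 n2 n3 (T - N) == hN (T - N)) &&
    (cl8 (kM N ||| kM S) &&& kM (T - N) == kM (T - N)))

def fullCheck : Bool :=
  (List.range 16).all fun T => (List.range 6).all fun n0 => (List.range 6).all fun n1 =>
    (List.range 6).all fun n2 => (List.range 6).all fun n3 =>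
      !(pre T n0 n1 n2 n3) ||
        (List.range 16).all fun N => (List.range 16).all fun S => chk T n0 n1 n2 n3 N S

set_option maxRecDepth 100000 in
theorem fullCheck_true : fullCheck = true := by decide +kernel

end Pool.Agent.H315R3
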