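import Pool.Agent.H315R3.IngCheck

set_option autoImplicit false

namespace Pool.Agent.H315R3

abbrev V1 := Fin 6 → ZMod 2

/-- eight linear functionals on `F_2^6` -/
def fval (k : Fin 8) (v : V1) : ZMod 2 :=
  match k with
  | 0 => v 0
  | 1 => v 1
  | 2 => v 2
  | 3 => v 3
  | 4 => v 4
  | 5 => v 5
  | 6 => v 2 + v 3
  | 7 => v 4 + v 5

/-- code of a set of types -/
def code (S : Finset (Fin 4)) : ℕ := ∑ i ∈ S, 2 ^ (i : ℕ)

/-- the rank function on sets of types -/
def h (S : Finset (Fin 4)) : ℕ := hN (code S)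

/-- membership in the subspace `U_S` of `F_2^6` -/
def memU (S : Finset (Fin 4)) (v : V1) : Prop :=
  ∀ k : Fin 8, (kM (code S)).testBit k = true → fval k v = 0

instance (S : Finset (Fin 4)) (v : V1) : Decidable (memU S v) := by
  unfold memU; infer_instance

lemma fval_add (k : Fin 8) (v w : V1) : fval k (v + w) = fval k v + fval k w := by
  fin_cases k <;> simp [fval] <;> ring

lemma fval_smul (k : Fin 8) (c : ZMod 2) (v : V1) : fval k (c • v) = c * fval k v := by
  fin_cases k <;> simp [fval] <;> ring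

lemma fval_zero (k : Fin 8) : fval k 0 = 0 := by
  fin_cases k <;> simp [fval]

lemma memU_zero (S : Finset (Fin 4)) : memU S 0 := fun k _ => fval_zero k

lemma memU_add {S : Finset (Fin 4)} {v w : V1} (hv : memU S v) (hw : memU S w) :
    memU S (v + w) := fun k hk => by rw [fval_add, hv k hk, hw k hk, add_zero]

lemma memU_smul {S : Finset (Fin 4)} (c : ZMod 2) {v : V1} (hv : memU S v) :
    memU S (c • v) := fun k hk => by rw [fval_smul, hv k hk, mul_zero]

lemma memU_sum {S : Finset (Fin 4)} {ι : Type*} (s : Finset ι) (f : ι → V1)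
    (hf : ∀ i ∈ s, memU S (f i)) : memU S (∑ i ∈ s, f i) := by
  classical
  induction s using Finset.induction_on with
  | empty => simpa using memU_zero S
  | insert a s ha ih =>
    rw [Finset.sum_insert ha]
    exact memU_add (hf a (Finset.mem_insert_self _ _))
      (ih (fun i hi => hf i (Finset.mem_insert_of_mem hi)))

lemma kM_mono : ∀ S T : Finset (Fin 4), S ⊆ T → ∀ k : Fin 8,
    (kM (code T)).testBit k = true → (kM (code S)).testBit k = true := by decide +kernel

lemma memU_mono {S T : Finset (Fin 4)} (hST : S ⊆ T) {v : V1} (hv : memU S v) : memU T v :=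
  fun k hk => hv k (kM_mono S T hST k hk)

lemma kM_empty : ∀ k : Fin 8, (kM (code ∅)).testBit k = true := by decide +kernel

lemma memU_empty {v : V1} (hv : memU ∅ v) : v = 0 := by
  funext i
  fin_cases i
  · exact hv 0 (kM_empty 0)
  · exact hv 1 (kM_empty 1)
  · exact hv 2 (kM_empty 2)
  · exact hv 3 (kM_empty 3)
  · exact hv 4 (kM_empty 4)
  · exact hv 5 (kM_empty 5)

lemma kM_top : ∀ T : Finset (Fin 4), h T = 10 → ∀ k : Fin 8,
    (kM (code T)).testBit k = false := by decide +kernel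

lemma memU_top {T : Finset (Fin 4)} (hT : h T = 10) (v : V1) : memU T v := by
  intro k hk
  rw [kM_top T hT k] at hk
  exact absurd hk (by simp)

/-- test vectors -/
def tv (t : Fin 8) : V1 :=
  match t with
  | 0 => ![1, 0, 0, 0, 0, 0]
  | 1 => ![0, 1, 0, 0, 0, 0]
  | 2 => ![0, 0, 1, 0, 0, 0]
  | 3 => ![0, 0, 0, 1, 0, 0]
  | 4 => ![0, 0, 0, 0, 1, 0]
  | 5 => ![0, 0, 0, 0, 0, 1]
  | 6 => ![0, 0, 1, 1, 0, 0]
  | 7 => ![0, 0, 0, 0, 1, 1]

lemma memU_tv : ∀ (S : Finset (Fin 4)) (t : Fin 8), memU S (tv t) ↔ tin (code S) t = true := by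
  decide +kernel

lemma F1aux : ∀ (i : Fin 4) (S : Finset (Fin 4)),
    (∀ t : Fin 8, memU {i} (tv t) → memU S (tv t)) → h (insert i S) = h S := by
  decide +kernel

lemma F1 {i : Fin 4} {S : Finset (Fin 4)} (hc : ∀ v, memU {i} v → memU S v) :
    h (insert i S) = h S := F1aux i S (fun t => hc (tv t))

lemma h_mono : ∀ S T : Finset (Fin 4), S ⊆ T → h S ≤ h T := by decide +kernel

/-- explicit decomposition functions -/
def DD (S : Finset (Fin 4)) (v : V1) (i : Fin 4) : V1 :=
  if 2 ∈ S ∧ 3 ∈ S then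
    ![0, 0, ![0, v 1, v 2, 0, v 4, 0], ![v 0, 0, 0, v 3, 0, v 5]] i
  else if 2 ∈ S then
    ![if 0 ∈ S then ![v 0, 0, v 3, v 3, 0, 0] else 0,
      if 1 ∈ S then ![if 0 ∈ S then 0 else v 0, 0, 0, 0, v 5, v 5] else 0,
      ![0, v 1, v 2 - v 3, 0, v 4 - v 5, 0], 0] i
  else if 3 ∈ S then
    ![if 0 ∈ S then ![0, v 1, v 2, v 2, 0, 0] else 0,
      if 1 ∈ S then ![0, if 0 ∈ S then 0 else v 1, 0, 0, v 4, v 4] else 0, 0,
      ![v 0, 0, 0, v 3 - v 2, 0, v 5 - v 4]] i
  else
    ![if 0 ∈ S then ![v 0, v 1, v 2, v 3, 0, 0] else 0,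
      if 1 ∈ S then ![if 0 ∈ S then 0 else v 0, if 0 ∈ S then 0 else v 1, 0, 0, v 4, v 5] else 0,
      0, 0] i

lemma DD_aux : ∀ (S : Finset (Fin 4)) (a b c d e f : ZMod 2), memU S ![a, b, c, d, e, f] →
    (∀ i, memU {i} (DD S ![a, b, c, d, e, f] i)) ∧ (∀ i, i ∉ S → DD S ![a, b, c, d, e, f] i = 0) ∧
      ∑ i, DD S ![a, b, c, d, e, f] i = ![a, b, c, d, e, f] := by
  decide +kernel

lemma DD_spec (S : Finset (Fin 4)) (v : V1) (hv : memU S v) :
    (∀ i, memU {i} (DD S v i)) ∧ (∀ i, i ∉ S → DD S v i = 0) ∧ ∑ i, DD S v i = v := by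
  have hvv : v = ![v 0, v 1, v 2, v 3, v 4, v 5] := by
    funext i; fin_cases i <;> rfl
  have := DD_aux S (v 0) (v 1) (v 2) (v 3) (v 4) (v 5) (hvv ▸ hv)
  rw [← hvv] at this
  exact this

lemma DD_zero (S : Finset (Fin 4)) (i : Fin 4) : DD S 0 i = 0 := by
  have : ∀ (S : Finset (Fin 4)) (i : Fin 4), DD S ![0, 0, 0, 0, 0, 0] i = 0 := by decide +kernel
  have h0 : (0 : V1) = ![0, 0, 0, 0, 0, 0] := by funext i; fin_cases i <;> rfl
  have h1 := this S i
  rw [← h0] at h1
  exact h1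

lemma code_lt : ∀ S : Finset (Fin 4), code S < 16 := by decide +kernel

lemma code_surj : ∀ q < 16, ∃ Q : Finset (Fin 4), code Q = q := by decide +kernel

lemma code_union : ∀ S T : Finset (Fin 4), code (S ∪ T) = code S ||| code T := by decide +kernel

lemma code_sub : ∀ S T : Finset (Fin 4), (code S &&& code T = code S) ↔ S ⊆ T := by decide +kernel

lemma code_sdiff : ∀ S T : Finset (Fin 4), S ⊆ T → code (T \ S) = code T - code S := by
  decide +kernel

lemma code_ne : ∀ S : Finset (Fin 4), S.Nonempty → code S ≠ 0 := by decide +kernel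

lemma code_bits : ∀ S : Finset (Fin 4), (code S % 2 = if 0 ∈ S then 1 else 0) ∧
    (code S / 2 % 2 = if 1 ∈ S then 1 else 0) ∧ (code S / 4 % 2 = if 2 ∈ S then 1 else 0) ∧
    (code S / 8 % 2 = if 3 ∈ S then 1 else 0) := by decide +kernel

lemma ns_code (n : Fin 4 → ℕ) (Q : Finset (Fin 4)) :
    ns (n 0) (n 1) (n 2) (n 3) (code Q) = ∑ i ∈ Q, n i := by
  obtain ⟨h0, h1, h2, h3⟩ := code_bits Q
  rw [ns, h0, h1, h2, h3]
  have : ∑ i ∈ Q, n i = ∑ i : Fin 4, if i ∈ Q then n i else 0 := by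
    rw [Finset.sum_ite_mem, Finset.univ_inter]
  rw [this, Fin.sum_univ_four]
  simp only [ite_mul, one_mul, zero_mul]

lemma tin_eq (S : Finset (Fin 4)) (t : Fin 8) : tin (code S) t = decide (memU S (tv t)) := by
  rw [Bool.eq_iff_iff, decide_eq_true_iff, memU_tv]

/-- the `k`-th functional is in one of two annihilators -/
def has (a b k : ℕ) : Bool := (kM a).testBit k || (kM b).testBit k

/-- two-out-of-three closure is sound -/
lemma cl8_sound : ∀ (a b c : Fin 16), ∀ k : Fin 8,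
    (cl8 (kM a ||| kM b) &&& kM c == kM c) = true → (kM c).testBit k = true →
    (has a b k || ((k == 2) && (has a b 3 && has a b 6)) || ((k == 3) && (has a b 2 && has a b 6))
      || ((k == 6) && (has a b 2 && has a b 3)) || ((k == 4) && (has a b 5 && has a b 7))
      || ((k == 5) && (has a b 4 && has a b 7)) || ((k == 7) && (has a b 4 && has a b 5)))
      = true := by
  decide +kernel

lemma cl8_memU {A B C : Finset (Fin 4)}
    (hc : (cl8 (kM (code A) ||| kM (code B)) &&& kM (code C) == kM (code C)) = true)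
    {v : V1} (hA : memU A v) (hB : memU B v) : memU C v := by
  intro k hk
  have key : ∀ j : Fin 8, has (code A) (code B) j = true → fval j v = 0 := by
    intro j hj
    rw [has, Bool.or_eq_true] at hj
    exact hj.elim (hA j) (hB j)
  have := cl8_sound ⟨code A, code_lt A⟩ ⟨code B, code_lt B⟩ ⟨code C, code_lt C⟩ k hc hk
  simp only [Bool.or_eq_true, Bool.and_eq_true, beq_iff_eq] at this
  rcases this with (((((h1 | ⟨rfl, h1, h2⟩) | ⟨rfl, h1, h2⟩) | ⟨rfl, h1, h2⟩) | ⟨rfl, h1, h2⟩) |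
    ⟨rfl, h1, h2⟩) | ⟨rfl, h1, h2⟩
  · exact key k h1
  · have e1 := key 3 h1
    have e2 := key 6 h2
    simp only [fval] at e1 e2 ⊢
    rw [e1, add_zero] at e2; exact e2
  · have e1 := key 2 h1
    have e2 := key 6 h2
    simp only [fval] at e1 e2 ⊢
    rw [e1, zero_add] at e2; exact e2
  · have e1 := key 2 h1
    have e2 := key 3 h2
    simp only [fval] at e1 e2 ⊢
    rw [e1, e2, add_zero]
  · have e1 := key 5 h1
    have e2 := key 7 h2
    simp only [fval] at e1 e2 ⊢
    rw [e1, add_zero] at e2; exact e2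
  · have e1 := key 4 h1
    have e2 := key 7 h2
    simp only [fval] at e1 e2 ⊢
    rw [e1, zero_add] at e2; exact e2
  · have e1 := key 4 h1
    have e2 := key 5 h2
    simp only [fval] at e1 e2 ⊢
    rw [e1, e2, add_zero]

/-- The finite check, in usable form. -/
theorem FC (n : Fin 4 → ℕ) (hn : ∀ i, n i ≤ 5) (T N S : Finset (Fin 4))
    (hT1 : ∀ i ∈ T, 1 ≤ n i) (hT0 : ∀ i, i ∉ T → n i = 0) (hTh : ∑ i ∈ T, n i = h T)
    (hQ : ∀ Q : Finset (Fin 4), ∑ i ∈ Q, n i ≤ h Q)
    (hNT : N ⊆ T) (hNne : N.Nonempty)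
    (hNQ : ∀ Q ⊆ N, ∑ i ∈ Q, n i + h S ≤ h (S ∪ Q))
    (hcont : ∀ u, memU N u → memU (T \ N) u → memU S u) :
    ∑ i ∈ N, n i + h S = h (S ∪ N) ∧ ∑ i ∈ T \ N, n i = h (T \ N) ∧
      ∀ u, memU N u → memU S u → memU (T \ N) u := by
  have hf := fullCheck_true
  simp only [fullCheck, List.all_eq_true, List.mem_range] at hf
  have h1 := hf (code T) (code_lt T) (n 0) (by have := hn 0; omega) (n 1)
    (by have := hn 1; omega) (n 2) (by have := hn 2; omega) (n 3) (by have := hn 3; omega)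
  obtain ⟨b0, b1, b2, b3⟩ := code_bits T
  have hpre : pre (code T) (n 0) (n 1) (n 2) (n 3) = true := by
    simp only [pre, ns_code, Bool.and_eq_true, List.all_eq_true, List.mem_range,
      decide_eq_true_iff, beq_iff_eq]
    have aux : ∀ i : Fin 4, ((if i ∈ T then 1 else 0) = 1) ↔ 1 ≤ n i := by
      intro i
      by_cases hi : i ∈ T
      · simp only [hi, if_true, true_iff]; exact hT1 i hi
      · simp [hi, hT0 i hi]
    refine ⟨⟨⟨⟨⟨hTh, ?_⟩, ?_⟩, ?_⟩, ?_⟩, ?_⟩
    · rw [b0]; exact decide_eq_decide.2 (aux 0)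
    · rw [b1]; exact decide_eq_decide.2 (aux 1)
    · rw [b2]; exact decide_eq_decide.2 (aux 2)
    · rw [b3]; exact decide_eq_decide.2 (aux 3)
    · intro q hq
      obtain ⟨Q, rfl⟩ := code_surj q hq
      rw [ns_code]; exact hQ Q
  rw [hpre] at h1
  simp only [Bool.not_true, Bool.false_or, List.all_eq_true, List.mem_range] at h1
  have h2 := h1 (code N) (code_lt N) (code S) (code_lt S)
  have hsd := code_sdiff N T hNT
  have hhyp : ((code N &&& code T == code N) && (code N != 0) && 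
    ((List.range 16).all fun Q => !(Q &&& code N == Q) ||
      decide (ns (n 0) (n 1) (n 2) (n 3) Q + hN (code S) ≤ hN (code S ||| Q))) &&
    cont (code N) (code T - code N) (code S)) = true := by
    simp only [Bool.and_eq_true, List.all_eq_true, List.mem_range, beq_iff_eq, bne_iff_ne,
      Bool.or_eq_true, Bool.not_eq_true', decide_eq_true_iff, beq_eq_false_iff_ne]
    refine ⟨⟨⟨(code_sub N T).2 hNT, code_ne N hNne⟩, ?_⟩, ?_⟩
    · intro q hq
      obtain ⟨Q, rfl⟩ := code_surj q hq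
      by_cases hQN : Q ⊆ N
      · right
        rw [ns_code, ← code_union]
        exact hNQ Q hQN
      · left
        intro hcon
        exact hQN ((code_sub Q N).1 hcon)
    · rw [← hsd]
      simp only [cont, List.all_eq_true, List.mem_range]
      intro t ht
      have e1 := tin_eq N ⟨t, ht⟩
      have e2 := tin_eq (T \ N) ⟨t, ht⟩
      have e3 := tin_eq S ⟨t, ht⟩
      simp only at e1 e2 e3
      rw [e1, e2, e3]
      simp only [Bool.or_eq_true, Bool.not_eq_true', Bool.and_eq_false_iff,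
        decide_eq_false_iff_not, decide_eq_true_iff]
      by_cases c1 : memU N (tv ⟨t, ht⟩)
      · by_cases c2 : memU (T \ N) (tv ⟨t, ht⟩)
        · right; exact hcont _ c1 c2
        · left; right; exact c2
      · left; left; exact c1
  rw [chk, hhyp] at h2
  simp only [Bool.not_true, Bool.false_or, Bool.and_eq_true, beq_iff_eq] at h2
  obtain ⟨⟨c1, c2⟩, c3⟩ := h2
  rw [ns_code, ← code_union] at c1
  rw [← hsd] at c2 c3
  rw [ns_code] at c2
  refine ⟨c1, c2, ?_⟩
  intro u hu1 hu2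
  exact cl8_memU (by rw [beq_iff_eq]; exact c3) hu1 hu2

end Pool.Agent.H315R3
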