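import Pool.Agent.H315R3.IngSeq

set_option autoImplicit false

namespace Pool.Agent.H315R3

open Finset

/-- numeric form of the basis condition -/
def isBn (x0 x1 x2 x3 : ℕ) : Prop :=
  x0 + x1 + x2 + x3 = 10 ∧ x0 + x1 ≤ 7 ∧ x0 + x2 ≤ 8 ∧ x0 + x3 ≤ 8 ∧ x1 + x2 ≤ 8 ∧ x1 + x3 ≤ 8

def isB (B : Finset Et) : Prop := isBn (cnt B {0}) (cnt B {1}) (cnt B {2}) (cnt B {3})

instance (B : Finset Et) : Decidable (isB B) := by unfold isB isBn; infer_instance

lemma card_eq_cnt (B : Finset Et) :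
    B.card = cnt B {0} + cnt B {1} + cnt B {2} + cnt B {3} := by
  have h1 : cnt B univ = B.card := by simp [cnt]
  rw [← h1, cnt_sum, Fin.sum_univ_four]

lemma isBn_h : ∀ n0 n1 n2 n3 : Fin 6, isBn n0 n1 n2 n3 → ∀ q : Fin 16, ns n0 n1 n2 n3 q ≤ hN q := by
  unfold isBn; decide +kernel

lemma isB_ind {B : Finset Et} (hB : isB B) (Q : Finset (Fin 4)) : cnt B Q ≤ h Q := by
  have := isBn_h ⟨cnt B {0}, by have := cnt_single_le B 0; omega⟩
    ⟨cnt B {1}, by have := cnt_single_le B 1; omega⟩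
    ⟨cnt B {2}, by have := cnt_single_le B 2; omega⟩
    ⟨cnt B {3}, by have := cnt_single_le B 3; omega⟩ hB ⟨code Q, code_lt Q⟩
  rw [cnt_sum, ← ns_code (fun i => cnt B {i}) Q]
  exact this

lemma h_univ : h univ = 10 := by decide +kernel

lemma h_empty : h ∅ = 0 := by decide +kernel

lemma isB_ind0 {B : Finset Et} (hB : isB B) : Ind ∅ B := by
  intro Q
  rw [h_empty, Finset.empty_union]
  exact isB_ind hB Q

lemma cnt_pos_iff (B : Finset Et) (i : Fin 4) : 1 ≤ cnt B {i} ↔ ∃ e ∈ B, e.1 = i := by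
  unfold cnt
  rw [Nat.succ_le_iff, Finset.card_pos]
  constructor
  · rintro ⟨e, he⟩
    rw [Finset.mem_filter, Finset.mem_singleton] at he
    exact ⟨e, he⟩
  · rintro ⟨e, he⟩
    exact ⟨e, by rw [Finset.mem_filter, Finset.mem_singleton]; exact he⟩

lemma isB_isTB {B : Finset Et} (hB : isB B) : ∃ T, IsTB T B ∧ h T = 10 := by
  classical
  have hcard : B.card = 10 := by rw [card_eq_cnt]; exact hB.1
  have h1 : cnt B (B.image Prod.fst) = 10 := by
    rw [← hcard]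
    unfold cnt
    congr 1
    rw [Finset.filter_eq_self]
    intro e he
    exact Finset.mem_image_of_mem _ he
  have h2 : h (B.image Prod.fst) = 10 := by
    have h3 := isB_ind hB (B.image Prod.fst)
    have h4 := h_mono (B.image Prod.fst) univ (Finset.subset_univ _)
    rw [h_univ] at h4
    omega
  refine ⟨B.image Prod.fst, ⟨fun e he => Finset.mem_image_of_mem _ he, ?_, by rw [h1, h2],
    isB_ind hB⟩, h2⟩
  intro i hi
  rw [Finset.mem_image] at hi
  obtain ⟨e, he, rfl⟩ := hi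
  exact (cnt_pos_iff B e.1).2 ⟨e, he, rfl⟩

/-- the five constrained pairs -/
def pairs : List (Finset (Fin 4)) := [{0, 1}, {0, 2}, {0, 3}, {1, 2}, {1, 3}]

lemma cnt_pair (B : Finset Et) {i j : Fin 4} (hij : i ≠ j) :
    cnt B {i, j} = cnt B {i} + cnt B {j} := by
  rw [cnt_sum, Finset.sum_pair hij]

lemma h_pairs : h {0, 1} = 7 ∧ h {0, 2} = 8 ∧ h {0, 3} = 8 ∧ h {1, 2} = 8 ∧ h {1, 3} = 8 := by
  decide +kernel

lemma isB_iff (B : Finset Et) : isB B ↔ B.card = 10 ∧ ∀ P ∈ pairs, cnt B P ≤ h P := by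
  obtain ⟨p1, p2, p3, p4, p5⟩ := h_pairs
  rw [card_eq_cnt]
  simp only [pairs, List.mem_cons, List.not_mem_nil, or_false, forall_eq_or_imp, forall_eq]
  rw [p1, p2, p3, p4, p5, cnt_pair B (by decide : (0 : Fin 4) ≠ 1),
    cnt_pair B (by decide : (0 : Fin 4) ≠ 2), cnt_pair B (by decide : (0 : Fin 4) ≠ 3),
    cnt_pair B (by decide : (1 : Fin 4) ≠ 2), cnt_pair B (by decide : (1 : Fin 4) ≠ 3)]
  rfl

def pnum (P : Finset (Fin 4)) (n0 n1 n2 n3 : ℕ) : Bool :=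
  !(ns n0 n1 n2 n3 (code P) == h P && (decide (0 ∈ P) || n0 == 0) && (decide (1 ∈ P) || n1 == 0) &&
    (decide (2 ∈ P) || n2 == 0) && (decide (3 ∈ P) || n3 == 0)) ||
  ((!decide (0 ∈ P) || decide (1 ≤ n0)) && (!decide (1 ∈ P) || decide (1 ≤ n1)) &&
    (!decide (2 ∈ P) || decide (1 ≤ n2)) && (!decide (3 ∈ P) || decide (1 ≤ n3)) &&
    (List.range 16).all fun q => decide (ns n0 n1 n2 n3 q ≤ hN q))

lemma pnum_true : ∀ n0 n1 n2 n3 : Fin 6, ∀ P ∈ pairs, pnum P n0 n1 n2 n3 = true := by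
  decide +kernel

lemma pair_num (P : Finset (Fin 4)) (hP : P ∈ pairs) (n0 n1 n2 n3 : ℕ) (b0 : n0 ≤ 5) (b1 : n1 ≤ 5)
    (b2 : n2 ≤ 5) (b3 : n3 ≤ 5) (hns : ns n0 n1 n2 n3 (code P) = h P)
    (z0 : 0 ∉ P → n0 = 0) (z1 : 1 ∉ P → n1 = 0) (z2 : 2 ∉ P → n2 = 0)
    (z3 : 3 ∉ P → n3 = 0) : ((0 ∈ P → 1 ≤ n0) ∧ (1 ∈ P → 1 ≤ n1) ∧ (2 ∈ P → 1 ≤ n2) ∧
      (3 ∈ P → 1 ≤ n3)) ∧ ∀ q < 16, ns n0 n1 n2 n3 q ≤ hN q := by
  have key := pnum_true ⟨n0, by omega⟩ ⟨n1, by omega⟩ ⟨n2, by omega⟩ ⟨n3, by omega⟩ P hP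
  simp only [pnum] at key
  have hc : (ns n0 n1 n2 n3 (code P) == h P && (decide (0 ∈ P) || n0 == 0) &&
    (decide (1 ∈ P) || n1 == 0) && (decide (2 ∈ P) || n2 == 0) && (decide (3 ∈ P) || n3 == 0))
      = true := by
    simp only [Bool.and_eq_true, Bool.or_eq_true, beq_iff_eq, decide_eq_true_iff]
    refine ⟨⟨⟨⟨hns, ?_⟩, ?_⟩, ?_⟩, ?_⟩
    · by_cases h0 : 0 ∈ P
      · exact Or.inl h0
      · exact Or.inr (z0 h0)
    · by_cases h0 : 1 ∈ P
      · exact Or.inl h0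
      · exact Or.inr (z1 h0)
    · by_cases h0 : 2 ∈ P
      · exact Or.inl h0
      · exact Or.inr (z2 h0)
    · by_cases h0 : 3 ∈ P
      · exact Or.inl h0
      · exact Or.inr (z3 h0)
  rw [hc] at key
  simp only [Bool.not_true, Bool.false_or, Bool.and_eq_true, Bool.or_eq_true, Bool.not_eq_true',
    decide_eq_false_iff_not, decide_eq_true_iff, List.all_eq_true, List.mem_range] at key
  obtain ⟨⟨⟨⟨k0, k1⟩, k2⟩, k3⟩, k4⟩ := key
  exact ⟨⟨fun h0 => k0.resolve_left (fun h => h h0), fun h0 => k1.resolve_left (fun h => h h0),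
    fun h0 => k2.resolve_left (fun h => h h0), fun h0 => k3.resolve_left (fun h => h h0)⟩, k4⟩

lemma pair_isTB {P : Finset (Fin 4)} (hP : P ∈ pairs) {S : Finset Et} (hS : ∀ e ∈ S, e.1 ∈ P)
    (hc : S.card = h P) : IsTB P S := by
  have hz : ∀ i, i ∉ P → cnt S {i} = 0 := by
    intro i hi
    by_contra hne
    obtain ⟨e, he, hei⟩ := (cnt_pos_iff S i).1 (by omega)
    exact hi (hei ▸ hS e he)
  have hcP : cnt S P = S.card := by
    unfold cnt
    congr 1
    rw [Finset.filter_eq_self]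
    exact hS
  have hnum := pair_num P hP (cnt S {0}) (cnt S {1}) (cnt S {2}) (cnt S {3})
    (cnt_single_le S 0) (cnt_single_le S 1) (cnt_single_le S 2) (cnt_single_le S 3)
    (by
      have := ns_code (fun i => cnt S {i}) P
      rw [this, ← cnt_sum, hcP, hc])
    (hz 0) (hz 1) (hz 2) (hz 3)
  obtain ⟨⟨a0, a1, a2, a3⟩, a4⟩ := hnum
  refine ⟨hS, ?_, by rw [hcP, hc], ?_⟩
  · intro i hi
    fin_cases i
    · exact a0 hi
    · exact a1 hi
    · exact a2 hi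
    · exact a3 hi
  · intro Q
    have := a4 (code Q) (code_lt Q)
    rw [cnt_sum, ← ns_code (fun i => cnt S {i}) Q]
    exact this

/-- counts after an exchange -/
lemma cnt_exchange {X : Finset Et} {a b : Et} (ha : a ∈ X) (hb : b ∉ X) (Q : Finset (Fin 4)) :
    cnt (insert b (X.erase a)) Q + (if a.1 ∈ Q then 1 else 0) =
      cnt X Q + (if b.1 ∈ Q then 1 else 0) := by
  classical
  have hab : b ∉ X.erase a := fun h => hb (Finset.mem_of_mem_erase h)
  have h1 : cnt (insert b (X.erase a)) Q = cnt (X.erase a) Q + (if b.1 ∈ Q then 1 else 0) := by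
    unfold cnt
    rw [Finset.filter_insert]
    split_ifs with h
    · rw [Finset.card_insert_of_notMem (fun h2 => hab (Finset.mem_filter.1 h2).1)]
    · rfl
  have h2 : cnt (X.erase a) Q + (if a.1 ∈ Q then 1 else 0) = cnt X Q := by
    unfold cnt
    rw [Finset.filter_erase]
    split_ifs with h
    · have h3 : a ∈ X.filter (fun e => e.1 ∈ Q) := Finset.mem_filter.2 ⟨ha, h⟩
      rw [Finset.card_erase_of_mem h3]
      have := Finset.card_pos.2 ⟨a, h3⟩
      omega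
    · have h3 : a ∉ X.filter (fun e => e.1 ∈ Q) := fun h3 => h (Finset.mem_filter.1 h3).2
      rw [Finset.erase_eq_of_notMem h3, add_zero]
  omega

lemma exch_num (x0 x1 x2 x3 y0 y1 y2 y3 : ℕ) (hx : isBn x0 x1 x2 x3) (hy : isBn y0 y1 y2 y3)
    (b0 : x0 ≤ 5) (b1 : x1 ≤ 5) (b2 : x2 ≤ 5) (b3 : x3 ≤ 5) :
    (y0 < x0 → (x1 < y1 ∧ isBn (x0 - 1) (x1 + 1) x2 x3) ∨ (x2 < y2 ∧ isBn (x0 - 1) x1 (x2 + 1) x3) ∨
      (x3 < y3 ∧ isBn (x0 - 1) x1 x2 (x3 + 1))) ∧
    (y1 < x1 → (x0 < y0 ∧ isBn (x0 + 1) (x1 - 1) x2 x3) ∨ (x2 < y2 ∧ isBn x0 (x1 - 1) (x2 + 1) x3) ∨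
      (x3 < y3 ∧ isBn x0 (x1 - 1) x2 (x3 + 1))) ∧
    (y2 < x2 → (x0 < y0 ∧ isBn (x0 + 1) x1 (x2 - 1) x3) ∨ (x1 < y1 ∧ isBn x0 (x1 + 1) (x2 - 1) x3) ∨
      (x3 < y3 ∧ isBn x0 x1 (x2 - 1) (x3 + 1))) ∧
    (y3 < x3 → (x0 < y0 ∧ isBn (x0 + 1) x1 x2 (x3 - 1)) ∨ (x1 < y1 ∧ isBn x0 (x1 + 1) x2 (x3 - 1)) ∨
      (x2 < y2 ∧ isBn x0 x1 (x2 + 1) (x3 - 1))) := by
  unfold isBn at *
  refine ⟨?_, ?_, ?_, ?_⟩ <;> omega

lemma exists_type {X Y : Finset Et} {k : Fin 4} (h : cnt X {k} < cnt Y {k}) :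
    ∃ b ∈ Y, b ∉ X ∧ b.1 = k := by
  by_contra hcon
  push Not at hcon
  have : cnt Y {k} ≤ cnt X {k} := by
    unfold cnt
    apply Finset.card_le_card
    intro e he
    rw [Finset.mem_filter, Finset.mem_singleton] at he ⊢
    refine ⟨?_, he.2⟩
    by_contra hX
    exact hcon e he.1 hX he.2
  omega

lemma exchange (X Y : Finset Et) (hX : isB X) (hY : isB Y) (a : Et) (haX : a ∈ X) (haY : a ∉ Y) :
    ∃ b ∈ Y, b ∉ X ∧ isB (insert b (X.erase a)) := by
  classical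
  by_cases hsame : ∃ b ∈ Y, b ∉ X ∧ b.1 = a.1
  · obtain ⟨b, hb, hbX, hba⟩ := hsame
    refine ⟨b, hb, hbX, ?_⟩
    have h1 : ∀ Q, cnt (insert b (X.erase a)) Q = cnt X Q := by
      intro Q
      have := cnt_exchange haX hbX Q
      rw [hba] at this
      omega
    unfold isB
    rw [h1, h1, h1, h1]
    exact hX
  · push Not at hsame
    have hlt : cnt Y {a.1} < cnt X {a.1} := by
      unfold cnt
      apply Finset.card_lt_card
      rw [Finset.ssubset_iff_of_subset]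
      · exact ⟨a, by simp [haX], by simp [haY]⟩
      · intro e he
        rw [Finset.mem_filter, Finset.mem_singleton] at he ⊢
        refine ⟨?_, he.2⟩
        by_contra hX'
        exact hsame e he.1 hX' he.2
    have key := exch_num _ _ _ _ _ _ _ _ hX hY (cnt_single_le X 0) (cnt_single_le X 1)
      (cnt_single_le X 2) (cnt_single_le X 3)
    -- helper to conclude
    have fin : ∀ k : Fin 4, cnt X {k} < cnt Y {k} →
        (∀ b : Et, b ∉ X → b.1 = k → isB (insert b (X.erase a))) →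
        ∃ b ∈ Y, b ∉ X ∧ isB (insert b (X.erase a)) := by
      intro k hk hb
      obtain ⟨b, hbY, hbX, hbk⟩ := exists_type hk
      exact ⟨b, hbY, hbX, hb b hbX hbk⟩
    have e : ∀ (b : Et), b ∉ X → ∀ j : Fin 4, cnt (insert b (X.erase a)) {j} +
        (if a.1 = j then 1 else 0) = cnt X {j} + (if b.1 = j then 1 else 0) := by
      intro b hb j
      have := cnt_exchange haX hb {j}
      simpa only [Finset.mem_singleton] using this
    have h4 : ∀ i : Fin 4, i = 0 ∨ i = 1 ∨ i = 2 ∨ i = 3 := by decide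
    rcases h4 a.1 with ha | ha | ha | ha
    · rw [ha] at hlt
      rcases key.1 hlt with ⟨h1, h2⟩ | ⟨h1, h2⟩ | ⟨h1, h2⟩
      · refine fin 1 h1 (fun b hb hbk => ?_)
        have q0 := e b hb 0; have q1 := e b hb 1; have q2 := e b hb 2; have q3 := e b hb 3
        simp [hbk, ha] at q0 q1 q2 q3
        unfold isB isBn at *
        omega
      · refine fin 2 h1 (fun b hb hbk => ?_)
        have q0 := e b hb 0; have q1 := e b hb 1; have q2 := e b hb 2; have q3 := e b hb 3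
        simp [hbk, ha] at q0 q1 q2 q3
        unfold isB isBn at *
        omega
      · refine fin 3 h1 (fun b hb hbk => ?_)
        have q0 := e b hb 0; have q1 := e b hb 1; have q2 := e b hb 2; have q3 := e b hb 3
        simp [hbk, ha] at q0 q1 q2 q3
        unfold isB isBn at *
        omega
    · rw [ha] at hlt
      rcases key.2.1 hlt with ⟨h1, h2⟩ | ⟨h1, h2⟩ | ⟨h1, h2⟩
      · refine fin 0 h1 (fun b hb hbk => ?_)
        have q0 := e b hb 0; have q1 := e b hb 1; have q2 := e b hb 2; have q3 := e b hb 3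
        simp [hbk, ha] at q0 q1 q2 q3
        unfold isB isBn at *
        omega
      · refine fin 2 h1 (fun b hb hbk => ?_)
        have q0 := e b hb 0; have q1 := e b hb 1; have q2 := e b hb 2; have q3 := e b hb 3
        simp [hbk, ha] at q0 q1 q2 q3
        unfold isB isBn at *
        omega
      · refine fin 3 h1 (fun b hb hbk => ?_)
        have q0 := e b hb 0; have q1 := e b hb 1; have q2 := e b hb 2; have q3 := e b hb 3
        simp [hbk, ha] at q0 q1 q2 q3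
        unfold isB isBn at *
        omega
    · rw [ha] at hlt
      rcases key.2.2.1 hlt with ⟨h1, h2⟩ | ⟨h1, h2⟩ | ⟨h1, h2⟩
      · refine fin 0 h1 (fun b hb hbk => ?_)
        have q0 := e b hb 0; have q1 := e b hb 1; have q2 := e b hb 2; have q3 := e b hb 3
        simp [hbk, ha] at q0 q1 q2 q3
        unfold isB isBn at *
        omega
      · refine fin 1 h1 (fun b hb hbk => ?_)
        have q0 := e b hb 0; have q1 := e b hb 1; have q2 := e b hb 2; have q3 := e b hb 3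
        simp [hbk, ha] at q0 q1 q2 q3
        unfold isB isBn at *
        omega
      · refine fin 3 h1 (fun b hb hbk => ?_)
        have q0 := e b hb 0; have q1 := e b hb 1; have q2 := e b hb 2; have q3 := e b hb 3
        simp [hbk, ha] at q0 q1 q2 q3
        unfold isB isBn at *
        omega
    · rw [ha] at hlt
      rcases key.2.2.2 hlt with ⟨h1, h2⟩ | ⟨h1, h2⟩ | ⟨h1, h2⟩
      · refine fin 0 h1 (fun b hb hbk => ?_)
        have q0 := e b hb 0; have q1 := e b hb 1; have q2 := e b hb 2; have q3 := e b hb 3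
        simp [hbk, ha] at q0 q1 q2 q3
        unfold isB isBn at *
        omega
      · refine fin 1 h1 (fun b hb hbk => ?_)
        have q0 := e b hb 0; have q1 := e b hb 1; have q2 := e b hb 2; have q3 := e b hb 3
        simp [hbk, ha] at q0 q1 q2 q3
        unfold isB isBn at *
        omega
      · refine fin 2 h1 (fun b hb hbk => ?_)
        have q0 := e b hb 0; have q1 := e b hb 1; have q2 := e b hb 2; have q3 := e b hb 3
        simp [hbk, ha] at q0 q1 q2 q3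
        unfold isB isBn at *
        omega

/-- bases as sets -/
def IsBS (B : Set Et) : Prop := ∃ F : Finset Et, (F : Set Et) = B ∧ isB F

/-- a basis with counts (5,2,3,0) -/
def F1b : Finset Et := univ.filter (fun e => e.1 = 0 ∨ (e.1 = 1 ∧ e.2 < 2) ∨ (e.1 = 2 ∧ e.2 < 3))
def F2b : Finset Et := univ.filter (fun e => e.1 = 0 ∨ (e.1 = 1 ∧ e.2 < 2) ∨ (e.1 = 3 ∧ e.2 < 3))
def F3b : Finset Et := univ.filter (fun e => e.1 = 1 ∨ (e.1 = 0 ∧ e.2 < 2) ∨ (e.1 = 2 ∧ e.2 < 3))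
def F4b : Finset Et := univ.filter (fun e => e.1 = 2 ∨ e.1 = 3)

lemma F1b_isB : isB F1b := by unfold isB isBn; decide +kernel
lemma F2b_isB : isB F2b := by unfold isB isBn; decide +kernel
lemma F3b_isB : isB F3b := by unfold isB isBn; decide +kernel
lemma F4b_isB : isB F4b := by unfold isB isBn; decide +kernel

/-- the matroid -/
def MM : Matroid Et := Matroid.ofIsBaseOfFinite (E := Set.univ) Set.finite_univ IsBS
  ⟨_, F1b, rfl, F1b_isB⟩
  (by
    classical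
    rintro X Y ⟨FX, rfl, hFX⟩ ⟨FY, rfl, hFY⟩ a ha
    obtain ⟨b, hbY, hbX, hb⟩ := exchange FX FY hFX hFY a (by simpa using ha.1) (by simpa using ha.2)
    refine ⟨b, ⟨by simpa using hbY, by simpa using hbX⟩, insert b (FX.erase a), ?_, hb⟩
    simp)
  (fun B _ => Set.subset_univ B)

lemma MM_isBase (B : Set Et) : MM.IsBase B ↔ IsBS B := Iff.rfl

lemma MM_lower (F : Finset Et) (hF : isB F) (P : Set Et) (k : ℕ) (G : Finset Et) (hGF : G ⊆ F)
    (hGP : ∀ e ∈ G, e ∈ P) (hk : G.card = k) : (k : ℕ∞) ≤ MM.eRk P := by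
  rw [Matroid.le_eRk_iff]
  refine ⟨G, fun e he => hGP e (by simpa using he), ?_, ?_⟩
  · have hb : MM.IsBase (F : Set Et) := (MM_isBase _).2 ⟨F, rfl, hF⟩
    exact hb.indep.subset (by exact_mod_cast hGF)
  · rw [Set.encard_coe_eq_coe_finsetCard, hk]

lemma MM_upper (Q : Finset (Fin 4)) (P : Set Et) (hP : ∀ e ∈ P, e.1 ∈ Q) (k : ℕ) (hk : h Q = k) :
    MM.eRk P ≤ (k : ℕ∞) := by
  classical
  rw [Matroid.eRk_le_iff]
  intro I hIP hI
  obtain ⟨B, hB, hIB⟩ := hI.exists_isBase_superset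
  obtain ⟨F, rfl, hF⟩ := (MM_isBase B).1 hB
  have h1 : I ⊆ ((F.filter (fun e => e.1 ∈ Q) : Finset Et) : Set Et) := by
    intro e he
    rw [Finset.coe_filter]
    exact ⟨by simpa using hIB he, hP e (hIP he)⟩
  have h2 := Set.encard_le_encard h1
  rw [Set.encard_coe_eq_coe_finsetCard] at h2
  refine h2.trans ?_
  have h3 := isB_ind hF Q
  rw [hk] at h3
  exact_mod_cast h3

def setT (i : Fin 4) : Set Et := {e | e.1 = i}

lemma ingleton_fails : ¬ (MM.eRk (setT 0) + MM.eRk (setT 1) + MM.eRk (setT 0 ∪ setT 1 ∪ setT 2) +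
    MM.eRk (setT 0 ∪ setT 1 ∪ setT 3) + MM.eRk (setT 2 ∪ setT 3) ≤
    MM.eRk (setT 0 ∪ setT 1) + MM.eRk (setT 0 ∪ setT 2) + MM.eRk (setT 0 ∪ setT 3) +
    MM.eRk (setT 1 ∪ setT 2) + MM.eRk (setT 1 ∪ setT 3)) := by
  intro hcon
  have l1 : ((5 : ℕ) : ℕ∞) ≤ MM.eRk (setT 0) :=
    MM_lower F1b F1b_isB _ 5 (univ.filter (fun e => e.1 = 0)) (by decide +kernel)
      (fun e he => (Finset.mem_filter.1 he).2) (by decide +kernel)
  have l2 : ((5 : ℕ) : ℕ∞) ≤ MM.eRk (setT 1) :=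
    MM_lower F3b F3b_isB _ 5 (univ.filter (fun e => e.1 = 1)) (by decide +kernel)
      (fun e he => (Finset.mem_filter.1 he).2) (by decide +kernel)
  have l3 : ((10 : ℕ) : ℕ∞) ≤ MM.eRk (setT 0 ∪ setT 1 ∪ setT 2) :=
    MM_lower F1b F1b_isB _ 10 F1b subset_rfl (by
      intro e he
      simp only [F1b, Finset.mem_filter, Finset.mem_univ, true_and] at he
      simp only [setT, Set.mem_union, Set.mem_ofPred_eq]
      tauto) (by decide +kernel)
  have l4 : ((10 : ℕ) : ℕ∞) ≤ MM.eRk (setT 0 ∪ setT 1 ∪ setT 3) :=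
    MM_lower F2b F2b_isB _ 10 F2b subset_rfl (by
      intro e he
      simp only [F2b, Finset.mem_filter, Finset.mem_univ, true_and] at he
      simp only [setT, Set.mem_union, Set.mem_ofPred_eq]
      tauto) (by decide +kernel)
  have l5 : ((10 : ℕ) : ℕ∞) ≤ MM.eRk (setT 2 ∪ setT 3) :=
    MM_lower F4b F4b_isB _ 10 F4b subset_rfl (by
      intro e he
      simp only [F4b, Finset.mem_filter, Finset.mem_univ, true_and] at he
      simp only [setT, Set.mem_union, Set.mem_ofPred_eq]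
      tauto) (by decide +kernel)
  have u : ∀ i j : Fin 4, ∀ e ∈ setT i ∪ setT j, e.1 ∈ ({i, j} : Finset (Fin 4)) := by
    intro i j e he
    simp only [setT, Set.mem_union, Set.mem_ofPred_eq] at he
    simp only [Finset.mem_insert, Finset.mem_singleton]
    exact he
  obtain ⟨p1, p2, p3, p4, p5⟩ := h_pairs
  have u1 := MM_upper {0, 1} (setT 0 ∪ setT 1) (u 0 1) 7 p1
  have u2 := MM_upper {0, 2} (setT 0 ∪ setT 2) (u 0 2) 8 p2
  have u3 := MM_upper {0, 3} (setT 0 ∪ setT 3) (u 0 3) 8 p3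
  have u4 := MM_upper {1, 2} (setT 1 ∪ setT 2) (u 1 2) 8 p4
  have u5 := MM_upper {1, 3} (setT 1 ∪ setT 3) (u 1 3) 8 p5
  have hL : ((40 : ℕ) : ℕ∞) ≤ MM.eRk (setT 0) + MM.eRk (setT 1) +
      MM.eRk (setT 0 ∪ setT 1 ∪ setT 2) + MM.eRk (setT 0 ∪ setT 1 ∪ setT 3) +
      MM.eRk (setT 2 ∪ setT 3) := by
    calc ((40 : ℕ) : ℕ∞) = ((5 : ℕ) : ℕ∞) + ((5 : ℕ) : ℕ∞) + ((10 : ℕ) : ℕ∞) + ((10 : ℕ) : ℕ∞)
          + ((10 : ℕ) : ℕ∞) := by norm_num
      _ ≤ _ := by gcongr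
  have hR : MM.eRk (setT 0 ∪ setT 1) + MM.eRk (setT 0 ∪ setT 2) + MM.eRk (setT 0 ∪ setT 3) +
      MM.eRk (setT 1 ∪ setT 2) + MM.eRk (setT 1 ∪ setT 3) ≤ ((39 : ℕ) : ℕ∞) := by
    calc _ ≤ ((7 : ℕ) : ℕ∞) + ((8 : ℕ) : ℕ∞) + ((8 : ℕ) : ℕ∞) + ((8 : ℕ) : ℕ∞)
          + ((8 : ℕ) : ℕ∞) := by gcongr
      _ = ((39 : ℕ) : ℕ∞) := by norm_num
  have := (hL.trans hcon).trans hR
  have h40 : (40 : ℕ) ≤ 39 := by exact_mod_cast this
  omega

end Pool.Agent.H315R3
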