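import Pool.Agent.H315R3.IngMatroid

set_option autoImplicit false

namespace Pool.Agent.H315R3

open Finset

section rep

variable (al : Et → (KK →ₗ[ZMod 2] VV))

/-- the map `K^10 → V` given by ten of the maps `al e` -/
noncomputable def Psi (b : Fin 10 → Et) : (Fin 10 → KK) →ₗ[ZMod 2] VV :=
  ∑ i, (al (b i)).comp (LinearMap.proj i)

lemma Psi_apply (b : Fin 10 → Et) (w : Fin 10 → KK) : Psi al b w = ∑ i, al (b i) (w i) := by
  simp [Psi]

lemma Psi_of (b : Fin 10 ↪ Et) (k : Et → KK) (hk : ∀ e, e ∉ univ.map b → k e = 0) :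
    Psi al b (fun i => k (b i)) = ∑ e, al e (k e) := by
  rw [Psi_apply]
  rw [← Finset.sum_subset (Finset.subset_univ (univ.map b))
    (fun e _ he => by rw [hk e he, map_zero])]
  rw [Finset.sum_map]

lemma mem_map (b : Fin 10 ↪ Et) (e : Et) : e ∈ univ.map b ↔ ∃ i, b i = e := by
  simp

/-- extend a tuple by zero -/
lemma exists_ext (b : Fin 10 ↪ Et) (w : Fin 10 → KK) : ∃ k : Et → KK,
    (∀ i, k (b i) = w i) ∧ ∀ e, e ∉ univ.map b → k e = 0 := by
  classical
  refine ⟨Function.extend b w 0, fun i => b.injective.extend_apply _ _ _, ?_⟩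
  intro e he
  rw [Function.extend_apply' _ _ _ (by rw [mem_map] at he; exact he)]
  rfl

variable (P1 : ∀ e k, al e k ∈ U {e.1})
  (P2 : ∀ S I, Ind S I → ∀ k : Et → KK, (∀ e, e ∉ I → k e = 0) → ∑ e, al e (k e) ∈ U S →
      ∀ e, k e = 0)
  (P3 : ∀ T B, IsTB T B → ∀ v ∈ U T, ∃ k : Et → KK, (∀ e, e ∉ B → k e = 0) ∧
      ∑ e, al e (k e) = v)

include P2 P3 in
lemma Psi_bij (b : Fin 10 ↪ Et) (hb : isB (univ.map b)) : Function.Bijective (Psi al b) := by
  constructor
  · rw [injective_iff_map_eq_zero]
    intro w hw
    obtain ⟨k, hk1, hk2⟩ := exists_ext b w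
    have h1 : ∑ e, al e (k e) = 0 := by
      rw [← Psi_of al b k hk2]
      simp only [hk1]
      exact hw
    have h2 := P2 ∅ _ (isB_ind0 hb) k hk2 (by rw [h1]; exact Submodule.zero_mem _)
    funext i
    rw [← hk1 i, h2]; rfl
  · intro v
    obtain ⟨T, hT, hT10⟩ := isB_isTB hb
    obtain ⟨k, hk1, hk2⟩ := P3 T _ hT v (fun n => memU_top hT10 _)
    exact ⟨fun i => k (b i), by rw [Psi_of al b k hk1, hk2]⟩

include P1 P3 in
lemma Psi_not_inj (b : Fin 10 ↪ Et) (hb : ¬ isB (univ.map b)) :
    ¬ Function.Injective (Psi al b) := by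
  classical
  intro hinj
  rw [isB_iff] at hb
  have hcard : (univ.map b).card = 10 := by simp
  have hb' : ∃ P ∈ pairs, h P < cnt (univ.map b) P := by
    by_contra hcon
    push Not at hcon
    exact hb ⟨hcard, hcon⟩
  obtain ⟨P, hP, hlt⟩ := hb'
  obtain ⟨S, hS, hSc⟩ := Finset.exists_subset_card_eq (le_of_lt hlt)
  obtain ⟨j0, hj0, hj0S⟩ := Finset.exists_mem_notMem_of_card_lt_card (hSc ▸ hlt : S.card < _)
  rw [Finset.mem_filter] at hj0
  obtain ⟨i0, hi0⟩ := (mem_map b j0).1 hj0.1
  have hTB : IsTB P S := pair_isTB hP (fun e he => (Finset.mem_filter.1 (hS he)).2) hSc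
  let d : KK := Finsupp.single 0 1
  have hd : d ≠ 0 := by
    intro hcon
    have := DFunLike.congr_fun hcon 0
    simp [d] at this
  obtain ⟨k, hk1, hk2⟩ := P3 P S hTB (al j0 d)
    (U_mono (Finset.singleton_subset_iff.2 hj0.2) (P1 j0 d))
  have hk1' : ∀ e, e ∉ univ.map b → k e = 0 := fun e he =>
    hk1 e (fun h => he (Finset.mem_filter.1 (hS h)).1)
  have h1 : Psi al b (fun i => k (b i)) = al j0 d := by rw [Psi_of al b k hk1', hk2]
  have h2 : Psi al b (Pi.single i0 d) = al j0 d := by
    rw [Psi_apply, Finset.sum_eq_single i0]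
    · rw [Pi.single_eq_same, hi0]
    · intro i _ hi
      rw [Pi.single_eq_of_ne hi, map_zero]
    · intro h; exact absurd (Finset.mem_univ _) h
  have h3 := hinj (h1.trans h2.symm)
  have h4 := congrFun h3 i0
  rw [Pi.single_eq_same] at h4
  simp only [hi0] at h4
  rw [hk1 j0 hj0S] at h4
  exact hd h4.symm

end rep

abbrev RR := Module.End (ZMod 2) KK

/-- base basis `E_Y ∪ E_Z` -/
def b0 : Fin 10 ↪ Et where
  toFun i := (⟨2 + i.val / 5, by omega⟩, ⟨i.val % 5, by omega⟩)
  inj' := by
    intro i j hij
    simp only [Prod.mk.injEq, Fin.mk.injEq] at hij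
    exact Fin.ext (by omega)

lemma b0_isB : isB (univ.map b0) := by unfold isB isBn; decide +kernel

theorem exists_rep : ∃ A : Matrix (Fin 10) Et RR,
    (∀ (b : Fin 10 ↪ Et) (N : Matrix (Fin 10) (Fin 10) RR),
      N * A.submatrix id ⇑b = 1 → A.submatrix id ⇑b * N = 1 →
      ∀ (i : Fin 10) (j : Et), (N * A) i j = 0 ∨ IsUnit ((N * A) i j)) ∧
    ∀ b : Fin 10 ↪ Et, IsUnit (A.submatrix id ⇑b) ↔ isB (univ.map b) := by
  classical
  obtain ⟨al, P1, P2, P3⟩ := exists_maps
  let Th : (Fin 10 → KK) ≃ₗ[ZMod 2] VV :=
    LinearEquiv.ofBijective (Psi al b0) (Psi_bij al P2 P3 b0 b0_isB)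
  let A : Matrix (Fin 10) Et RR := fun i e =>
    (LinearMap.proj i).comp ((Th.symm : VV →ₗ[ZMod 2] (Fin 10 → KK)).comp (al e))
  have hA : ∀ i e t, A i e t = Th.symm (al e t) i := fun i e t => rfl
  -- the submatrix as an endomorphism
  have hAb : ∀ b : Fin 10 ↪ Et, A.submatrix id ⇑b = endVecRingEquivMatrixEnd (Fin 10) (ZMod 2) KK
      ((Th.symm : VV →ₗ[ZMod 2] (Fin 10 → KK)).comp (Psi al b)) := by
    intro b
    apply Matrix.ext
    intro i j
    apply LinearMap.ext
    intro t
    show A i (b j) t = Th.symm (Psi al b (Pi.single j t)) i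
    rw [hA, Psi_apply, Finset.sum_eq_single j]
    · rw [Pi.single_eq_same]
    · intro l _ hl
      rw [Pi.single_eq_of_ne hl, map_zero]
    · intro h; exact absurd (Finset.mem_univ _) h
  have hunit : ∀ b : Fin 10 ↪ Et, IsUnit (A.submatrix id ⇑b) ↔ Function.Bijective (Psi al b) := by
    intro b
    rw [hAb b, MulEquiv.isUnit_map, Module.End.isUnit_iff, LinearMap.coe_comp,
      LinearEquiv.coe_coe]
    constructor
    · intro h
      have h2 : (Psi al b : (Fin 10 → KK) → VV) = Th ∘ (Th.symm ∘ Psi al b) := by
        funext w; simp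
      rw [h2]
      exact Th.bijective.comp h
    · intro h
      exact Th.symm.bijective.comp h
  have hiff : ∀ b : Fin 10 ↪ Et, IsUnit (A.submatrix id ⇑b) ↔ isB (univ.map b) := by
    intro b
    rw [hunit b]
    constructor
    · intro h
      by_contra hcon
      exact Psi_not_inj al P1 P3 b hcon h.1
    · exact Psi_bij al P2 P3 b
  refine ⟨A, ?_, hiff⟩
  intro b N hN1 hN2 i j
  have hbu : IsUnit (A.submatrix id ⇑b) := ⟨⟨_, N, hN2, hN1⟩, rfl⟩
  have hbB : isB (univ.map b) := (hiff b).1 hbu
  have hbij := (hunit b).1 hbu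
  -- coordinates
  let w : KK → Fin 10 → KK := fun t l => (N * A) l j t
  have hw : ∀ t, Psi al b (w t) = al j t := by
    intro t
    have h1 : A.submatrix id ⇑b * (N * A) = A := by
      rw [← Matrix.mul_assoc, hN2, Matrix.one_mul]
    apply Th.symm.injective
    funext r
    have h2 : (A.submatrix id ⇑b * (N * A)) r j t = A r j t := by rw [h1]
    rw [Matrix.mul_apply, LinearMap.sum_apply] at h2
    rw [← hA r j t, ← h2, Psi_apply, map_sum, Finset.sum_apply]
    rfl
  have hwu : ∀ t w', Psi al b w' = al j t → w t = w' := fun t w' h =>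
    hbij.1 ((hw t).trans h.symm)
  by_cases hj : ∃ i', b i' = j
  · obtain ⟨i', hi'⟩ := hj
    have h1 : ∀ t, w t = Pi.single i' t := by
      intro t
      apply hwu
      rw [Psi_apply, Finset.sum_eq_single i']
      · rw [Pi.single_eq_same, hi']
      · intro l _ hl
        rw [Pi.single_eq_of_ne hl, map_zero]
      · intro h; exact absurd (Finset.mem_univ _) h
    by_cases hii : i = i'
    · right
      have h2 : (N * A) i j = 1 := by
        apply LinearMap.ext
        intro t
        have := congrFun (h1 t) i
        rw [hii, Pi.single_eq_same] at this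
        rw [hii]
        exact this
      rw [h2]; exact isUnit_one
    · left
      apply LinearMap.ext
      intro t
      have := congrFun (h1 t) i
      rw [Pi.single_eq_of_ne hii] at this
      exact this
  · push Not at hj
    let b' : Fin 10 ↪ Et := ⟨Function.update b i j, by
      intro p q hpq
      by_cases hp : p = i
      · by_cases hq : q = i
        · rw [hp, hq]
        · rw [hp, Function.update_self, Function.update_of_ne hq] at hpq
          exact absurd hpq.symm (hj q)
      · by_cases hq : q = i
        · rw [hq, Function.update_self, Function.update_of_ne hp] at hpq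
          exact absurd hpq (hj p)
        · rw [Function.update_of_ne hq, Function.update_of_ne hp] at hpq
          exact b.injective hpq⟩
    have hb'i : b' i = j := Function.update_self ..
    have hb'l : ∀ l, l ≠ i → b' l = b l := fun l hl => Function.update_of_ne hl ..
    have hmap : univ.map b' = insert j ((univ.map b).erase (b i)) := by
      ext e
      rw [mem_map, Finset.mem_insert, Finset.mem_erase, mem_map]
      constructor
      · rintro ⟨l, hl⟩
        by_cases hli : l = i
        · left; rw [← hl, hli, hb'i]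
        · right
          rw [hb'l l hli] at hl
          exact ⟨fun h => hli (b.injective (hl.trans h)), l, hl⟩
      · rintro (rfl | ⟨h1, l, hl⟩)
        · exact ⟨i, hb'i⟩
        · have hli : l ≠ i := fun h => h1 (by rw [← hl, h])
          exact ⟨l, by rw [hb'l l hli, hl]⟩
    by_cases hB' : isB (univ.map b')
    · right
      have hbij' := Psi_bij al P2 P3 b' hB'
      rw [Module.End.isUnit_iff]
      -- relation between Psi b and Psi b'
      have hrel : ∀ (t : KK) (r : Fin 10 → KK), Psi al b' (Function.update r i t) + al (b i) (r i)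
          = al j t + Psi al b r := by
        intro t r
        rw [Psi_apply, Psi_apply, ← Finset.add_sum_erase univ _ (Finset.mem_univ i),
          ← Finset.add_sum_erase univ (fun l => al (b l) (r l)) (Finset.mem_univ i),
          Function.update_self, hb'i]
        have : ∑ l ∈ univ.erase i, al (b' l) (Function.update r i t l)
            = ∑ l ∈ univ.erase i, al (b l) (r l) := by
          apply Finset.sum_congr rfl
          intro l hl
          rw [hb'l l (Finset.ne_of_mem_erase hl), Function.update_of_ne (Finset.ne_of_mem_erase hl)]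
        rw [this]
        abel
      constructor
      · rw [injective_iff_map_eq_zero]
        intro t ht
        have ht' : w t i = 0 := ht
        have h1 := hrel (-t) (w t)
        rw [ht', map_zero, add_zero, hw t, map_neg, neg_add_cancel] at h1
        have h2 := hbij'.1 (h1.trans (map_zero _).symm)
        have h3 := congrFun h2 i
        rw [Function.update_self] at h3
        simpa using h3
      · intro s
        obtain ⟨r, hr⟩ := hbij'.2 (al (b i) s)
        -- al j (r i) = Psi b (update (-r) i s)
        refine ⟨r i, ?_⟩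
        have h1 := hrel (-(r i)) (Function.update (-r) i s)
        rw [Function.update_idem, Function.update_self] at h1
        have h2 : Function.update (-r) i (-(r i)) = -r := by
          funext l
          by_cases hl : l = i
          · rw [hl, Function.update_self]; rfl
          · rw [Function.update_of_ne hl]
        rw [h2, map_neg, hr, neg_add_cancel, map_neg] at h1
        have h3 : Psi al b (Function.update (-r) i s) = al j (r i) := by
          have := eq_neg_of_add_eq_zero_right h1.symm
          rw [this, neg_neg]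
        have h4 := congrFun (hwu _ _ h3) i
        rw [Function.update_self] at h4
        exact h4
    · left
      rw [isB_iff] at hB'
      have hcard : (univ.map b').card = 10 := by simp
      have hB2 : ∃ P ∈ pairs, h P < cnt (univ.map b') P := by
        by_contra hcon
        push Not at hcon
        exact hB' ⟨hcard, hcon⟩
      obtain ⟨P, hP, hlt⟩ := hB2
      have hle := ((isB_iff _).1 hbB).2 P hP
      have hex := cnt_exchange (X := univ.map b) (a := b i) (b := j)
        ((mem_map b _).2 ⟨i, rfl⟩) (by rw [mem_map]; push Not; exact hj) P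
      rw [← hmap] at hex
      have hjP : j.1 ∈ P := by
        by_contra hcon
        rw [if_neg hcon] at hex
        omega
      have hiP : (b i).1 ∉ P := by
        intro hcon
        rw [if_pos hcon, if_pos hjP] at hex
        omega
      rw [if_pos hjP, if_neg hiP] at hex
      have hcP : cnt (univ.map b) P = h P := by omega
      have hTB : IsTB P ((univ.map b).filter (fun e => e.1 ∈ P)) :=
        pair_isTB hP (fun e he => (Finset.mem_filter.1 he).2) hcP
      apply LinearMap.ext
      intro t
      obtain ⟨k, hk1, hk2⟩ := P3 P _ hTB (al j t)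
        (U_mono (Finset.singleton_subset_iff.2 hjP) (P1 j t))
      have hk1' : ∀ e, e ∉ univ.map b → k e = 0 := fun e he =>
        hk1 e (fun h => he (Finset.mem_filter.1 h).1)
      have h1 := hwu t (fun l => k (b l)) (by rw [Psi_of al b k hk1', hk2])
      have h2 := congrFun h1 i
      rw [hk1 (b i) (fun h => hiP (Finset.mem_filter.1 h).2)] at h2
      exact h2

end Pool.Agent.H315R3
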