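import Pool.Agent.H315R3.IngStep

set_option autoImplicit false

namespace Pool.Agent.H315R3

open Finset

lemma lin_congr {n : ℕ} {x x' : ℕ → Et → VV} {c c' : ℕ → Et → ZMod 2}
    (hx : ∀ m < n, x m = x' m) (hc : ∀ m < n, ∀ e, c m e = c' m e) :
    lin n x c = lin n x' c' := by
  unfold lin
  apply Finset.sum_congr rfl
  intro m hm
  rw [Finset.mem_range] at hm
  apply Finset.sum_congr rfl
  intro e _
  rw [hx m hm, hc m hm e]

lemma lin_succ (n : ℕ) (x : ℕ → Et → VV) (y : Et → VV) (c : ℕ → Et → ZMod 2) :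
    lin (n + 1) (Function.update x n y) c = lin n x c + ∑ e, c n e • y e := by
  have h0 : lin n x c = lin n (Function.update x n y) c := by
    apply lin_congr
    · intro m hm
      rw [Function.update_of_ne hm.ne]
    · intro m _ e; rfl
  rw [h0]
  unfold lin
  rw [Finset.sum_range_succ, Function.update_self]

lemma inv_congr {n : ℕ} {x x' : ℕ → Et → VV} (hx : ∀ m < n, x m = x' m) (h : Inv n x) :
    Inv n x' := by
  obtain ⟨h1, h2⟩ := h
  refine ⟨fun m hm e => ?_, fun S I hI c hc hz => ?_⟩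
  · rw [← hx m hm]; exact h1 m hm e
  · apply h2 S I hI c hc
    rw [lin_congr hx (fun _ _ _ => rfl)]
    exact hz

theorem step (n : ℕ) (x : ℕ → Et → VV) (hx : Inv n x) (T : Finset (Fin 4)) (B : Finset Et)
    (hTB : IsTB T B) (v : VV) (hv : v ∈ U T) :
    ∃ x' : ℕ → Et → VV, Inv (n + 1) x' ∧ (∀ m < n, x' m = x m) ∧
      ∃ c : ℕ → Et → ZMod 2, (∀ m e, e ∉ B → c m e = 0) ∧ lin (n + 1) x' c = v := by
  classical
  let P : Finset (Fin 4) → Prop := fun T' => T' ⊆ T ∧ cnt B T' = h T' ∧ ∃ w ∈ U T',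
    ∃ c : ℕ → Et → ZMod 2, (∀ m e, (e ∉ B ∨ e.1 ∈ T') → c m e = 0) ∧ v = w + lin n x c
  have hP : P T := by
    refine ⟨subset_rfl, hTB.tight, v, hv, fun _ _ => 0, fun _ _ _ => rfl, ?_⟩
    rw [lin_zero n x _ (fun _ _ _ => rfl), add_zero]
  obtain ⟨T1, hT1, hmin1⟩ := Finset.exists_min_image
    ((univ : Finset (Finset (Fin 4))).filter P) Finset.card
    ⟨T, Finset.mem_filter.2 ⟨Finset.mem_univ _, hP⟩⟩
  rw [Finset.mem_filter] at hT1
  obtain ⟨_, hT1T, hT1t, u, hu, c, hc, hvu⟩ := hT1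
  let B1 := B.filter (fun e => e.1 ∈ T1)
  have hcnt : ∀ Q ⊆ T1, cnt B1 Q = cnt B Q := by
    intro Q hQ
    unfold cnt
    congr 1
    ext e
    simp only [B1, Finset.mem_filter]
    constructor
    · rintro ⟨⟨h1, _⟩, h2⟩; exact ⟨h1, h2⟩
    · rintro ⟨h1, h2⟩; exact ⟨⟨h1, hQ h2⟩, h2⟩
  have hB1B : B1 ⊆ B := Finset.filter_subset _ _
  have hTB1 : IsTB T1 B1 := by
    refine ⟨fun e he => (Finset.mem_filter.1 he).2, fun i hi => ?_, ?_, fun Q => ?_⟩
    · rw [hcnt {i} (Finset.singleton_subset_iff.2 hi)]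
      exact hTB.full i (hT1T hi)
    · rw [hcnt T1 subset_rfl]; exact hT1t
    · exact (cnt_mono hB1B Q).trans (hTB.ind Q)
  obtain ⟨y, _, hysum, hyInv⟩ := core n x hx T1 B1 hTB1 u hu (by
    intro T' hT' hne ht w hw c' hc' hcon
    have hPT' : P T' := by
      refine ⟨hT'.trans hT1T, ?_, w, hw, fun m e => c' m e + c m e, ?_, ?_⟩
      · rw [← hcnt T' hT']; exact ht
      · intro m e he
        have h1 : c' m e = 0 := hc' m e (he.imp (fun h hh => h (hB1B hh)) id)
        have h2 : c m e = 0 := hc m e (he.imp id (fun h => hT' h))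
        show c' m e + c m e = 0
        rw [h1, h2, add_zero]
      · rw [lin_add, hvu, hcon, add_assoc]
    have h1 := hmin1 T' (Finset.mem_filter.2 ⟨Finset.mem_univ _, hPT'⟩)
    have h2 := Finset.card_lt_card (Finset.ssubset_iff_subset_ne.2 ⟨hT', hne⟩)
    omega)
  refine ⟨Function.update x n y, hyInv, fun m hm => Function.update_of_ne hm.ne _ _,
    fun m e => if m = n then (if e ∈ B1 then 1 else 0) else c m e, ?_, ?_⟩
  · intro m e he
    show (if m = n then (if e ∈ B1 then (1 : ZMod 2) else 0) else c m e) = 0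
    by_cases hmn : m = n
    · rw [if_pos hmn, if_neg (fun h => he (hB1B h))]
    · rw [if_neg hmn]; exact hc m e (Or.inl he)
  · rw [lin_succ]
    simp only [if_true]
    have h1 : ∑ e, (if e ∈ B1 then (1 : ZMod 2) else 0) • y e = u := by
      rw [← hysum]
      simp only [ite_smul, one_smul, zero_smul]
      rw [Finset.sum_ite_mem, Finset.univ_inter]
    have h2 : lin n x (fun m e => if m = n then (if e ∈ B1 then (1 : ZMod 2) else 0) else c m e)
        = lin n x c := by
      apply lin_congr (fun _ _ => rfl)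
      intro m hm e
      show (if m = n then (if e ∈ B1 then (1 : ZMod 2) else 0) else c m e) = c m e
      rw [if_neg hm.ne]
    rw [h1, h2, hvu, add_comm]

lemma isTB_empty : IsTB ∅ ∅ := by
  refine ⟨fun e he => absurd he (Finset.notMem_empty _), fun i hi => absurd hi (Finset.notMem_empty _),
    ?_, fun Q => ?_⟩
  · simp [cnt]; decide +kernel
  · simp [cnt]

lemma inv_zero (x : ℕ → Et → VV) : Inv 0 x :=
  ⟨fun _ hm => absurd hm (Nat.not_lt_zero _), fun _ _ _ _ _ _ _ hm => absurd hm (Nat.not_lt_zero _)⟩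

abbrev Tg := Finset (Fin 4) × Finset Et × VV

theorem stepAll (tg : ℕ → Tg) (n : ℕ) (x : ℕ → Et → VV) (hx : Inv n x) :
    ∃ x' : ℕ → Et → VV, Inv (n + 1) x' ∧ (∀ m < n, x' m = x m) ∧
      (IsTB (tg n).1 (tg n).2.1 → (tg n).2.2 ∈ U (tg n).1 →
      ∃ c : ℕ → Et → ZMod 2, (∀ m e, e ∉ (tg n).2.1 → c m e = 0) ∧ lin (n + 1) x' c = (tg n).2.2) := by
  by_cases h1 : IsTB (tg n).1 (tg n).2.1 ∧ (tg n).2.2 ∈ U (tg n).1
  · obtain ⟨x', a, b, c⟩ := step n x hx _ _ h1.1 _ h1.2
    exact ⟨x', a, b, fun _ _ => c⟩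
  · obtain ⟨x', a, b, _⟩ := step n x hx ∅ ∅ isTB_empty 0 (Submodule.zero_mem _)
    exact ⟨x', a, b, fun h2 h3 => absurd ⟨h2, h3⟩ h1⟩

/-- The infinite construction. -/
theorem exists_seq : ∃ X : ℕ → Et → VV, (∀ n, Inv n X) ∧ ∀ T B v, IsTB T B → v ∈ U T →
    ∃ n, ∃ c : ℕ → Et → ZMod 2, (∀ m e, e ∉ B → c m e = 0) ∧ lin n X c = v := by
  classical
  obtain ⟨tg, htg⟩ := exists_surjective_nat Tg
  choose! st hst using stepAll tg
  let G : (n : ℕ) → {x : ℕ → Et → VV // Inv n x} := fun n =>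
    Nat.rec ⟨fun _ _ => 0, inv_zero _⟩ (fun n s => ⟨st n s.1, (hst n s.1 s.2).1⟩) n
  have hG : ∀ n, (G (n + 1)).1 = st n (G n).1 := fun n => rfl
  let X : ℕ → Et → VV := fun m => (G (m + 1)).1 m
  have hX : ∀ n, ∀ m < n, (G n).1 m = X m := by
    intro n
    induction n with
    | zero => intro m hm; exact absurd hm (Nat.not_lt_zero _)
    | succ n ih =>
      intro m hm
      rcases Nat.lt_succ_iff_lt_or_eq.1 hm with h1 | h1
      · rw [hG, (hst n (G n).1 (G n).2).2.1 m h1]; exact ih m h1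
      · rw [h1]
  refine ⟨X, fun n => inv_congr (hX n) (G n).2, ?_⟩
  intro T B v hTB hv
  obtain ⟨n, hn⟩ := htg (T, B, v)
  have h1 := (hst n (G n).1 (G n).2).2.2
  rw [hn] at h1
  obtain ⟨c, hc, hlin⟩ := h1 hTB hv
  refine ⟨n + 1, c, hc, ?_⟩
  have h2 : lin (n + 1) X c = lin (n + 1) (st n (G n).1) c := by
    rw [← hG]
    exact lin_congr (fun m hm => (hX (n + 1) m hm).symm) (fun _ _ _ => rfl)
  rw [h2]
  exact hlin

abbrev KK := ℕ →₀ ZMod 2

/-- The limiting object: linear maps `al e : K → V`. -/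
theorem exists_maps : ∃ al : Et → (KK →ₗ[ZMod 2] VV), (∀ e k, al e k ∈ U {e.1}) ∧
    (∀ S I, Ind S I → ∀ k : Et → KK, (∀ e, e ∉ I → k e = 0) → ∑ e, al e (k e) ∈ U S →
      ∀ e, k e = 0) ∧
    ∀ T B, IsTB T B → ∀ v ∈ U T, ∃ k : Et → KK, (∀ e, e ∉ B → k e = 0) ∧
      ∑ e, al e (k e) = v := by
  classical
  obtain ⟨X, hX1, hX2⟩ := exists_seq
  let al : Et → (KK →ₗ[ZMod 2] VV) := fun e => Finsupp.linearCombination (ZMod 2) (fun m => X m e)
  have hal : ∀ e k, al e k = k.sum fun m a => a • X m e := fun e k =>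
    Finsupp.linearCombination_apply _ _
  have hal2 : ∀ e (k : KK) n, (∀ m, n ≤ m → k m = 0) → al e k = ∑ m ∈ range n, k m • X m e := by
    intro e k n hk
    rw [hal]
    apply Finsupp.sum_of_support_subset
    · intro m hm
      rw [Finset.mem_range]
      by_contra hcon
      exact (Finsupp.mem_support_iff.1 hm) (hk m (by omega))
    · intro m _; rw [zero_smul]
  refine ⟨al, ?_, ?_, ?_⟩
  · intro e k
    rw [hal]
    apply Submodule.sum_mem
    intro m _
    exact Submodule.smul_mem _ _ ((hX1 (m + 1)).1 m (Nat.lt_succ_self m) e)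
  · intro S I hI k hk hz
    let s : Finset ℕ := (univ : Finset Et).biUnion (fun e => (k e).support)
    have hs : ∀ e m, s.sup id + 1 ≤ m → k e m = 0 := by
      intro e m hm
      by_contra hcon
      have h1 : m ∈ s := Finset.mem_biUnion.2 ⟨e, Finset.mem_univ _, Finsupp.mem_support_iff.2 hcon⟩
      have := Finset.le_sup (f := id) h1
      simp only [id] at this
      omega
    have hlin : lin (s.sup id + 1) X (fun m e => k e m) = ∑ e, al e (k e) := by
      unfold lin
      rw [Finset.sum_comm]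
      apply Finset.sum_congr rfl
      intro e _
      rw [hal2 e (k e) _ (fun m hm => hs e m hm)]
    rw [← hlin] at hz
    have h2 := (hX1 (s.sup id + 1)).2 S I hI (fun m e => k e m) (by
      intro m e he
      simp only [hk e he, Finsupp.coe_zero, Pi.zero_apply]) hz
    intro e
    ext1 m
    by_cases hm : m < s.sup id + 1
    · exact h2 m hm e
    · exact hs e m (by omega)
  · intro T B hTB v hv
    obtain ⟨n, c, hc, hlin⟩ := hX2 T B v hTB hv
    let k : Et → KK := fun e => ∑ m ∈ range n, Finsupp.single m (c m e)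
    have hkapp : ∀ e m, k e m = if m < n then c m e else 0 := by
      intro e m
      simp only [k]
      rw [Finsupp.finsetSum_apply]
      simp only [Finsupp.single_apply]
      rw [Finset.sum_ite_eq' (range n) m (fun m => c m e)]
      simp only [Finset.mem_range]
    refine ⟨k, ?_, ?_⟩
    · intro e he
      ext1 m
      rw [hkapp, hc m e he, ite_self]; rfl
    · rw [← hlin]
      unfold lin
      rw [Finset.sum_comm]
      apply Finset.sum_congr rfl
      intro e _
      rw [hal2 e (k e) n (fun m hm => by rw [hkapp, if_neg (by omega)])]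
      apply Finset.sum_congr rfl
      intro m hm
      rw [hkapp, if_pos (Finset.mem_range.1 hm)]

end Pool.Agent.H315R3
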