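import Pool.Agent.H315R3.IngData

set_option autoImplicit false

namespace Pool.Agent.H315R3

open Finset

abbrev Et := Fin 4 × Fin 5
abbrev VV := ℕ →₀ V1

/-- The subspace `U_S` of the countable-dimensional space `VV`. -/
def U (S : Finset (Fin 4)) : Submodule (ZMod 2) VV where
  carrier := {v | ∀ k, memU S (v k)}
  add_mem' := fun ha hb k => by rw [Finsupp.add_apply]; exact memU_add (ha k) (hb k)
  zero_mem' := fun k => memU_zero S
  smul_mem' := fun c v hv k => by rw [Finsupp.smul_apply]; exact memU_smul c (hv k)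

lemma mem_U {S : Finset (Fin 4)} {v : VV} : v ∈ U S ↔ ∀ k, memU S (v k) := Iff.rfl

lemma U_mono {S T : Finset (Fin 4)} (hST : S ⊆ T) : U S ≤ U T :=
  fun _ hv k => memU_mono hST (hv k)

/-- number of elements of `B` with type in `Q` -/
def cnt (B : Finset Et) (Q : Finset (Fin 4)) : ℕ := (B.filter (fun e => e.1 ∈ Q)).card

/-- independence over the types in `S` -/
def Ind (S : Finset (Fin 4)) (I : Finset Et) : Prop := ∀ Q, cnt I Q + h S ≤ h (S ∪ Q)

noncomputable def lin (n : ℕ) (x : ℕ → Et → VV) (c : ℕ → Et → ZMod 2) : VV :=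
  ∑ m ∈ range n, ∑ e, c m e • x m e

def Inv (n : ℕ) (x : ℕ → Et → VV) : Prop :=
  (∀ m < n, ∀ e, x m e ∈ U {e.1}) ∧
  ∀ (S : Finset (Fin 4)) (I : Finset Et), Ind S I → ∀ c : ℕ → Et → ZMod 2,
    (∀ m e, e ∉ I → c m e = 0) → lin n x c ∈ U S → ∀ m < n, ∀ e, c m e = 0

structure IsTB (T : Finset (Fin 4)) (B : Finset Et) : Prop where
  sub : ∀ e ∈ B, e.1 ∈ T
  full : ∀ i ∈ T, 1 ≤ cnt B {i}
  tight : cnt B T = h T
  ind : ∀ Q, cnt B Q ≤ h Q

lemma cnt_sum (B : Finset Et) (Q : Finset (Fin 4)) : cnt B Q = ∑ i ∈ Q, cnt B {i} := by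
  unfold cnt
  have hmap : Set.MapsTo (Prod.fst : Et → Fin 4) (B.filter (fun e => e.1 ∈ Q) : Finset Et) Q := by
    intro e he
    exact (Finset.mem_filter.1 (Finset.mem_coe.1 he)).2
  rw [Finset.card_eq_sum_card_fiberwise hmap]
  apply Finset.sum_congr rfl
  intro i hi
  congr 1
  ext e
  simp only [Finset.mem_filter, Finset.mem_singleton]
  constructor
  · rintro ⟨⟨h1, _⟩, h3⟩; exact ⟨h1, h3⟩
  · rintro ⟨h1, h3⟩; exact ⟨⟨h1, h3 ▸ hi⟩, h3⟩

lemma cnt_single_le (B : Finset Et) (i : Fin 4) : cnt B {i} ≤ 5 := by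
  unfold cnt
  have : (B.filter (fun e => e.1 ∈ ({i} : Finset (Fin 4)))).card ≤ (univ : Finset (Fin 5)).card := by
    apply Finset.card_le_card_of_injOn (fun e => e.2) (fun _ _ => Finset.mem_coe.2 (Finset.mem_univ _))
    intro e he f hf hef
    simp only [Finset.coe_filter, Finset.mem_singleton, Set.mem_ofPred_eq] at he hf
    exact Prod.ext (he.2.trans hf.2.symm) hef
  simpa using this

lemma cnt_mono {B B' : Finset Et} (hB : B ⊆ B') (Q : Finset (Fin 4)) : cnt B Q ≤ cnt B' Q :=
  Finset.card_le_card (Finset.filter_subset_filter _ hB)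

lemma lin_add (n : ℕ) (x : ℕ → Et → VV) (c d : ℕ → Et → ZMod 2) :
    lin n x (fun m e => c m e + d m e) = lin n x c + lin n x d := by
  simp only [lin, add_smul, Finset.sum_add_distrib]

lemma lin_zero (n : ℕ) (x : ℕ → Et → VV) (c : ℕ → Et → ZMod 2) (hc : ∀ m < n, ∀ e, c m e = 0) :
    lin n x c = 0 := by
  unfold lin
  apply Finset.sum_eq_zero
  intro m hm
  apply Finset.sum_eq_zero
  intro e _
  rw [hc m (Finset.mem_range.1 hm) e, zero_smul]

lemma lin_mem {n : ℕ} {x : ℕ → Et → VV} (hx : ∀ m < n, ∀ e, x m e ∈ U {e.1})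
    {c : ℕ → Et → ZMod 2} {S : Finset (Fin 4)} (hc : ∀ m e, e.1 ∉ S → c m e = 0) :
    lin n x c ∈ U S := by
  unfold lin
  apply Submodule.sum_mem
  intro m hm
  apply Submodule.sum_mem
  intro e _
  by_cases he : e.1 ∈ S
  · exact Submodule.smul_mem _ _ (U_mono (Finset.singleton_subset_iff.2 he)
      (hx m (Finset.mem_range.1 hm) e))
  · rw [hc m e he, zero_smul]; exact Submodule.zero_mem _

lemma zmod2 : ∀ a : ZMod 2, a ≠ 0 → a = 1 := by decide

lemma add_self_VV (w : VV) : w + w = 0 := by
  have : w + w = ((1 : ZMod 2) + 1) • w := by rw [add_smul, one_smul]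
  rw [this, show (1 : ZMod 2) + 1 = 0 from rfl, zero_smul]

lemma add_self_V1 (w : V1) : w + w = 0 := by
  have : w + w = ((1 : ZMod 2) + 1) • w := by rw [add_smul, one_smul]
  rw [this, show (1 : ZMod 2) + 1 = 0 from rfl, zero_smul]

lemma exists_bound (n : ℕ) (x : ℕ → Et → VV) (uu : Fin 4 → VV) :
    ∃ N0 : ℕ, ∀ k, N0 ≤ k → (∀ m < n, ∀ e, x m e k = 0) ∧ ∀ i, uu i k = 0 := by
  classical
  let s : Finset ℕ := ((range n ×ˢ (univ : Finset Et)).biUnion (fun p => (x p.1 p.2).support)) ∪
    (univ : Finset (Fin 4)).biUnion (fun i => (uu i).support)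
  refine ⟨s.sup id + 1, ?_⟩
  intro k hk
  have hks : k ∉ s := by
    intro hcon
    have := Finset.le_sup (f := id) hcon
    simp only [id] at this
    omega
  simp only [s, Finset.mem_union, Finset.mem_biUnion, Finset.mem_product, Finset.mem_range,
    Finset.mem_univ, Finsupp.mem_support_iff, not_or, not_exists, not_and, not_not, and_true,
    true_and, Prod.forall] at hks
  refine ⟨fun m hm e => ?_, fun i => hks.2 i⟩
  exact hks.1 m e.1 e.2 hm

lemma exists_fresh (N0 : ℕ) (B : Finset Et) : ∃ fr : Et → VV, (∀ e, fr e ∈ U {e.1}) ∧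
    ∑ e ∈ B, fr e = 0 ∧ ∀ κ : Et → V1, (∀ e, memU {e.1} (κ e)) → ∑ e ∈ B, κ e = 0 →
      ∃ k, N0 ≤ k ∧ ∀ e, fr e k = κ e := by
  classical
  obtain ⟨KK, hKK⟩ : ∃ KK : Finset (Et → V1), ∀ κ, κ ∈ KK ↔
      ((∀ e, memU {e.1} (κ e)) ∧ ∑ e ∈ B, κ e = 0) := by
    refine ⟨(Set.toFinite {κ : Et → V1 | (∀ e, memU {e.1} (κ e)) ∧ ∑ e ∈ B, κ e = 0}).toFinset,
      fun κ => ?_⟩
    rw [Set.Finite.mem_toFinset]
    exact Iff.rfl
  obtain ⟨io, hio, hio2⟩ : ∃ io : (Et → V1) → ℕ, Function.Injective io ∧ ∀ κ, N0 ≤ io κ := by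
    obtain ⟨f, hf⟩ := Countable.exists_injective_nat (Et → V1)
    exact ⟨fun κ => N0 + f κ, fun a b hab => hf (by simpa using hab), fun κ => Nat.le_add_right _ _⟩
  refine ⟨fun e => ∑ κ ∈ KK, Finsupp.single (io κ) (κ e), ?_, ?_, ?_⟩
  · intro e
    apply Submodule.sum_mem
    intro κ hκ k
    rw [hKK] at hκ
    rw [Finsupp.single_apply]
    split_ifs
    · exact hκ.1 e
    · exact memU_zero _
  · rw [Finset.sum_comm]
    apply Finset.sum_eq_zero
    intro κ hκ
    rw [hKK] at hκ
    rw [← Finsupp.single_finsetSum, hκ.2, Finsupp.single_zero]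
  · intro κ h1 h2
    have hκ : κ ∈ KK := (hKK κ).2 ⟨h1, h2⟩
    refine ⟨io κ, hio2 κ, fun e => ?_⟩
    rw [Finsupp.finsetSum_apply, Finset.sum_eq_single κ]
    · rw [Finsupp.single_eq_same]
    · intro κ' _ hne
      rw [Finsupp.single_apply, if_neg (fun heq => hne (hio heq))]
    · intro hcon; exact absurd hκ hcon

theorem core (n : ℕ) (x : ℕ → Et → VV) (hx : Inv n x) (T : Finset (Fin 4)) (B : Finset Et)
    (hTB : IsTB T B) (u : VV) (hu : u ∈ U T)
    (hmin : ∀ T' ⊆ T, T' ≠ T → cnt B T' = h T' → ∀ w ∈ U T', ∀ c : ℕ → Et → ZMod 2,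
      (∀ m e, (e ∉ B ∨ e.1 ∈ T') → c m e = 0) → u ≠ w + lin n x c) :
    ∃ y : Et → VV, (∀ e, y e ∈ U {e.1}) ∧ ∑ e ∈ B, y e = u ∧
      Inv (n + 1) (Function.update x n y) := by
  classical
  obtain ⟨hx1, hx2⟩ := hx
  -- representatives
  have hrep' : ∀ i, ∃ e : Et, i ∈ T → e ∈ B ∧ e.1 = i := by
    intro i
    by_cases hi : i ∈ T
    · have h1 := hTB.full i hi
      unfold cnt at h1
      obtain ⟨e, he⟩ := Finset.card_pos.1 (by omega : 0 < (B.filter (fun e => e.1 ∈ ({i} : Finset (Fin 4)))).card)
      rw [Finset.mem_filter, Finset.mem_singleton] at he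
      exact ⟨e, fun _ => he⟩
    · exact ⟨(0, 0), fun h => absurd h hi⟩
  choose rep hrep using hrep'
  -- decomposition of u
  let uu : Fin 4 → VV := fun i => Finsupp.mapRange (fun v => DD T v i) (DD_zero T i) u
  have huu_apply : ∀ i k, uu i k = DD T (u k) i := fun i k => Finsupp.mapRange_apply ..
  have huuU : ∀ i, uu i ∈ U {i} := by
    intro i k
    rw [huu_apply]
    exact (DD_spec T (u k) (hu k)).1 i
  have huu0 : ∀ i, i ∉ T → uu i = 0 := by
    intro i hi
    ext1 k
    rw [huu_apply, (DD_spec T (u k) (hu k)).2.1 i hi]; rfl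
  have huusum : ∑ i, uu i = u := by
    ext1 k
    rw [Finsupp.finsetSum_apply]
    simp only [huu_apply]
    exact (DD_spec T (u k) (hu k)).2.2
  obtain ⟨N0, hN0⟩ := exists_bound n x uu
  -- sums of the form `∑ i, if e = rep i then a i else 0`
  let x0 : Et → VV := fun e => ∑ i, if e = rep i then uu i else 0
  have hx0U : ∀ e, x0 e ∈ U {e.1} := by
    intro e
    apply Submodule.sum_mem
    intro i _
    split_ifs with hei
    · by_cases hi : i ∈ T
      · have : e.1 = i := by rw [hei]; exact (hrep i hi).2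
        rw [this]; exact huuU i
      · rw [huu0 i hi]; exact Submodule.zero_mem _
    · exact Submodule.zero_mem _
  have hx0sum : ∑ e ∈ B, x0 e = u := by
    simp only [x0]
    rw [Finset.sum_comm, ← huusum]
    apply Finset.sum_congr rfl
    intro i _
    rw [Finset.sum_ite_eq' B (rep i) (fun _ => uu i)]
    by_cases hi : i ∈ T
    · rw [if_pos (hrep i hi).1]
    · rw [huu0 i hi, ite_self]
  have hx0k : ∀ e k, N0 ≤ k → x0 e k = 0 := by
    intro e k hk
    simp only [x0]
    rw [Finsupp.finsetSum_apply]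
    apply Finset.sum_eq_zero
    intro i _
    split_ifs
    · exact (hN0 k hk).2 i
    · rfl
  -- fresh part
  obtain ⟨fr, hfrU, hfrsum, hfr⟩ := exists_fresh N0 B
  let y : Et → VV := fun e => x0 e + fr e
  have hyU : ∀ e, y e ∈ U {e.1} := fun e => Submodule.add_mem _ (hx0U e) (hfrU e)
  have hysum : ∑ e ∈ B, y e = u := by
    simp only [y]
    rw [Finset.sum_add_distrib, hx0sum, hfrsum, add_zero]
  refine ⟨y, hyU, hysum, ?_, ?_⟩
  · intro m hm e
    by_cases hmn : m = n
    · subst hmn; rw [Function.update_self]; exact hyU e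
    · rw [Function.update_of_ne hmn]; exact hx1 m (by omega) e
  intro S I hI c hc hz
  have hlin : lin (n + 1) (Function.update x n y) c = lin n x c + ∑ e, c n e • y e := by
    unfold lin
    rw [Finset.sum_range_succ, Function.update_self]
    have h0 : ∑ m ∈ range n, ∑ e, c m e • (Function.update x n y) m e =
        ∑ m ∈ range n, ∑ e, c m e • x m e := by
      apply Finset.sum_congr rfl
      intro m hm
      rw [Function.update_of_ne (Finset.mem_range.1 hm).ne]
    rw [h0]
  rw [hlin] at hz
  -- (A)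
  have hA : ∀ κ : Et → V1, (∀ e, memU {e.1} (κ e)) → ∑ e ∈ B, κ e = 0 →
      memU S (∑ e, c n e • κ e) := by
    intro κ hκ1 hκ2
    obtain ⟨k, hk, hfk⟩ := hfr κ hκ1 hκ2
    have h1 := hz k
    have h2 : (lin n x c + ∑ e, c n e • y e) k = ∑ e, c n e • κ e := by
      rw [Finsupp.add_apply]
      have h3 : lin n x c k = 0 := by
        unfold lin
        rw [Finsupp.finsetSum_apply]
        apply Finset.sum_eq_zero
        intro m hm
        rw [Finsupp.finsetSum_apply]
        apply Finset.sum_eq_zero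
        intro e _
        rw [Finsupp.smul_apply, (hN0 _ hk).1 m (Finset.mem_range.1 hm) e, smul_zero]
      rw [h3, zero_add, Finsupp.finsetSum_apply]
      apply Finset.sum_congr rfl
      intro e _
      rw [Finsupp.smul_apply]
      simp only [y]
      rw [Finsupp.add_apply, hx0k e _ hk, zero_add, hfk e]
    rw [h2] at h1
    exact h1
  have hnoloop : ∀ e ∈ I, ¬ (∀ w, memU {e.1} w → memU S w) := by
    intro e he hcon
    have h1 := F1 hcon
    have h2 := hI {e.1}
    have h3 : 1 ≤ cnt I {e.1} := by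
      unfold cnt
      apply Finset.card_pos.2
      exact ⟨e, by simp [he]⟩
    have h4 : S ∪ {e.1} = insert e.1 S := by
      rw [Finset.union_comm]; rfl
    rw [h4, h1] at h2
    omega
  have hcI : ∀ e, c n e ≠ 0 → e ∈ I := by
    intro e he
    by_contra hcon
    exact he (hc n e hcon)
  -- (a)
  have ha : ∀ e, c n e ≠ 0 → e ∈ B := by
    intro e he
    by_contra heB
    apply hnoloop e (hcI e he)
    intro w hw
    have h1 := hA (Pi.single e w) (by
        intro f
        by_cases hfe : f = e
        · subst hfe; rw [Pi.single_eq_same]; exact hw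
        · rw [Pi.single_eq_of_ne hfe]; exact memU_zero _) (by
        apply Finset.sum_eq_zero
        intro f hf
        have hfe : f ≠ e := fun hfe => heB (hfe ▸ hf)
        rw [Pi.single_eq_of_ne hfe])
    have h2 : ∑ f, c n f • (Pi.single e w : Et → V1) f = w := by
      rw [Finset.sum_eq_single e]
      · rw [Pi.single_eq_same, zmod2 _ he, one_smul]
      · intro f _ hfe
        rw [Pi.single_eq_of_ne hfe, smul_zero]
      · intro hcon; exact absurd (Finset.mem_univ _) hcon
    rw [h2] at h1
    exact h1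
  -- (b)
  have hb : ∀ e f, e ∈ B → f ∈ B → e.1 = f.1 → c n e ≠ 0 → c n f ≠ 0 := by
    intro e f heB hfB hef he hf
    have hne : e ≠ f := fun heq => he (heq ▸ hf)
    apply hnoloop e (hcI e he)
    intro w hw
    have h1 := hA (Pi.single e w + Pi.single f w) (by
        intro g
        rw [Pi.add_apply]
        apply memU_add
        · by_cases hge : g = e
          · subst hge; rw [Pi.single_eq_same]; exact hw
          · rw [Pi.single_eq_of_ne hge]; exact memU_zero _
        · by_cases hge : g = f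
          · subst hge; rw [Pi.single_eq_same, ← hef]; exact hw
          · rw [Pi.single_eq_of_ne hge]; exact memU_zero _) (by
        simp only [Pi.add_apply]
        rw [Finset.sum_add_distrib, Finset.sum_eq_single_of_mem e heB
          (fun g _ hge => Pi.single_eq_of_ne hge _), Finset.sum_eq_single_of_mem f hfB
          (fun g _ hge => Pi.single_eq_of_ne hge _), Pi.single_eq_same, Pi.single_eq_same,
          add_self_V1])
    have h2 : ∑ g, c n g • (Pi.single e w + Pi.single f w : Et → V1) g = w := by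
      simp only [Pi.add_apply, smul_add]
      rw [Finset.sum_add_distrib, Finset.sum_eq_single_of_mem e (Finset.mem_univ _)
          (fun g _ hge => by rw [Pi.single_eq_of_ne hge, smul_zero]),
          Finset.sum_eq_single_of_mem f (Finset.mem_univ _)
          (fun g _ hge => by rw [Pi.single_eq_of_ne hge, smul_zero]),
          Pi.single_eq_same, Pi.single_eq_same, zmod2 _ he, hf, one_smul, zero_smul, add_zero]
    rw [h2] at h1
    exact h1
  -- the set of types
  let N : Finset (Fin 4) := (B.filter (fun e => c n e ≠ 0)).image Prod.fst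
  have hNmem : ∀ e ∈ B, (e.1 ∈ N ↔ c n e ≠ 0) := by
    intro e he
    constructor
    · intro h1
      rw [Finset.mem_image] at h1
      obtain ⟨f, hf, hfe⟩ := h1
      rw [Finset.mem_filter] at hf
      exact hb f e hf.1 he hfe hf.2
    · intro h1
      exact Finset.mem_image_of_mem _ (Finset.mem_filter.2 ⟨he, h1⟩)
  have hNT : N ⊆ T := by
    intro i hi
    rw [Finset.mem_image] at hi
    obtain ⟨e, he, rfl⟩ := hi
    exact hTB.sub e (Finset.mem_filter.1 he).1
  rcases N.eq_empty_or_nonempty with hNe | hNne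
  · have hcn : ∀ e, c n e = 0 := by
      intro e
      by_contra hne
      have h1 := (hNmem e (ha e hne)).2 hne
      rw [hNe] at h1
      simp at h1
    have h1 : ∑ e, c n e • y e = 0 := by
      apply Finset.sum_eq_zero
      intro e _
      rw [hcn e, zero_smul]
    rw [h1, add_zero] at hz
    have h2 := hx2 S I hI c hc hz
    intro m hm e
    rcases Nat.lt_succ_iff_lt_or_eq.1 hm with h3 | h3
    · exact h2 m h3 e
    · rw [h3]; exact hcn e
  exfalso
  -- (c)
  have hcont : ∀ w, memU N w → memU (T \ N) w → memU S w := by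
    intro w hw1 hw2
    obtain ⟨p1, p2, p3⟩ := DD_spec N w hw1
    obtain ⟨q1, q2, q3⟩ := DD_spec (T \ N) w hw2
    let κ : Et → V1 := fun e => ∑ i, if e = rep i then DD N w i + DD (T \ N) w i else 0
    have hzero : ∀ i, i ∉ T → DD N w i + DD (T \ N) w i = 0 := by
      intro i hi
      rw [p2 i (fun h => hi (hNT h)), q2 i (fun h => hi (Finset.mem_sdiff.1 h).1), add_zero]
    have h1 := hA κ (by
        intro e
        apply memU_sum
        intro i _
        split_ifs with hei
        · by_cases hi : i ∈ T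
          · have : e.1 = i := by rw [hei]; exact (hrep i hi).2
            rw [this]; exact memU_add (p1 i) (q1 i)
          · rw [hzero i hi]; exact memU_zero _
        · exact memU_zero _) (by
        simp only [κ]
        rw [Finset.sum_comm]
        have : ∀ i, (∑ e ∈ B, if e = rep i then DD N w i + DD (T \ N) w i else 0)
            = DD N w i + DD (T \ N) w i := by
          intro i
          rw [Finset.sum_ite_eq' B (rep i) (fun _ => DD N w i + DD (T \ N) w i)]
          by_cases hi : i ∈ T
          · rw [if_pos (hrep i hi).1]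
          · rw [hzero i hi, ite_self]
        rw [Finset.sum_congr rfl (fun i _ => this i), Finset.sum_add_distrib, p3, q3, add_self_V1])
    have h2 : ∑ e, c n e • κ e = w := by
      simp only [κ, Finset.smul_sum]
      rw [Finset.sum_comm]
      have : ∀ i, (∑ e, c n e • (if e = rep i then DD N w i + DD (T \ N) w i else 0))
          = DD N w i := by
        intro i
        rw [Finset.sum_eq_single_of_mem (rep i) (Finset.mem_univ _)
          (fun e _ he => by rw [if_neg he, smul_zero]), if_pos rfl]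
        by_cases hi : i ∈ T
        · by_cases hiN : i ∈ N
          · have h3 : c n (rep i) ≠ 0 := (hNmem _ (hrep i hi).1).1 (by rw [(hrep i hi).2]; exact hiN)
            rw [zmod2 _ h3, one_smul, q2 i (fun h => (Finset.mem_sdiff.1 h).2 hiN), add_zero]
          · have h3 : c n (rep i) = 0 := by
              by_contra hne
              exact hiN ((hrep i hi).2 ▸ (hNmem _ (hrep i hi).1).2 hne)
            rw [h3, zero_smul, p2 i hiN]
        · rw [hzero i hi, smul_zero, p2 i (fun h => hi (hNT h))]
      rw [Finset.sum_congr rfl (fun i _ => this i), p3]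
    rw [h2] at h1
    exact h1
  -- apply the finite check
  have hBN : ∀ Q ⊆ N, cnt B Q ≤ cnt I Q := by
    intro Q hQ
    unfold cnt
    apply Finset.card_le_card
    intro e he
    rw [Finset.mem_filter] at he ⊢
    exact ⟨hcI e ((hNmem e he.1).1 (hQ he.2)), he.2⟩
  obtain ⟨c1, c2, c3⟩ := FC (fun i => cnt B {i}) (fun i => cnt_single_le B i) T N S
    hTB.full (by
      intro i hi
      rw [cnt, Finset.card_eq_zero, Finset.filter_eq_empty_iff]
      intro e he hei
      rw [Finset.mem_singleton] at hei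
      exact hi (hei ▸ hTB.sub e he))
    (by rw [← cnt_sum]; exact hTB.tight) (fun Q => by rw [← cnt_sum]; exact hTB.ind Q)
    hNT hNne (fun Q hQ => by
      rw [← cnt_sum]
      exact (Nat.add_le_add_right (hBN Q hQ) _).trans (hI Q)) hcont
  rw [← cnt_sum] at c1 c2
  -- split the coefficients
  let I2 : Finset Et := I.filter (fun e => ¬ (e ∈ B ∧ e.1 ∈ N))
  have hI2 : Ind (S ∪ N) I2 := by
    intro Q
    have h1 := hI (N ∪ Q)
    have h2 : cnt I2 Q + cnt B N ≤ cnt I (N ∪ Q) := by
      unfold cnt
      rw [← Finset.card_union_of_disjoint]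
      · apply Finset.card_le_card
        intro e he
        rw [Finset.mem_union, Finset.mem_filter, Finset.mem_filter, Finset.mem_filter] at he
        rw [Finset.mem_filter, Finset.mem_union]
        rcases he with ⟨⟨h3, _⟩, h4⟩ | ⟨h3, h4⟩
        · exact ⟨h3, Or.inr h4⟩
        · exact ⟨hcI e ((hNmem e h3).1 h4), Or.inl h4⟩
      · rw [Finset.disjoint_left]
        intro e he he'
        rw [Finset.mem_filter, Finset.mem_filter] at he
        rw [Finset.mem_filter] at he'
        exact he.1.2 he'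
    rw [← Finset.union_assoc] at h1
    omega
  let d2 : ℕ → Et → ZMod 2 := fun m e => if e ∈ B ∧ e.1 ∈ N then 0 else c m e
  let d1 : ℕ → Et → ZMod 2 := fun m e => if e ∈ B ∧ e.1 ∈ N then c m e else 0
  have hd : lin n x c = lin n x d1 + lin n x d2 := by
    rw [← lin_add]
    have h0 : c = fun m e => d1 m e + d2 m e := by
      funext m e
      simp only [d1, d2]
      split_ifs <;> simp
    exact congrArg (lin n x) h0
  have hd1U : lin n x d1 ∈ U N := lin_mem hx1 (fun m e he => by
    simp only [d1]; rw [if_neg (fun h => he h.2)])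
  let yN : VV := ∑ e ∈ B.filter (fun e => e.1 ∈ N), y e
  let yR : VV := ∑ e ∈ B.filter (fun e => ¬ e.1 ∈ N), y e
  have hyN : ∑ e, c n e • y e = yN := by
    simp only [yN]
    rw [← Finset.sum_subset (Finset.subset_univ (B.filter (fun e => e.1 ∈ N)))]
    · apply Finset.sum_congr rfl
      intro e he
      rw [Finset.mem_filter] at he
      rw [zmod2 _ ((hNmem e he.1).1 he.2), one_smul]
    · intro e _ he
      have : c n e = 0 := by
        by_contra hne
        exact he (Finset.mem_filter.2 ⟨ha e hne, (hNmem e (ha e hne)).2 hne⟩)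
      rw [this, zero_smul]
  have hyNU : yN ∈ U N := by
    apply Submodule.sum_mem
    intro e he
    rw [Finset.mem_filter] at he
    exact U_mono (Finset.singleton_subset_iff.2 he.2) (hyU e)
  have hyRU : yR ∈ U (T \ N) := by
    apply Submodule.sum_mem
    intro e he
    rw [Finset.mem_filter] at he
    exact U_mono (Finset.singleton_subset_iff.2
      (Finset.mem_sdiff.2 ⟨hTB.sub e he.1, he.2⟩)) (hyU e)
  have hyu : yN + yR = u := by
    rw [← hysum]
    exact Finset.sum_filter_add_sum_filter_not B _ _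
  rw [hyN, hd] at hz
  have hd2U : lin n x d2 ∈ U (S ∪ N) := by
    have h1 : lin n x d2 = (lin n x d1 + lin n x d2 + yN) - (lin n x d1 + yN) := by abel
    rw [h1]
    apply Submodule.sub_mem
    · exact U_mono Finset.subset_union_left hz
    · exact U_mono Finset.subset_union_right (Submodule.add_mem _ hd1U hyNU)
  have hd2 := hx2 (S ∪ N) I2 hI2 d2 (by
    intro m e he
    simp only [d2]
    split_ifs with h1
    · rfl
    · apply hc
      intro heI
      exact he (Finset.mem_filter.2 ⟨heI, h1⟩)) hd2U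
  rw [lin_zero n x d2 hd2, add_zero] at hz
  have hzT : lin n x d1 + yN ∈ U (T \ N) := by
    intro k
    exact c3 _ ((Submodule.add_mem _ hd1U hyNU) k) (hz k)
  apply hmin (T \ N) Finset.sdiff_subset ?_ c2 (lin n x d1 + yN + yR)
    (Submodule.add_mem _ hzT hyRU) d1 ?_ ?_
  · intro heq
    obtain ⟨i, hi⟩ := hNne
    have := hNT hi
    rw [← heq] at this
    exact (Finset.mem_sdiff.1 this).2 hi
  · intro m e he
    simp only [d1]
    rw [if_neg]
    rintro ⟨h1, h2⟩
    rcases he with he | he
    · exact he h1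
    · exact (Finset.mem_sdiff.1 he).2 h2
  · rw [← hyu]
    have h1 : lin n x d1 + yN + yR + lin n x d1 = (lin n x d1 + lin n x d1) + (yN + yR) := by abel
    rw [h1, add_self_VV, zero_add]

end Pool.Agent.H315R3
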