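import Pool.Agent.H315R3.LPMSuff

/-!
# Counting functions, and the interval description of independence in lattice path matroids
-/

namespace Pool.Agent.H315R3.LPM

open Set

universe u

variable {α : Type u}

/-- number of elements of `A` of index smaller than `k` -/
noncomputable def cnt (g : α → ℕ) (A : Set α) (k : ℕ) : ℕ := (A ∩ {x | g x < k}).ncard

section cnt

variable {g : α → ℕ} {A B : Set α} {k s t : ℕ}

lemma cnt_zero : cnt g A 0 = 0 := by
  have : A ∩ {x | g x < 0} = ∅ := by ext x; simp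
  rw [cnt, this, ncard_empty]

lemma cnt_of_lt (h : ∀ x ∈ A, g x < k) : cnt g A k = A.ncard := by
  have : A ∩ {x | g x < k} = A := inter_eq_left.2 h
  rw [cnt, this]

lemma cnt_of_le (h : ∀ x ∈ A, k ≤ g x) : cnt g A k = 0 := by
  have : A ∩ {x | g x < k} = ∅ := by
    ext x
    simp only [mem_inter_iff, mem_ofPred_eq, mem_empty_iff_false, iff_false, not_and, not_lt]
    exact h x
  rw [cnt, this, ncard_empty]

lemma cnt_mono (hA : A.Finite) (h : s ≤ t) : cnt g A s ≤ cnt g A t := by
  apply ncard_le_ncard _ (hA.inter_of_left _)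
  rintro x ⟨h1, h2⟩
  exact ⟨h1, lt_of_lt_of_le h2 h⟩

lemma cnt_le_ncard (hA : A.Finite) : cnt g A k ≤ A.ncard :=
  ncard_le_ncard inter_subset_left hA

lemma cnt_union (hA : A.Finite) (hB : B.Finite) (h : Disjoint A B) :
    cnt g (A ∪ B) k = cnt g A k + cnt g B k := by
  rw [cnt, union_inter_distrib_right]
  exact ncard_union_eq (h.mono inter_subset_left inter_subset_left)
    (hA.inter_of_left _) (hB.inter_of_left _)

lemma cnt_sdiff (hB : B.Finite) (h : A ⊆ B) : cnt g (B \ A) k + cnt g A k = cnt g B k := by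
  rw [← cnt_union (hB.subset sdiff_subset) (hB.subset h) disjoint_sdiff_left,
    sdiff_union_of_subset h]

lemma cnt_singleton (x : α) : cnt g {x} k = if g x < k then 1 else 0 := by
  split_ifs with h
  · rw [cnt_of_lt (by simpa using h), ncard_singleton]
  · exact cnt_of_le (by simpa using h)

lemma cnt_remove (hA : A.Finite) {x : α} (hx : x ∈ A) :
    cnt g (A \ {x}) k + (if g x < k then 1 else 0) = cnt g A k := by
  rw [← cnt_singleton (g := g) x]
  exact cnt_sdiff hA (singleton_subset_iff.2 hx)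

lemma cnt_insert (hA : A.Finite) {x : α} (hx : x ∉ A) :
    cnt g (insert x A) k = cnt g A k + (if g x < k then 1 else 0) := by
  rw [← cnt_singleton (g := g) x, insert_eq, union_comm]
  exact cnt_union hA (finite_singleton x) (disjoint_singleton_right.2 hx)

lemma cnt_diff_le (hB : B.Finite) (h : A ⊆ B) (hst : s ≤ t) :
    cnt g A t + cnt g B s ≤ cnt g B t + cnt g A s := by
  have h1 := cnt_sdiff (g := g) (k := s) hB h
  have h2 := cnt_sdiff (g := g) (k := t) hB h
  have h3 := cnt_mono (g := g) (hB.subset (sdiff_subset (s := B) (t := A))) hst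
  omega

lemma cnt_split (hA : A.Finite) (hst : s ≤ t) :
    cnt g A t = cnt g A s + (A ∩ {x | s ≤ g x ∧ g x < t}).ncard := by
  rw [cnt, cnt, ← ncard_union_eq _ (hA.inter_of_left _) (hA.inter_of_left _)]
  · congr 1
    ext x
    simp only [mem_inter_iff, mem_ofPred_eq, mem_union]
    constructor
    · rintro ⟨h1, h2⟩
      by_cases h : g x < s
      · exact Or.inl ⟨h1, h⟩
      · exact Or.inr ⟨h1, not_lt.1 h, h2⟩
    · rintro (⟨h1, h2⟩ | ⟨h1, h2, h3⟩)
      · exact ⟨h1, lt_of_lt_of_le h2 hst⟩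
      · exact ⟨h1, h3⟩
  · rw [Set.disjoint_left]
    rintro x ⟨_, h1⟩ ⟨_, h2, _⟩
    exact absurd h1 (not_lt.2 h2)

end cnt

/-- `M` is the lattice path matroid with lower and upper height functions `l` and `u`, the
elements being indexed by `g`. -/
structure LP (M : Matroid α) (n : ℕ) (l u : ℕ → ℕ) (g : α → ℕ) : Prop where
  inj : InjOn g M.E
  lt : ∀ x ∈ M.E, g x < n
  surj : ∀ i < n, ∃ x ∈ M.E, g x = i
  l0 : l 0 = 0
  u0 : u 0 = 0
  le : ∀ k, l k ≤ u k
  eq : l n = u n
  ls : ∀ k, l (k + 1) = l k ∨ l (k + 1) = l k + 1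
  us : ∀ k, u (k + 1) = u k ∨ u (k + 1) = u k + 1
  ind : ∀ A ⊆ M.E, (M.Indep A ↔ ∀ s t, s ≤ t → t ≤ n → l s + cnt g A t ≤ u t + cnt g A s)

namespace LP

variable {M : Matroid α} [M.Finite] {n : ℕ} {l u : ℕ → ℕ} {g : α → ℕ}

/-- The set of elements at which `h` increases. -/
def incr (M : Matroid α) (g : α → ℕ) (h : ℕ → ℕ) : Set α := {x | x ∈ M.E ∧ h (g x + 1) = h (g x) + 1}

omit [M.Finite] in
lemma incr_subset (h : ℕ → ℕ) : incr M g h ⊆ M.E := fun _ hx => hx.1

lemma cnt_incr' (hinj : InjOn g M.E) (hsurj : ∀ i < n, ∃ x ∈ M.E, g x = i) {h : ℕ → ℕ}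
    (h0 : h 0 = 0) (hs : ∀ k < n, h (k + 1) = h k ∨ h (k + 1) = h k + 1) {k : ℕ} (hk : k ≤ n) :
    cnt g (incr M g h) k = h k := by
  have hfin : (incr M g h).Finite := M.set_finite _ (incr_subset h)
  induction k with
  | zero => rw [cnt_zero, h0]
  | succ k ih =>
    rw [cnt_split hfin (Nat.le_succ k), ih (by omega)]
    obtain ⟨x, hx, hxk⟩ := hsurj k (by omega)
    have huniq : ∀ y ∈ M.E, g y = k → y = x := fun y hy hyk => hinj hy hx (hyk.trans hxk.symm)
    rcases hs k (by omega) with h1 | h1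
    · have : incr M g h ∩ {x | k ≤ g x ∧ g x < k + 1} = ∅ := by
        ext y
        simp only [mem_inter_iff, mem_ofPred_eq, mem_empty_iff_false, iff_false, not_and]
        rintro ⟨hy1, hy2⟩ hy3 hy4
        have : g y = k := by omega
        rw [this] at hy2
        omega
      rw [this, ncard_empty, h1, Nat.add_zero]
    · have : incr M g h ∩ {x | k ≤ g x ∧ g x < k + 1} = {x} := by
        ext y
        simp only [mem_inter_iff, mem_ofPred_eq, mem_singleton_iff]
        constructor
        · rintro ⟨hy1, hy3, hy4⟩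
          exact huniq y hy1.1 (by omega)
        · rintro rfl
          exact ⟨⟨hx, by rw [hxk]; exact h1⟩, by omega, by omega⟩
      rw [this, ncard_singleton, h1]

end LP

/-- `f ''` of a path. -/
lemma exists_LP {M : Matroid α} [M.Finite] (h : IsLatticePathMatroid M) :
    ∃ n l u g, LP M n l u g := by
  classical
  obtain ⟨m, r, P, Q, hP, hQ, hPQ, f, hf, hfE, hbase⟩ := h
  set g : α → ℕ := Function.extend f (fun i => (i : ℕ)) (fun _ => 0) with hg
  have hgf : ∀ i, g (f i) = i := fun i => hf.extend_apply _ _ i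
  have hinj : InjOn g M.E := by
    rw [← hfE]
    rintro _ ⟨i, rfl⟩ _ ⟨j, rfl⟩ hij
    rw [hgf, hgf] at hij
    rw [Fin.ext hij]
  have hlt : ∀ x ∈ M.E, g x < m + r := by
    rw [← hfE]
    rintro _ ⟨i, rfl⟩
    rw [hgf]
    exact i.2
  have hsurj : ∀ i < m + r, ∃ x ∈ M.E, g x = i := by
    intro i hi
    refine ⟨f ⟨i, hi⟩, ?_, hgf _⟩
    rw [← hfE]
    exact ⟨_, rfl⟩
  have hstep : ∀ R : Finset ℕ, ∀ k, height R (k + 1) = height R k ∨
      height R (k + 1) = height R k + 1 := by
    intro R k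
    rw [height_succ]
    split_ifs <;> omega
  have hn : ∀ R, IsPath m r R → ∀ k, m + r ≤ k → height R k = r := by
    intro R hR k hk
    rw [height_of_le hR.1 hk, hR.2]
  -- the image of a path
  have himg : ∀ R, IsPath m r R → f '' {i | (i : ℕ) ∈ R} = LP.incr M g (height R) := by
    intro R hR
    ext x
    constructor
    · rintro ⟨i, hi, rfl⟩
      refine ⟨by rw [← hfE]; exact ⟨i, rfl⟩, ?_⟩
      have hi' : (i : ℕ) ∈ R := hi
      rw [hgf, height_succ, if_pos hi']
    · rintro ⟨hx, hx2⟩
      rw [← hfE] at hx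
      obtain ⟨i, rfl⟩ := hx
      rw [hgf, height_succ] at hx2
      refine ⟨i, ?_, rfl⟩
      by_contra hcon
      have hcon' : (i : ℕ) ∉ R := hcon
      rw [if_neg hcon'] at hx2
      omega
  have hcnt : ∀ R, IsPath m r R → ∀ k ≤ m + r,
      cnt g (f '' {i | (i : ℕ) ∈ R}) k = height R k := by
    intro R hR k hk
    rw [himg R hR]
    exact LP.cnt_incr' hinj hsurj (height_zero R) (fun k _ => hstep R k) hk
  refine ⟨m + r, height P, height Q, g, hinj, hlt, hsurj, height_zero P, height_zero Q, hPQ,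
    by rw [hn P hP _ le_rfl, hn Q hQ _ le_rfl], hstep P, hstep Q, ?_⟩
  intro A hA
  have hAfin : A.Finite := M.set_finite A hA
  constructor
  · intro hI s t hst htn
    obtain ⟨B, hB, hAB⟩ := hI.exists_isBase_superset
    obtain ⟨R, hR, hPR, hRQ, rfl⟩ := (hbase B).1 hB
    have h1 := cnt_diff_le (g := g) hB.finite hAB hst
    rw [hcnt R hR s (by omega), hcnt R hR t htn] at h1
    have h2 := hPR s
    have h3 := hRQ t
    omega
  · intro hcrit
    -- the greedy lower envelope
    set h : ℕ → ℕ := fun k => Nat.rec 0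
      (fun k hk => max (hk + (cnt g A (k + 1) - cnt g A k)) (height P (k + 1))) k with hh
    have h0 : h 0 = 0 := rfl
    have hrec : ∀ k, h (k + 1) = max (h k + (cnt g A (k + 1) - cnt g A k)) (height P (k + 1)) :=
      fun k => rfl
    have hcs : ∀ k, cnt g A k ≤ cnt g A (k + 1) ∧ cnt g A (k + 1) ≤ cnt g A k + 1 := by
      intro k
      refine ⟨cnt_mono hAfin (Nat.le_succ k), ?_⟩
      rw [cnt_split hAfin (Nat.le_add_right k 1)]
      have : (A ∩ {x | k ≤ g x ∧ g x < k + 1}).ncard ≤ 1 := by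
        rw [ncard_le_one (hAfin.inter_of_left _)]
        rintro x ⟨hx1, hx2, hx3⟩ y ⟨hy1, hy2, hy3⟩
        exact hinj (hA hx1) (hA hy1) (by omega)
      omega
    have hl : ∀ k, height P k ≤ h k := by
      intro k
      cases k with
      | zero => rw [height_zero, h0]
      | succ k => rw [hrec]; exact le_max_right _ _
    have hs : ∀ k, h (k + 1) = h k ∨ h (k + 1) = h k + 1 := by
      intro k
      have h1 := hrec k
      have h2 := hl k
      have h3 := hcs k
      rcases hstep P k with h4 | h4 <;> omega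
    have hex : ∀ k, ∃ s ≤ k, h k + cnt g A s = height P s + cnt g A k := by
      intro k
      induction k with
      | zero => exact ⟨0, le_rfl, by rw [h0, height_zero]⟩
      | succ k ih =>
        have h1 := hrec k
        have h3 := hcs k
        rcases max_choice (h k + (cnt g A (k + 1) - cnt g A k)) (height P (k + 1)) with h4 | h4
        · obtain ⟨s, hs1, hs2⟩ := ih
          refine ⟨s, by omega, ?_⟩
          omega
        · exact ⟨k + 1, le_rfl, by omega⟩
    have hu : ∀ k ≤ m + r, h k ≤ height Q k := by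
      intro k hk
      obtain ⟨s, hs1, hs2⟩ := hex k
      have := hcrit s k hs1 hk
      omega
    have hhn : h (m + r) = r := by
      have h1 := hl (m + r)
      have h2 := hu (m + r) le_rfl
      rw [hn P hP _ le_rfl] at h1
      rw [hn Q hQ _ le_rfl] at h2
      omega
    set R := pathOf (m + r) h with hR
    have hRp : IsPath m r R :=
      ⟨pathOf_subset _ _, by rw [card_pathOf h0 (fun k _ => hs k), hhn]⟩
    have hht : ∀ k ≤ m + r, height R k = h k := fun k hk =>
      height_pathOf h0 (fun k _ => hs k) hk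
    have hB : M.IsBase (f '' {i | (i : ℕ) ∈ R}) := by
      rw [hbase]
      refine ⟨R, hRp, fun k => ?_, fun k => ?_, rfl⟩
      · rcases le_total k (m + r) with hk | hk
        · rw [hht k hk]; exact hl k
        · rw [hn R hRp k hk, hn P hP k hk]
      · rcases le_total k (m + r) with hk | hk
        · rw [hht k hk]; exact hu k hk
        · rw [hn R hRp k hk, hn Q hQ k hk]
    refine hB.indep.subset fun x hx => ?_
    have hxE := hA hx
    rw [← hfE] at hxE
    obtain ⟨i, rfl⟩ := hxE
    refine ⟨i, ?_, rfl⟩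
    change (i : ℕ) ∈ R
    simp only [hR, pathOf, Finset.mem_filter, Finset.mem_range]
    refine ⟨i.2, ?_⟩
    have h1 := hrec i
    have h2 : cnt g A (i + 1) = cnt g A i + 1 := by
      have h3 := hcs i
      rw [cnt_split hAfin (Nat.le_succ _)] at h3 ⊢
      have : 0 < (A ∩ {x | (i : ℕ) ≤ g x ∧ g x < i + 1}).ncard := by
        rw [ncard_pos (hAfin.inter_of_left _)]
        exact ⟨f i, hx, by rw [hgf], by rw [hgf]; omega⟩
      have h4 : (A ∩ {x | (i : ℕ) ≤ g x ∧ g x < (i : ℕ).succ}).ncard =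
        (A ∩ {x | (i : ℕ) ≤ g x ∧ g x < i + 1}).ncard := rfl
      omega
    rcases hs i with h3 | h3
    · omega
    · exact h3

end Pool.Agent.H315R3.LPM
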