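import Mathlib

/-!
# Monadic second-order logic `MS₀` for matroids, and lattice path matroids: definitions
-/

namespace Pool.Agent.H315R3.LPM

/-- Formulas of `MS₀` whose free variables are among `X₀, …, X_{n-1}` (all variables range over
subsets of the ground set).  Under a quantifier the bound variable is `X₀` and the old variable
`X_i` becomes `X_{i+1}`.  A sentence is an element of `Formula 0`. -/
inductive Formula : ℕ → Type
  | ind {n : ℕ} (i : Fin n) : Formula n
  | sub {n : ℕ} (i j : Fin n) : Formula n
  | neg {n : ℕ} (φ : Formula n) : Formula n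
  | and {n : ℕ} (φ ψ : Formula n) : Formula n
  | or {n : ℕ} (φ ψ : Formula n) : Formula n
  | imp {n : ℕ} (φ ψ : Formula n) : Formula n
  | ex {n : ℕ} (φ : Formula (n + 1)) : Formula n
  | all {n : ℕ} (φ : Formula (n + 1)) : Formula n

/-- Satisfaction of an `MS₀` formula in a matroid `M` under an assignment `v` of sets to the free
variables. -/
def Sat {α : Type*} (M : Matroid α) : {n : ℕ} → Formula n → (Fin n → Set α) → Prop
  | _, .ind i, v => M.Indep (v i)
  | _, .sub i j, v => v i ⊆ v j
  | _, .neg φ, v => ¬ Sat M φ v
  | _, .and φ ψ, v => Sat M φ v ∧ Sat M ψ v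
  | _, .or φ ψ, v => Sat M φ v ∨ Sat M ψ v
  | _, .imp φ ψ, v => Sat M φ v → Sat M ψ v
  | _, .ex φ, v => ∃ X : Set α, X ⊆ M.E ∧ Sat M φ (Fin.cons X v)
  | _, .all φ, v => ∀ X : Set α, X ⊆ M.E → Sat M φ (Fin.cons X v)

/-- `M ⊨ φ` for a sentence `φ` of `MS₀`. -/
def Models {α : Type*} (M : Matroid α) (φ : Formula 0) : Prop := Sat M φ Fin.elim0

/-- The number of North steps among the first `k` steps, of the path whose set of North steps
is `R` (steps are numbered `0, 1, …`). -/
def height (R : Finset ℕ) (k : ℕ) : ℕ := (R.filter (fun i => i < k)).card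

/-- A lattice path from `(0,0)` to `(m,r)` is given by the set `R` of its North steps, a set of
`r` of the `m + r` steps `0, …, m + r - 1`; after `k` steps it is at the point
`(k - height R k, height R k)`. -/
def IsPath (m r : ℕ) (R : Finset ℕ) : Prop := R ⊆ Finset.range (m + r) ∧ R.card = r

/-- The path `P` never goes above the path `Q`: after each number `k` of steps, `P` is at most as
high as `Q`. -/
def Below (P Q : Finset ℕ) : Prop := ∀ k, height P k ≤ height Q k

/-- `M` is a lattice path matroid: up to a bijection `f` between the steps `0, …, m + r - 1` and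
the ground set of `M`, the bases of `M` are exactly the sets of North steps of the lattice paths
from `(0,0)` to `(m,r)` that lie between two such paths `P` and `Q`, where `P` never goes above
`Q`. -/
def IsLatticePathMatroid {α : Type*} (M : Matroid α) : Prop :=
  ∃ (m r : ℕ) (P Q : Finset ℕ), IsPath m r P ∧ IsPath m r Q ∧ Below P Q ∧
    ∃ f : Fin (m + r) → α, Function.Injective f ∧ Set.range f = M.E ∧
      ∀ B : Set α, M.IsBase B ↔ ∃ R : Finset ℕ, IsPath m r R ∧ Below P R ∧ Below R Q ∧
        f '' {i | (i : ℕ) ∈ R} = B

end Pool.Agent.H315R3.LPM
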