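import Pool.Agent.H315R3.LPMDefs

/-!
# Definability toolkit
-/

namespace Pool.Agent.H315R3.LPM

open Set

universe u

/-- `P` is definable by an `MS₀` formula on finite matroids. -/
def Dfb (n : ℕ) (P : ∀ (α : Type u) (_ : Matroid α), (Fin n → Set α) → Prop) : Prop :=
  ∃ φ : Formula n, ∀ (α : Type u) (M : Matroid α) (v : Fin n → Set α),
    (∀ i, v i ⊆ M.E) → (Sat M φ v ↔ P α M v)

namespace Dfb

variable {n : ℕ}

lemma congr {P Q : ∀ (α : Type u) (_ : Matroid α), (Fin n → Set α) → Prop}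
    (hP : Dfb n P) (h : ∀ (α : Type u) (M : Matroid α) (v : Fin n → Set α),
      (∀ i, v i ⊆ M.E) → (P α M v ↔ Q α M v)) : Dfb n Q := by
  obtain ⟨φ, hφ⟩ := hP
  exact ⟨φ, fun α M v hv => (hφ α M v hv).trans (h α M v hv)⟩

lemma ind (i : Fin n) : Dfb.{u} n (fun _ M v => M.Indep (v i)) :=
  ⟨.ind i, fun _ _ _ _ => Iff.rfl⟩

lemma sub (i j : Fin n) : Dfb.{u} n (fun _ _ v => v i ⊆ v j) :=
  ⟨.sub i j, fun _ _ _ _ => Iff.rfl⟩

lemma not {P : ∀ (α : Type u) (_ : Matroid α), (Fin n → Set α) → Prop}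
    (hP : Dfb n P) : Dfb n (fun α M v => ¬ P α M v) := by
  obtain ⟨φ, hφ⟩ := hP
  exact ⟨.neg φ, fun α M v hv => not_congr (hφ α M v hv)⟩

lemma and {P Q : ∀ (α : Type u) (_ : Matroid α), (Fin n → Set α) → Prop}
    (hP : Dfb n P) (hQ : Dfb n Q) : Dfb n (fun α M v => P α M v ∧ Q α M v) := by
  obtain ⟨φ, hφ⟩ := hP
  obtain ⟨ψ, hψ⟩ := hQ
  exact ⟨.and φ ψ, fun α M v hv => and_congr (hφ α M v hv) (hψ α M v hv)⟩

lemma or {P Q : ∀ (α : Type u) (_ : Matroid α), (Fin n → Set α) → Prop}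
    (hP : Dfb n P) (hQ : Dfb n Q) : Dfb n (fun α M v => P α M v ∨ Q α M v) := by
  obtain ⟨φ, hφ⟩ := hP
  obtain ⟨ψ, hψ⟩ := hQ
  exact ⟨.or φ ψ, fun α M v hv => or_congr (hφ α M v hv) (hψ α M v hv)⟩

lemma imp {P Q : ∀ (α : Type u) (_ : Matroid α), (Fin n → Set α) → Prop}
    (hP : Dfb n P) (hQ : Dfb n Q) : Dfb n (fun α M v => P α M v → Q α M v) := by
  obtain ⟨φ, hφ⟩ := hP
  obtain ⟨ψ, hψ⟩ := hQ
  exact ⟨.imp φ ψ, fun α M v hv => imp_congr (hφ α M v hv) (hψ α M v hv)⟩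

lemma iff {P Q : ∀ (α : Type u) (_ : Matroid α), (Fin n → Set α) → Prop}
    (hP : Dfb n P) (hQ : Dfb n Q) : Dfb n (fun α M v => (P α M v ↔ Q α M v)) :=
  ((hP.imp hQ).and (hQ.imp hP)).congr fun _ _ _ _ =>
    ⟨fun h => ⟨h.1, h.2⟩, fun h => ⟨h.1, h.2⟩⟩

lemma ex {P : ∀ (α : Type u) (_ : Matroid α), Set α → (Fin n → Set α) → Prop}
    (hP : Dfb (n + 1) (fun α M v => P α M (v 0) (fun i => v i.succ))) :
    Dfb n (fun α M v => ∃ X : Set α, X ⊆ M.E ∧ P α M X v) := by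
  obtain ⟨φ, hφ⟩ := hP
  refine ⟨.ex φ, fun α M v hv => exists_congr fun X => and_congr_right fun hX => ?_⟩
  have := hφ α M (Fin.cons X v) (fun i => by
    refine Fin.cases ?_ (fun j => ?_) i
    · simpa using hX
    · simpa using hv j)
  simpa using this

lemma all {P : ∀ (α : Type u) (_ : Matroid α), Set α → (Fin n → Set α) → Prop}
    (hP : Dfb (n + 1) (fun α M v => P α M (v 0) (fun i => v i.succ))) :
    Dfb n (fun α M v => ∀ X : Set α, X ⊆ M.E → P α M X v) := by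
  obtain ⟨φ, hφ⟩ := hP
  refine ⟨.all φ, fun α M v hv => forall_congr' fun X => imp_congr_right fun hX => ?_⟩
  have := hφ α M (Fin.cons X v) (fun i => by
    refine Fin.cases ?_ (fun j => ?_) i
    · simpa using hX
    · simpa using hv j)
  simpa using this

lemma empt (i : Fin n) : Dfb.{u} n (fun _ _ v => v i = ∅) := by
  have h : Dfb.{u} n (fun _ M v => ∀ X : Set _, X ⊆ M.E → v i ⊆ X) :=
    Dfb.all (Dfb.sub i.succ 0)
  refine h.congr fun α M v hv => ⟨fun h => ?_, fun h X _ => ?_⟩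
  · exact subset_empty_iff.1 (h ∅ (empty_subset _))
  · rw [h]; exact empty_subset _

lemma pt (i : Fin n) : Dfb.{u} n (fun _ _ v => ∃ e, v i = {e}) := by
  have h : Dfb.{u} n (fun _ M v => ¬ v i = ∅ ∧
      ∀ X : Set _, X ⊆ M.E → X ⊆ v i → (X = ∅ ∨ v i ⊆ X)) := by
    refine (Dfb.not (Dfb.empt i)).and (Dfb.all ?_)
    exact (Dfb.sub 0 i.succ).imp ((Dfb.empt 0).or (Dfb.sub i.succ 0))
  refine h.congr fun α M v hv => ⟨fun h => ?_, fun h => ?_⟩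
  · obtain ⟨e, he⟩ := nonempty_iff_ne_empty.2 h.1
    refine ⟨e, ?_⟩
    rcases h.2 {e} (singleton_subset_iff.2 (hv i he)) (singleton_subset_iff.2 he) with h' | h'
    · exact absurd h' (singleton_ne_empty e)
    · exact Subset.antisymm h' (singleton_subset_iff.2 he)
  · obtain ⟨e, he⟩ := h
    refine ⟨by rw [he]; exact singleton_ne_empty e, fun X _ hX => ?_⟩
    rw [he] at hX ⊢
    rcases subset_singleton_iff_eq.1 hX with h' | h'
    · exact Or.inl h'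
    · exact Or.inr h'.symm.subset

lemma exPt {P : ∀ (α : Type u) (_ : Matroid α), Set α → (Fin n → Set α) → Prop}
    (hP : Dfb (n + 1) (fun α M v => P α M (v 0) (fun i => v i.succ))) :
    Dfb n (fun α M v => ∃ e, e ∈ M.E ∧ P α M {e} v) := by
  have h := Dfb.ex (P := fun α M X v => (∃ e, X = {e}) ∧ P α M X v) ((Dfb.pt 0).and hP)
  refine h.congr fun α M v _ => ⟨?_, ?_⟩
  · rintro ⟨X, hX, ⟨e, rfl⟩, h⟩
    exact ⟨e, singleton_subset_iff.1 hX, h⟩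
  · rintro ⟨e, he, h⟩
    exact ⟨{e}, singleton_subset_iff.2 he, ⟨e, rfl⟩, h⟩

lemma allPt {P : ∀ (α : Type u) (_ : Matroid α), Set α → (Fin n → Set α) → Prop}
    (hP : Dfb (n + 1) (fun α M v => P α M (v 0) (fun i => v i.succ))) :
    Dfb n (fun α M v => ∀ e, e ∈ M.E → P α M {e} v) := by
  have h := Dfb.all (P := fun α M X v => (∃ e, X = {e}) → P α M X v) ((Dfb.pt 0).imp hP)
  refine h.congr fun α M v _ => ⟨?_, ?_⟩
  · intro h e he
    exact h {e} (singleton_subset_iff.2 he) ⟨e, rfl⟩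
  · rintro h X hX ⟨e, rfl⟩
    exact h e (singleton_subset_iff.1 hX)

lemma eq (i j : Fin n) : Dfb.{u} n (fun _ _ v => v i = v j) :=
  ((Dfb.sub i j).and (Dfb.sub j i)).congr fun _ _ _ _ =>
    ⟨fun h => Subset.antisymm h.1 h.2, fun h => ⟨h.subset, h.symm.subset⟩⟩

lemma circ (i : Fin n) : Dfb.{u} n (fun _ M v => M.IsCircuit (v i)) := by
  have h : Dfb.{u} n (fun _ M v => ¬ M.Indep (v i) ∧
      ∀ X : Set _, X ⊆ M.E → X ⊆ v i → (v i ⊆ X ∨ M.Indep X)) := by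
    refine (Dfb.not (Dfb.ind i)).and (Dfb.all ?_)
    exact (Dfb.sub 0 i.succ).imp ((Dfb.sub i.succ 0).or (Dfb.ind 0))
  refine h.congr fun α M v hv => ⟨fun h => ?_, fun h => ?_⟩
  · rw [Matroid.isCircuit_iff_forall_ssubset]
    refine ⟨⟨h.1, hv i⟩, fun I hI => ?_⟩
    rcases h.2 I (hI.subset.trans (hv i)) hI.subset with h' | h'
    · exact absurd h' hI.not_subset
    · exact h'
  · refine ⟨h.not_indep, fun X _ hX => ?_⟩
    by_cases h' : v i ⊆ X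
    · exact Or.inl h'
    · exact Or.inr (h.ssubset_indep ⟨hX, h'⟩)

lemma inter (i j k : Fin n) : Dfb.{u} n (fun _ _ v => v i = v j ∩ v k) := by
  have h : Dfb.{u} n (fun _ M v => ∀ e, e ∈ M.E →
      (({e} : Set _) ⊆ v i ↔ (({e} : Set _) ⊆ v j ∧ ({e} : Set _) ⊆ v k))) :=
    Dfb.allPt (P := fun _ _ X v => (X ⊆ v i ↔ (X ⊆ v j ∧ X ⊆ v k)))
      ((Dfb.sub 0 i.succ).iff ((Dfb.sub 0 j.succ).and (Dfb.sub 0 k.succ)))
  refine h.congr fun α M v hv => ⟨fun h => ?_, fun h e _ => ?_⟩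
  · ext e
    by_cases he : e ∈ M.E
    · simpa using h e he
    · exact ⟨fun h' => absurd (hv i h') he, fun h' => absurd (hv j h'.1) he⟩
  · rw [h]; simp

lemma union (i j k : Fin n) : Dfb.{u} n (fun _ _ v => v i = v j ∪ v k) := by
  have h : Dfb.{u} n (fun _ M v => ∀ e, e ∈ M.E →
      (({e} : Set _) ⊆ v i ↔ (({e} : Set _) ⊆ v j ∨ ({e} : Set _) ⊆ v k))) :=
    Dfb.allPt (P := fun _ _ X v => (X ⊆ v i ↔ (X ⊆ v j ∨ X ⊆ v k)))
      ((Dfb.sub 0 i.succ).iff ((Dfb.sub 0 j.succ).or (Dfb.sub 0 k.succ)))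
  refine h.congr fun α M v hv => ⟨fun h => ?_, fun h e _ => ?_⟩
  · ext e
    by_cases he : e ∈ M.E
    · simpa using h e he
    · exact ⟨fun h' => absurd (hv i h') he, fun h' => absurd (h'.elim (hv j ·) (hv k ·)) he⟩
  · rw [h]; simp

lemma disj (i j : Fin n) : Dfb.{u} n (fun _ _ v => v i ∩ v j = ∅) := by
  have h : Dfb.{u} n (fun _ M v => ∀ e, e ∈ M.E →
      (({e} : Set _) ⊆ v i → ¬ (({e} : Set _) ⊆ v j))) :=
    Dfb.allPt (P := fun _ _ X v => (X ⊆ v i → ¬ X ⊆ v j))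
      ((Dfb.sub 0 i.succ).imp (Dfb.sub 0 j.succ).not)
  refine h.congr fun α M v hv => ⟨fun h => ?_, fun h e _ => ?_⟩
  · ext e
    simp only [mem_inter_iff, mem_empty_iff_false, iff_false, not_and]
    intro h1 h2
    exact h e (hv i h1) (singleton_subset_iff.2 h1) (singleton_subset_iff.2 h2)
  · intro h1 h2
    have : e ∈ v i ∩ v j := ⟨singleton_subset_iff.1 h1, singleton_subset_iff.1 h2⟩
    rw [h] at this
    exact this

lemma basis (i j : Fin n) : Dfb.{u} n (fun _ M v => M.IsBasis (v i) (v j)) := by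
  have h : Dfb.{u} n (fun _ M v => M.Indep (v i) ∧ v i ⊆ v j ∧
      ∀ X : Set _, X ⊆ M.E → M.Indep X → v i ⊆ X → X ⊆ v j → X ⊆ v i) := by
    refine (Dfb.ind i).and ((Dfb.sub i j).and (Dfb.all ?_))
    exact (Dfb.ind 0).imp ((Dfb.sub i.succ 0).imp ((Dfb.sub 0 j.succ).imp (Dfb.sub 0 i.succ)))
  refine h.congr fun α M v hv => ⟨fun h => ?_, fun h => ?_⟩
  · rw [Matroid.isBasis_iff (hv j)]
    exact ⟨h.1, h.2.1, fun J hJ hIJ hJX => Subset.antisymm hIJ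
      (h.2.2 J hJ.subset_ground hJ hIJ hJX)⟩
  · rw [Matroid.isBasis_iff (hv j)] at h
    exact ⟨h.1, h.2.1, fun X _ hX hIX hXJ => (h.2.2 X hX hIX hXJ).symm.subset⟩

/-- `v f = cl (v c) ∩ v k` is definable. -/
lemma closInter (f c k : Fin n) :
    Dfb.{u} n (fun _ M v => v f = M.closure (v c) ∩ v k) := by
  have h : Dfb.{u} n (fun _ M v => ∀ e, e ∈ M.E → (({e} : Set _) ⊆ v f ↔
      (({e} : Set _) ⊆ v k ∧ (({e} : Set _) ⊆ v c ∨ ∃ D : Set _, D ⊆ M.E ∧ (M.IsCircuit D ∧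
        ({e} : Set _) ⊆ D ∧ ∀ x, x ∈ M.E → (({x} : Set _) ⊆ D →
          ({x} : Set _) ⊆ v c ∨ ({x} : Set _) ⊆ {e})))))) := by
    refine Dfb.allPt (P := fun _ M X v => (X ⊆ v f ↔
      (X ⊆ v k ∧ (X ⊆ v c ∨ ∃ D : Set _, D ⊆ M.E ∧ (M.IsCircuit D ∧
        X ⊆ D ∧ ∀ x, x ∈ M.E → (({x} : Set _) ⊆ D →
          ({x} : Set _) ⊆ v c ∨ ({x} : Set _) ⊆ X)))))) ?_
    refine (Dfb.sub 0 f.succ).iff ((Dfb.sub 0 k.succ).and ((Dfb.sub 0 c.succ).or (Dfb.ex ?_)))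
    refine (Dfb.circ 0).and ((Dfb.sub (0 : Fin (n + 1)).succ 0).and ?_)
    refine Dfb.allPt (P := fun _ M X v => (X ⊆ v 0 → X ⊆ v c.succ.succ ∨
      X ⊆ v (0 : Fin (n + 1)).succ)) ?_
    exact (Dfb.sub 0 (0 : Fin (n+2)).succ).imp
      ((Dfb.sub 0 c.succ.succ.succ).or (Dfb.sub 0 (0 : Fin (n+1)).succ.succ))
  refine h.congr fun α M v hv => ?_
  have key : ∀ e ∈ M.E, (e ∈ M.closure (v c) ↔
      (({e} : Set α) ⊆ v c ∨ ∃ D : Set _, D ⊆ M.E ∧ (M.IsCircuit D ∧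
        ({e} : Set _) ⊆ D ∧ ∀ x, x ∈ M.E → (({x} : Set _) ⊆ D →
          ({x} : Set _) ⊆ v c ∨ ({x} : Set _) ⊆ {e})))) := by
    intro e he
    by_cases hec : e ∈ v c
    · refine ⟨fun _ => Or.inl (singleton_subset_iff.2 hec), fun _ => ?_⟩
      exact M.mem_closure_of_mem hec (hv c)
    · rw [Matroid.mem_closure_iff_exists_isCircuit hec]
      constructor
      · rintro ⟨C, hC, hC1, hC2⟩
        refine Or.inr ⟨C, hC1.subset_ground, hC1, singleton_subset_iff.2 hC2, fun x _ hx => ?_⟩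
        rcases hC (singleton_subset_iff.1 hx) with h' | h'
        · exact Or.inr (by rw [h'])
        · exact Or.inl (singleton_subset_iff.2 h')
      · rintro (h' | ⟨D, _, hD1, hD2, hD3⟩)
        · exact absurd (singleton_subset_iff.1 h') hec
        · refine ⟨D, fun x hx => ?_, hD1, singleton_subset_iff.1 hD2⟩
          rcases hD3 x (hD1.subset_ground hx) (singleton_subset_iff.2 hx) with h' | h'
          · exact Or.inr (singleton_subset_iff.1 h')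
          · exact Or.inl (mem_singleton_iff.1 (singleton_subset_iff.1 h'))
  constructor
  · intro h
    ext e
    by_cases he : e ∈ M.E
    · have := h e he
      rw [← key e he, singleton_subset_iff, singleton_subset_iff] at this
      rw [this, mem_inter_iff, and_comm]
    · exact ⟨fun h' => absurd (hv f h') he, fun h' => absurd (hv k h'.2) he⟩
  · intro h e he
    rw [← key e he, singleton_subset_iff, singleton_subset_iff, h, mem_inter_iff, and_comm]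

end Dfb

variable {α : Type u}

/-- `F` is the trace on `K` of the closure of a circuit contained in `K`. -/
def IsF (M : Matroid α) (K F : Set α) : Prop :=
  ∃ C : Set α, C ⊆ M.E ∧ (M.IsCircuit C ∧ C ⊆ K ∧ F = M.closure C ∩ K)

/-- Every circuit is inside `K` or disjoint from `K`. -/
def IsSep (M : Matroid α) (K : Set α) : Prop :=
  ∀ C : Set α, C ⊆ M.E → (M.IsCircuit C → C ⊆ K ∨ C ∩ K = ∅)

/-- `K` is a component: a minimal nonempty separator. -/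
def IsComp (M : Matroid α) (K : Set α) : Prop :=
  ¬ K = ∅ ∧ IsSep M K ∧ ∀ K' : Set α, K' ⊆ M.E → (¬ K' = ∅ → IsSep M K' → K' ⊆ K → K ⊆ K')

/-- the condition (c5). -/
def C5 (M : Matroid α) (K a z F : Set α) : Prop :=
  ∃ F₁ : Set α, F₁ ⊆ M.E ∧ ∃ F₂ : Set α, F₂ ⊆ M.E ∧ (IsF M K F₁ ∧ IsF M K F₂ ∧
    a ⊆ F₁ ∧ ¬ z ⊆ F₁ ∧ z ⊆ F₂ ∧ ¬ a ⊆ F₂ ∧ F = F₁ ∩ F₂ ∧ K = F₁ ∪ F₂ ∧
    ∃ J₁ : Set α, J₁ ⊆ M.E ∧ ∃ J₂ : Set α, J₂ ⊆ M.E ∧ ∃ J : Set α, J ⊆ M.E ∧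
      (M.IsBasis J₁ F₁ ∧ M.IsBasis J₂ F₂ ∧ J₁ ⊆ J ∧ J₂ ⊆ J ∧ M.Indep J))

/-- The conditions on the pair of points `a`, `z` (given as singletons) of `K`. -/
def Good (M : Matroid α) (K a z : Set α) : Prop :=
  a ⊆ K ∧ z ⊆ K ∧
  (∀ F : Set α, F ⊆ M.E → IsF M K F →
    (a ⊆ F → z ⊆ F → K ⊆ F) ∧
    (¬ a ⊆ F → ¬ z ⊆ F → C5 M K a z F) ∧
    ∀ F' : Set α, F' ⊆ M.E → IsF M K F' →
      (a ⊆ F → ¬ z ⊆ F → a ⊆ F' → ¬ z ⊆ F' → F ⊆ F' ∨ F' ⊆ F) ∧
      (z ⊆ F → ¬ a ⊆ F → z ⊆ F' → ¬ a ⊆ F' → F ⊆ F' ∨ F' ⊆ F) ∧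
      (a ⊆ F → ¬ z ⊆ F → z ⊆ F' → ¬ a ⊆ F' → F ∩ F' = ∅ ∨ K = F ∪ F'))

/-- The property that characterises lattice path matroids. -/
def Psi (M : Matroid α) : Prop :=
  ∀ K : Set α, K ⊆ M.E → IsComp M K →
    ∃ a, a ∈ M.E ∧ ∃ z, z ∈ M.E ∧ Good M K {a} {z}

namespace Dfb

variable {n : ℕ}

lemma isF (k f : Fin n) : Dfb.{u} n (fun _ M v => IsF M (v k) (v f)) := by
  refine Dfb.ex ?_
  exact (Dfb.circ 0).and ((Dfb.sub 0 k.succ).and (Dfb.closInter f.succ 0 k.succ))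

lemma isSep (k : Fin n) : Dfb.{u} n (fun _ M v => IsSep M (v k)) := by
  refine Dfb.all ?_
  exact (Dfb.circ 0).imp ((Dfb.sub 0 k.succ).or (Dfb.disj 0 k.succ))

lemma isComp (k : Fin n) : Dfb.{u} n (fun _ M v => IsComp M (v k)) := by
  refine (Dfb.empt k).not.and ((Dfb.isSep k).and (Dfb.all ?_))
  exact (Dfb.empt 0).not.imp ((Dfb.isSep 0).imp ((Dfb.sub 0 k.succ).imp (Dfb.sub k.succ 0)))

lemma c5 (k a z f : Fin n) : Dfb.{u} n (fun _ M v => C5 M (v k) (v a) (v z) (v f)) := by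
  refine Dfb.ex (Dfb.ex ?_)
  refine (Dfb.isF k.succ.succ (Fin.succ 0)).and ((Dfb.isF k.succ.succ 0).and ?_)
  refine (Dfb.sub a.succ.succ (Fin.succ 0)).and ((Dfb.sub z.succ.succ (Fin.succ 0)).not.and ?_)
  refine (Dfb.sub z.succ.succ 0).and ((Dfb.sub a.succ.succ 0).not.and ?_)
  refine (Dfb.inter f.succ.succ (Fin.succ 0) 0).and
    ((Dfb.union k.succ.succ (Fin.succ 0) 0).and ?_)
  refine Dfb.ex (Dfb.ex (Dfb.ex ?_))
  refine (Dfb.basis (Fin.succ (Fin.succ 0)) (Fin.succ (Fin.succ (Fin.succ (Fin.succ 0))))).and ?_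
  refine (Dfb.basis (Fin.succ 0) (Fin.succ (Fin.succ (Fin.succ 0)))).and ?_
  exact (Dfb.sub (Fin.succ (Fin.succ 0)) 0).and ((Dfb.sub (Fin.succ 0) 0).and (Dfb.ind 0))

lemma good (k a z : Fin n) : Dfb.{u} n (fun _ M v => Good M (v k) (v a) (v z)) := by
  refine (Dfb.sub a k).and ((Dfb.sub z k).and (Dfb.all ?_))
  refine (Dfb.isF k.succ 0).imp ?_
  refine ((Dfb.sub a.succ 0).imp ((Dfb.sub z.succ 0).imp (Dfb.sub k.succ 0))).and ?_
  refine ((Dfb.sub a.succ 0).not.imp ((Dfb.sub z.succ 0).not.imp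
    (Dfb.c5 k.succ a.succ z.succ 0))).and (Dfb.all ?_)
  refine (Dfb.isF k.succ.succ 0).imp ?_
  refine Dfb.and ?_ (Dfb.and ?_ ?_)
  · refine (Dfb.sub a.succ.succ (Fin.succ 0)).imp ((Dfb.sub z.succ.succ (Fin.succ 0)).not.imp
      ((Dfb.sub a.succ.succ 0).imp ((Dfb.sub z.succ.succ 0).not.imp ?_)))
    exact (Dfb.sub (Fin.succ 0) 0).or (Dfb.sub 0 (Fin.succ 0))
  · refine (Dfb.sub z.succ.succ (Fin.succ 0)).imp ((Dfb.sub a.succ.succ (Fin.succ 0)).not.imp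
      ((Dfb.sub z.succ.succ 0).imp ((Dfb.sub a.succ.succ 0).not.imp ?_)))
    exact (Dfb.sub (Fin.succ 0) 0).or (Dfb.sub 0 (Fin.succ 0))
  · refine (Dfb.sub a.succ.succ (Fin.succ 0)).imp ((Dfb.sub z.succ.succ (Fin.succ 0)).not.imp
      ((Dfb.sub z.succ.succ 0).imp ((Dfb.sub a.succ.succ 0).not.imp ?_)))
    exact (Dfb.disj (Fin.succ 0) 0).or (Dfb.union k.succ.succ (Fin.succ 0) 0)

lemma psi : Dfb.{u} n (fun _ M _ => Psi M) := by
  refine Dfb.all ((Dfb.isComp 0).imp ?_)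
  refine Dfb.exPt (P := fun _ M X v => ∃ z, z ∈ M.E ∧ Good M (v 0) X {z}) ?_
  refine Dfb.exPt (P := fun _ M X v => Good M (v (Fin.succ 0)) (v 0) X) ?_
  exact Dfb.good (Fin.succ (Fin.succ 0)) (Fin.succ 0) 0

end Dfb

/-- There is an `MS₀` sentence which holds exactly in the matroids with property `Psi`. -/
theorem exists_formula_psi :
    ∃ φ : Formula 0, ∀ (α : Type u) (M : Matroid α), Models M φ ↔ Psi M := by
  obtain ⟨φ, hφ⟩ := Dfb.psi.{u} (n := 0)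
  refine ⟨φ, fun α M => ?_⟩
  exact hφ α M Fin.elim0 (fun i => i.elim0)

end Pool.Agent.H315R3.LPM
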