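import Pool.Agent.H315R3.LPMNec

/-!
# Necessity: lattice path matroids satisfy `Psi`
-/

namespace Pool.Agent.H315R3.LPM

open Set

universe u

variable {α : Type u}

namespace LP

variable {M : Matroid α} [M.Finite] {n : ℕ} {l u : ℕ → ℕ} {g : α → ℕ}

/-- extend a circuit spanning `[s,t)` to the left end `p` of the cell -/
lemma left_circuit (h : LP M n l u g) {p q s t : ℕ} (hqn : q ≤ n) (hp : l p = u p)
    (hlt : ∀ j, p < j → j < q → l j < u j) (hps : p < s) (hst : s < t) (htq : t < q)
    {C : Set α} (hC : M.IsCircuit C) (hin : ∀ x ∈ C, s ≤ g x ∧ g x < t)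
    (hcard : l s + C.ncard = u t + 1) :
    ∃ D, M.IsCircuit D ∧ (∀ x ∈ D, p ≤ g x ∧ g x < t) ∧ l p + D.ncard = u t + 1 := by
  classical
  have hCE := hC.subset_ground
  have hfin : C.Finite := M.set_finite C hCE
  obtain ⟨c, hc, hcmin⟩ := Set.exists_min_image C g hfin hC.nonempty
  have hls := hlt s hps (by omega)
  -- the extra elements
  obtain ⟨f, hf⟩ : ∃ f : ℕ → ℕ, ∀ k, f k = min (u k) (l s + 1) - u p := ⟨_, fun k => rfl⟩
  have hf0 : f 0 = 0 := by rw [hf, h.u0]; omega
  have hfs : ∀ k < n, f (k + 1) = f k ∨ f (k + 1) = f k + 1 := by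
    intro k _
    rw [hf, hf]
    have := h.us k
    omega
  obtain ⟨A, hA⟩ : ∃ A, A = incr M g f := ⟨_, rfl⟩
  have hAE : A ⊆ M.E := by rw [hA]; exact incr_subset f
  have hAfin : A.Finite := M.set_finite A hAE
  have hAc : ∀ k ≤ n, cnt g A k = f k := fun k hk => by rw [hA]; exact h.cnt_incr hf0 hfs hk
  have hAin : ∀ x ∈ A, p ≤ g x ∧ g x < s := by
    intro x hx
    rw [hA] at hx
    have h1 := hx.2
    rw [hf, hf] at h1
    constructor
    · by_contra hcon
      have := h.u_mono (show g x + 1 ≤ p by omega)
      omega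
    · by_contra hcon
      have := h.u_mono (show s ≤ g x by omega)
      omega
  obtain ⟨I, hI⟩ : ∃ I, I = C \ {c} := ⟨_, rfl⟩
  have hIC : I ⊆ C := by rw [hI]; exact sdiff_subset
  have hIE : I ⊆ M.E := hIC.trans hCE
  have hIfin : I.Finite := hfin.subset hIC
  have hIn : I.ncard + 1 = C.ncard := by rw [hI]; exact ncard_sdiff_singleton_add_one hc hfin
  have hcI : ∀ k, cnt g I k + (if g c < k then 1 else 0) = cnt g C k := fun k => by
    rw [hI]; exact cnt_remove hfin hc
  have hIind : M.Indep I := by rw [hI]; exact hC.sdiff_singleton_indep hc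
  have hIcrit := hIind
  rw [h.ind I hIE] at hIcrit
  have hdisj : Disjoint A I := by
    rw [Set.disjoint_left]
    intro x hx hx'
    have := hAin x hx
    have := hin x (hIC hx')
    omega
  have hcs : ∀ k ≤ s, cnt g I k = 0 := fun k hk => cnt_of_le fun y hy => by
    have := hin y (hIC hy)
    omega
  have hDE : A ∪ I ⊆ M.E := union_subset hAE hIE
  have hDfin : (A ∪ I).Finite := hAfin.union hIfin
  have hDc : ∀ k ≤ n, cnt g (A ∪ I) k = f k + cnt g I k := fun k hk => by
    rw [cnt_union hAfin hIfin hdisj, hAc k hk]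
  have hDin : ∀ x ∈ A ∪ I, p ≤ g x ∧ g x < t := by
    rintro x (hx | hx)
    · have := hAin x hx
      omega
    · have := hin x (hIC hx)
      omega
  have husp := h.u_mono (show p ≤ s by omega)
  have hlsp := h.l_mono (show p ≤ s by omega)
  have hAn : A.ncard = l s + 1 - u p := by
    rw [← cnt_of_lt (g := g) (k := s) (fun x hx => (hAin x hx).2), hAc s (by omega), hf]
    omega
  have hDn : (A ∪ I).ncard = A.ncard + I.ncard := ncard_union_eq hdisj hAfin hIfin
  -- proper initial parts of `C`
  have hpart : ∀ x ∈ C, ∀ b ≤ g x, s ≤ b → l s + cnt g C b ≤ u b := by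
    intro x hx b hbx hsb
    have h1 : M.Indep (C ∩ {y | g y < b}) := by
      apply hC.ssubset_indep
      refine ⟨inter_subset_left, fun h' => ?_⟩
      have := (h' hx).2
      simp only [mem_ofPred_eq] at this
      omega
    rw [h.ind _ (inter_subset_left.trans hCE)] at h1
    have h2 := h.lt x (hCE hx)
    have h3 := h1 s b hsb (by omega)
    rw [cnt_of_le (k := s) (fun x hx => (hin x hx.1).1), cnt_of_lt (k := b) (fun x hx => hx.2)] at h3
    exact h3
  refine ⟨A ∪ I, ?_, hDin, by omega⟩
  rw [Matroid.isCircuit_iff_dep_forall_sdiff_singleton_indep]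
  refine ⟨⟨?_, hDE⟩, ?_⟩
  · rw [h.ind _ hDE]
    push Not
    refine ⟨p, t, by omega, by omega, ?_⟩
    rw [cnt_of_le (k := p) (fun x hx => (hDin x hx).1),
      cnt_of_lt (k := t) (fun x hx => (hDin x hx).2)]
    omega
  · intro x hx
    rw [h.ind _ (sdiff_subset.trans hDE)]
    intro a b hab hbn
    have ea := cnt_remove (g := g) (k := a) hDfin hx
    have eb := cnt_remove (g := g) (k := b) hDfin hx
    rw [hDc a (by omega), hf] at ea
    rw [hDc b hbn, hf] at eb
    have hxin := hDin x hx
    have hmono : (if g x < a then 1 else 0) ≤ (if g x < b then 1 else 0) := by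
      split_ifs <;> omega
    have hla := h.le a
    have hlb := h.le b
    have huab := h.u_mono hab
    have hlab := h.l_mono hab
    have hcrit := hIcrit a b hab hbn
    rcases Nat.le_total b s with hbs | hbs
    · have e1 := hcs b hbs
      have e2 := hcs a (by omega)
      omega
    rcases Nat.le_total s a with hsa | hsa
    · have e1 := h.u_mono hsa
      omega
    have e2 := hcs a hsa
    have e3 := hIcrit s b hbs hbn
    rw [hcs s le_rfl] at e3
    have e4 := h.u_mono hbs
    have e5 := h.l_mono hsa
    rcases Nat.le_total a p with hap | hap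
    · have e6 := h.l_mono hap
      have e7 := h.u_mono hap
      rw [if_neg (by omega)] at ea
      rcases Nat.lt_or_ge (g x) b with hxb | hxb
      · rw [if_pos hxb] at eb
        omega
      · rw [if_neg (by omega)] at eb
        have hxI : x ∈ I := by
          rcases hx with hx | hx
          · have := hAin x hx
            omega
          · exact hx
        have e8 := hpart x (hIC hxI) b hxb hbs
        have e9 := hcI b
        rcases Nat.lt_or_ge (g c) b with hcb | hcb
        · rw [if_pos hcb] at e9
          omega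
        · have e10 : cnt g I b = 0 := cnt_of_le fun y hy => by
            have := hcmin y (hIC hy)
            omega
          have e11 : l s ≤ l b := h.l_mono hbs
          rcases Nat.lt_or_ge s b with hsb' | hsb'
          · have e12 := hlt b (by omega) (by omega)
            omega
          · have : b = s := by omega
            rw [this] at eb e10 ⊢
            omega
    · rcases Nat.lt_or_ge p a with hpa | hpa
      · have e6 := hlt a hpa (by omega)
        have e7 := h.u_mono hap
        omega
      · have : a = p := by omega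
        subst this
        rw [if_neg (by omega)] at ea
        rcases Nat.lt_or_ge (g x) b with hxb | hxb
        · rw [if_pos hxb] at eb
          omega
        · rw [if_neg (by omega)] at eb
          have hxI : x ∈ I := by
            rcases hx with hx | hx
            · have := hAin x hx
              omega
            · exact hx
          have e8 := hpart x (hIC hxI) b hxb hbs
          have e9 := hcI b
          rcases Nat.lt_or_ge (g c) b with hcb | hcb
          · rw [if_pos hcb] at e9
            omega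
          · have e10 : cnt g I b = 0 := cnt_of_le fun y hy => by
              have := hcmin y (hIC hy)
              omega
            have e11 : l s ≤ l b := h.l_mono hbs
            rcases Nat.lt_or_ge s b with hsb' | hsb'
            · have e12 := hlt b (by omega) (by omega)
              omega
            · have : b = s := by omega
              rw [this] at eb e10 ⊢
              omega

/-- extend a circuit spanning `[s,t)` to the right end `q` of the cell -/
lemma right_circuit (h : LP M n l u g) {p q s t : ℕ} (hqn : q ≤ n) (hq : l q = u q)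
    (hlt : ∀ j, p < j → j < q → l j < u j) (hps : p < s) (hst : s < t) (htq : t < q)
    {C : Set α} (hC : M.IsCircuit C) (hin : ∀ x ∈ C, s ≤ g x ∧ g x < t)
    (hcard : l s + C.ncard = u t + 1) :
    ∃ D, M.IsCircuit D ∧ (∀ x ∈ D, s ≤ g x ∧ g x < q) ∧ l s + D.ncard = u q + 1 := by
  classical
  have hCE := hC.subset_ground
  have hfin : C.Finite := M.set_finite C hCE
  obtain ⟨c, hc, hcmax⟩ := Set.exists_max_image C g hfin hC.nonempty
  have hlt' := hlt t (by omega) htq
  -- the extra elements
  obtain ⟨f, hf⟩ : ∃ f : ℕ → ℕ, ∀ k, f k = min (l k) (l q) - (u t - 1) := ⟨_, fun k => rfl⟩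
  have hf0 : f 0 = 0 := by rw [hf, h.l0]; omega
  have hfs : ∀ k < n, f (k + 1) = f k ∨ f (k + 1) = f k + 1 := by
    intro k _
    rw [hf, hf]
    have := h.ls k
    omega
  obtain ⟨A, hA⟩ : ∃ A, A = incr M g f := ⟨_, rfl⟩
  have hAE : A ⊆ M.E := by rw [hA]; exact incr_subset f
  have hAfin : A.Finite := M.set_finite A hAE
  have hAc : ∀ k ≤ n, cnt g A k = f k := fun k hk => by rw [hA]; exact h.cnt_incr hf0 hfs hk
  have hAin : ∀ x ∈ A, t ≤ g x ∧ g x < q := by
    intro x hx
    rw [hA] at hx
    have h1 := hx.2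
    rw [hf, hf] at h1
    constructor
    · by_contra hcon
      have := h.l_mono (show g x + 1 ≤ t by omega)
      omega
    · by_contra hcon
      have := h.l_mono (show q ≤ g x by omega)
      omega
  obtain ⟨I, hI⟩ : ∃ I, I = C \ {c} := ⟨_, rfl⟩
  have hIC : I ⊆ C := by rw [hI]; exact sdiff_subset
  have hIE : I ⊆ M.E := hIC.trans hCE
  have hIfin : I.Finite := hfin.subset hIC
  have hIn : I.ncard + 1 = C.ncard := by rw [hI]; exact ncard_sdiff_singleton_add_one hc hfin
  have hcI : ∀ k, cnt g I k + (if g c < k then 1 else 0) = cnt g C k := fun k => by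
    rw [hI]; exact cnt_remove hfin hc
  have hIind : M.Indep I := by rw [hI]; exact hC.sdiff_singleton_indep hc
  have hIcrit := hIind
  rw [h.ind I hIE] at hIcrit
  have hdisj : Disjoint A I := by
    rw [Set.disjoint_left]
    intro x hx hx'
    have := hAin x hx
    have := hin x (hIC hx')
    omega
  have hct : ∀ k, t ≤ k → cnt g I k = I.ncard := fun k hk => cnt_of_lt fun y hy => by
    have := hin y (hIC hy)
    omega
  have hDE : A ∪ I ⊆ M.E := union_subset hAE hIE
  have hDfin : (A ∪ I).Finite := hAfin.union hIfin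
  have hDc : ∀ k ≤ n, cnt g (A ∪ I) k = f k + cnt g I k := fun k hk => by
    rw [cnt_union hAfin hIfin hdisj, hAc k hk]
  have hDin : ∀ x ∈ A ∪ I, s ≤ g x ∧ g x < q := by
    rintro x (hx | hx)
    · have := hAin x hx
      omega
    · have := hin x (hIC hx)
      omega
  have hutq := h.u_mono (show t ≤ q by omega)
  have hltq := h.l_mono (show t ≤ q by omega)
  have hAn : A.ncard = l q - (u t - 1) := by
    rw [← cnt_of_lt (g := g) (k := q) (fun x hx => (hAin x hx).2), hAc q (by omega), hf]
    omega
  have hDn : (A ∪ I).ncard = A.ncard + I.ncard := ncard_union_eq hdisj hAfin hIfin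
  -- proper final parts of `C`
  have hpart : ∀ x ∈ C, ∀ a, g x < a → a ≤ t → l a + C.ncard ≤ u t + cnt g C a := by
    intro x hx a hax hat
    have h1 : M.Indep (C ∩ {y | a ≤ g y}) := by
      apply hC.ssubset_indep
      refine ⟨inter_subset_left, fun h' => ?_⟩
      have := (h' hx).2
      simp only [mem_ofPred_eq] at this
      omega
    rw [h.ind _ (inter_subset_left.trans hCE)] at h1
    have h3 := h1 a t hat (by omega)
    rw [cnt_of_le (k := a) (fun x hx => hx.2),
      cnt_of_lt (k := t) (fun x hx => (hin x hx.1).2)] at h3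
    have h4 : cnt g C a + (C ∩ {y | a ≤ g y}).ncard = C.ncard := by
      have h5 := cnt_split (g := g) hfin (show a ≤ t from hat)
      rw [cnt_of_lt (k := t) (fun x hx => (hin x hx).2)] at h5
      rw [h5]
      congr 2
      ext z
      simp only [mem_inter_iff, mem_ofPred_eq]
      exact ⟨fun h' => ⟨h'.1, h'.2, (hin z h'.1).2⟩, fun h' => ⟨h'.1, h'.2.1⟩⟩
    omega
  refine ⟨A ∪ I, ?_, hDin, by omega⟩
  rw [Matroid.isCircuit_iff_dep_forall_sdiff_singleton_indep]
  refine ⟨⟨?_, hDE⟩, ?_⟩
  · rw [h.ind _ hDE]
    push Not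
    refine ⟨s, q, by omega, by omega, ?_⟩
    rw [cnt_of_le (k := s) (fun x hx => (hDin x hx).1),
      cnt_of_lt (k := q) (fun x hx => (hDin x hx).2)]
    omega
  · intro x hx
    rw [h.ind _ (sdiff_subset.trans hDE)]
    intro a b hab hbn
    have ea := cnt_remove (g := g) (k := a) hDfin hx
    have eb := cnt_remove (g := g) (k := b) hDfin hx
    rw [hDc a (by omega), hf] at ea
    rw [hDc b hbn, hf] at eb
    have hxin := hDin x hx
    have hmono : (if g x < a then 1 else 0) ≤ (if g x < b then 1 else 0) := by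
      split_ifs <;> omega
    have hla := h.le a
    have hlb := h.le b
    have huab := h.u_mono hab
    have hlab := h.l_mono hab
    have hcrit := hIcrit a b hab hbn
    rcases Nat.le_total t a with hta | hta
    · have e1 := hct a hta
      have e2 := hct b (by omega)
      omega
    rcases Nat.le_total b t with hbt | hbt
    · have e1 := h.l_mono hbt
      omega
    have e1 := h.l_mono hta
    have e2 := hct b hbt
    have e3 := hIcrit a t hta (by omega)
    rw [hct t le_rfl] at e3
    have e4 := h.u_mono hbt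
    rcases Nat.lt_or_ge b q with hbq | hbq
    · rcases Nat.lt_or_ge t b with htb | htb
      · have e5 := hlt b (by omega) hbq
        have e6 := h.l_mono (show b ≤ q by omega)
        omega
      · have : b = t := by omega
        subst this
        omega
    · have e5 := h.u_mono hbq
      have e6 := h.l_mono hbq
      rw [if_pos (by omega)] at eb
      rcases Nat.lt_or_ge (g x) a with hxa | hxa
      · rw [if_pos hxa] at ea
        have hxI : x ∈ I := by
          rcases hx with hx | hx
          · have := hAin x hx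
            omega
          · exact hx
        have e8 := hpart x (hIC hxI) a hxa hta
        have e9 := hcI a
        rcases Nat.lt_or_ge (g c) a with hca | hca
        · have e10 : cnt g I a = I.ncard := cnt_of_lt fun y hy => by
            have := hcmax y (hIC hy)
            omega
          rcases Nat.lt_or_ge a t with hat | hat
          · have e11 := hlt a (by omega) (by omega)
            have e12 := h.u_mono hta
            omega
          · have : a = t := by omega
            subst this
            omega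
        · rw [if_neg (by omega)] at e9
          omega
      · rw [if_neg (by omega)] at ea
        omega

omit [M.Finite] in
lemma exists_left (s : ℕ) (l : ℕ → ℕ) (hl : ∀ j ≤ s, l j ≤ l s) :
    ∃ s' ≤ s, l s' = l s ∧ ∀ j < s', l j < l s := by
  classical
  have hex : ∃ j, l j = l s := ⟨s, rfl⟩
  have hle : Nat.find hex ≤ s := Nat.find_min' hex rfl
  refine ⟨Nat.find hex, hle, Nat.find_spec hex, fun j hj => ?_⟩
  exact lt_of_le_of_ne (hl j (by omega)) (Nat.find_min hex hj)

omit [M.Finite] in
lemma exists_right (t n : ℕ) (htn : t ≤ n) (u : ℕ → ℕ) (hu : ∀ j, t ≤ j → u t ≤ u j) :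
    ∃ t', t ≤ t' ∧ t' ≤ n ∧ u t' = u t ∧ ∀ j, t' < j → j ≤ n → u t < u j := by
  classical
  have h1 : t ≤ Nat.findGreatest (fun j => u j = u t) n := Nat.le_findGreatest htn rfl
  refine ⟨Nat.findGreatest (fun j => u j = u t) n, h1, Nat.findGreatest_le _,
    Nat.findGreatest_spec (P := fun j => u j = u t) htn rfl, fun j hj hjn => ?_⟩
  have h2 := Nat.findGreatest_is_greatest (P := fun j => u j = u t) hj hjn
  exact lt_of_le_of_ne (hu j (by omega)) (fun h3 => h2 h3.symm)

/-- the union of the two bases is independent -/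
lemma indep_union (h : LP M n l u g) {s t q : ℕ} (hst : s < t) (htn : t ≤ n)
    {I J₁ J₂ : Set α} (hI : I.ncard + l s = u t) (hIin : ∀ x ∈ I, s ≤ g x ∧ g x < t)
    (hI₁ : I ⊆ J₁) (hI₂ : I ⊆ J₂) (hJ₁ : M.Indep J₁) (hJ₂ : M.Indep J₂)
    (hin₁ : ∀ x ∈ J₁, g x < t) (hin₂ : ∀ x ∈ J₂, s ≤ g x ∧ g x < q) :
    M.Indep (J₁ ∪ J₂) := by
  have hE₁ := hJ₁.subset_ground
  have hE₂ := hJ₂.subset_ground
  have hf₁ := hJ₁.finite
  have hf₂ := hJ₂.finite
  have hc₁ := hJ₁
  have hc₂ := hJ₂
  rw [h.ind _ hE₁] at hc₁
  rw [h.ind _ hE₂] at hc₂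
  have hIfin : I.Finite := hf₁.subset hI₁
  -- the middle parts agree with `I`
  have hm₁ : J₁ ∩ {x | s ≤ g x ∧ g x < t} = I := by
    symm
    apply eq_of_subset_of_ncard_le
    · exact fun x hx => ⟨hI₁ hx, hIin x hx⟩
    · have h1 := cnt_split (g := g) hf₁ (show s ≤ t by omega)
      have h2 := hc₁ s t (by omega) htn
      omega
    · exact hf₁.inter_of_left _
  have hm₂ : J₂ ∩ {x | s ≤ g x ∧ g x < t} = I := by
    symm
    apply eq_of_subset_of_ncard_le
    · exact fun x hx => ⟨hI₂ hx, hIin x hx⟩
    · have h1 := cnt_split (g := g) hf₂ (show s ≤ t by omega)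
      have h2 := hc₂ s t (by omega) htn
      omega
    · exact hf₂.inter_of_left _
  have hmem₁ : ∀ x ∈ J₁, s ≤ g x → x ∈ I := fun x hx hsx => by
    rw [← hm₁]; exact ⟨hx, hsx, hin₁ x hx⟩
  have hmem₂ : ∀ x ∈ J₂, g x < t → x ∈ I := fun x hx hsx => by
    rw [← hm₂]; exact ⟨hx, (hin₂ x hx).1, hsx⟩
  have hlow : ∀ k ≤ t, cnt g (J₁ ∪ J₂) k = cnt g J₁ k := by
    intro k hk
    unfold cnt
    congr 1
    ext x
    simp only [mem_inter_iff, mem_union, mem_ofPred_eq]
    constructor
    · rintro ⟨h1 | h1, h2⟩
      · exact ⟨h1, h2⟩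
      · exact ⟨hI₁ (hmem₂ x h1 (by omega)), h2⟩
    · rintro ⟨h1, h2⟩
      exact ⟨Or.inl h1, h2⟩
  have hhigh : ∀ k, s ≤ k → cnt g (J₁ ∪ J₂) k = cnt g J₁ s + cnt g J₂ k := by
    intro k hk
    have h1 : (J₁ ∪ J₂) ∩ {x | g x < k} = (J₁ ∩ {x | g x < s}) ∪ (J₂ ∩ {x | g x < k}) := by
      ext x
      simp only [mem_inter_iff, mem_union, mem_ofPred_eq]
      constructor
      · rintro ⟨h1 | h1, h2⟩
        · rcases Nat.lt_or_ge (g x) s with h3 | h3
          · exact Or.inl ⟨h1, h3⟩
          · exact Or.inr ⟨hI₂ (hmem₁ x h1 h3), h2⟩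
        · exact Or.inr ⟨h1, h2⟩
      · rintro (⟨h1, h2⟩ | ⟨h1, h2⟩)
        · exact ⟨Or.inl h1, by omega⟩
        · exact ⟨Or.inr h1, h2⟩
    rw [cnt, h1, ncard_union_eq _ (hf₁.inter_of_left _) (hf₂.inter_of_left _), cnt, cnt]
    rw [Set.disjoint_left]
    rintro x ⟨_, h2⟩ ⟨h3, _⟩
    have := (hin₂ x h3).1
    simp only [mem_ofPred_eq] at h2
    omega
  have h2s : cnt g J₂ s = 0 := cnt_of_le fun x hx => (hin₂ x hx).1
  rw [h.ind _ (union_subset hE₁ hE₂)]
  intro a b hab hbn
  rcases Nat.le_total b t with h1 | h1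
  · rw [hlow a (by omega), hlow b h1]
    exact hc₁ a b hab hbn
  rcases Nat.le_total s a with h2 | h2
  · rw [hhigh a h2, hhigh b (by omega)]
    have := hc₂ a b hab hbn
    omega
  · rw [hlow a (by omega), hhigh b (by omega)]
    have e1 := hc₁ a t (by omega) htn
    have e2 := hc₂ s b (by omega) hbn
    have e3 := hlow t le_rfl
    have e4 := hhigh t (by omega)
    have e5 := cnt_split (g := g) hf₂ (show s ≤ t by omega)
    rw [hm₂] at e5
    omega

end LP

end Pool.Agent.H315R3.LPM
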