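import Pool.Agent.H315R3.LPMSuff2
import Pool.Agent.H315R3.LPMGood

/-!
# Lattice path matroids satisfy `Psi`; the characterisation
-/

namespace Pool.Agent.H315R3.LPM

open Set

universe u

variable {α : Type u}

namespace LP

variable {M : Matroid α} [M.Finite] {n : ℕ} {l u : ℕ → ℕ} {g : α → ℕ}

lemma good_cell (h : LP M n l u g) {p q : ℕ} (hpq : p < q) (hqn : q ≤ n) (hp : l p = u p)
    (hq : l q = u q) (hlt : ∀ j, p < j → j < q → l j < u j) {K : Set α}
    (hK : K = {x | x ∈ M.E ∧ p ≤ g x ∧ g x < q}) :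
    ∃ a, a ∈ M.E ∧ ∃ z, z ∈ M.E ∧ Good M K {a} {z} := by
  have hKE : K ⊆ M.E := by rw [hK]; exact fun x hx => hx.1
  have hKm : ∀ x, x ∈ K ↔ x ∈ M.E ∧ p ≤ g x ∧ g x < q := fun x => by rw [hK]; rfl
  rcases Nat.lt_or_ge (p + 1) q with hpq1 | hpq1
  swap
  · -- singleton component
    have hq1 : q = p + 1 := by omega
    obtain ⟨a, haE, hap⟩ := h.surj p (by omega)
    have haK : a ∈ K := (hKm a).2 ⟨haE, by omega, by omega⟩
    have hKa : ∀ x ∈ K, x = a := fun x hx => by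
      have h1 := (hKm x).1 hx
      exact h.inj h1.1 haE (by omega)
    have hF : ∀ F, IsF M K F → a ∈ F := by
      rintro F ⟨C, hCE, hC, hCK, rfl⟩
      refine ⟨?_, haK⟩
      obtain ⟨c, hc⟩ := hC.nonempty
      rw [← hKa c (hCK hc)]
      exact M.mem_closure_of_mem hc hCE
    refine ⟨a, haE, a, haE, singleton_subset_iff.2 haK, singleton_subset_iff.2 haK,
      fun F _ hFF => ⟨fun _ _ x hx => by rw [hKa x hx]; exact hF F hFF,
        fun hcon => absurd (singleton_subset_iff.2 (hF F hFF)) hcon, fun F' _ hFF' =>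
        ⟨fun _ hcon => absurd (singleton_subset_iff.2 (hF F hFF)) hcon,
          fun _ hcon => absurd (singleton_subset_iff.2 (hF F hFF)) hcon,
          fun _ hcon => absurd (singleton_subset_iff.2 (hF F hFF)) hcon⟩⟩⟩
  -- elements of `K` are not loops
  have hnl : ∀ y ∈ K, M.Indep {y} := by
    intro y hy
    have h1 := (hKm y).1 hy
    rw [h.ind _ (singleton_subset_iff.2 h1.1)]
    intro a b hab hbn
    rw [cnt_singleton, cnt_singleton]
    have e1 := h.le a
    have e2 := h.u_mono hab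
    by_cases hab' : a ≤ g y ∧ g y < b
    · rw [if_pos hab'.2, if_neg (not_lt.2 hab'.1)]
      rcases Nat.lt_or_ge p (g y) with h2 | h2
      · have e3 := hlt (g y) h2 h1.2.2
        have e4 := h.l_mono hab'.1
        have e5 := h.u_mono (show g y ≤ b by omega)
        omega
      · have e3 := hlt (g y + 1) (by omega) (by omega)
        have e4 := h.l_mono (show a ≤ g y + 1 by omega)
        have e5 := h.u_mono (show g y + 1 ≤ b by omega)
        omega
    · split_ifs <;> omega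
  obtain ⟨a, haE, hap⟩ := h.surj p (by omega)
  obtain ⟨z, hzE, hzq⟩ := h.surj (q - 1) (by omega)
  have haK : a ∈ K := (hKm a).2 ⟨haE, by omega, by omega⟩
  have hzK : z ∈ K := (hKm z).2 ⟨hzE, by omega, by omega⟩
  -- the traces of closures of circuits
  have htrace : ∀ (C : Set α) (s t : ℕ), M.IsCircuit C → t ≤ n →
      (∀ x ∈ C, s ≤ g x ∧ g x < t) → l s + C.ncard = u t + 1 →
      ∃ s' t', s' ≤ s ∧ t ≤ t' ∧ t' ≤ n ∧ l s' = l s ∧ u t' = u t ∧ (∀ j < s', l j < l s) ∧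
        (∀ j, t' < j → j ≤ n → u t < u j) ∧
        ∀ x, x ∈ M.closure C ∩ K ↔ x ∈ K ∧ s' ≤ g x ∧ g x < t' := by
    intro C s t hC htn hin hcard
    obtain ⟨s', hs1, hs2, hs3⟩ := exists_left s l (fun j hj => h.l_mono hj)
    obtain ⟨t', ht1, ht2, ht3, ht4⟩ := exists_right t n htn u (fun j hj => h.u_mono hj)
    refine ⟨s', t', hs1, ht1, ht2, hs2, ht3, hs3, ht4, fun x => ?_⟩
    constructor
    · rintro ⟨h1, h2⟩
      exact ⟨h2, (h.mem_closure_circ hC ht2 hs1 ht1 hin hcard hs2 ht3 hs3 ht4 (hKE h2)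
        (hnl x h2)).1 h1⟩
    · rintro ⟨h1, h2⟩
      exact ⟨(h.mem_closure_circ hC ht2 hs1 ht1 hin hcard hs2 ht3 hs3 ht4 (hKE h1)
        (hnl x h1)).2 h2, h1⟩
  have hF : ∀ F, IsF M K F → ∃ C s t, M.IsCircuit C ∧ C ⊆ K ∧ t ≤ n ∧
      (∀ x ∈ C, s ≤ g x ∧ g x < t) ∧ l s + C.ncard = u t + 1 ∧
      (∀ j < s, l j < l s) ∧ (∀ j, t < j → j ≤ n → u t < u j) ∧
      ∀ x, x ∈ F ↔ x ∈ K ∧ s ≤ g x ∧ g x < t := by
    rintro F ⟨C, hCE, hC, hCK, rfl⟩
    obtain ⟨s, t, hst, htn, hin, hcard⟩ := h.circ_struct hC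
    obtain ⟨s', t', hs1, ht1, ht2, hs2, ht3, hs3, ht4, hx⟩ := htrace C s t hC htn hin hcard
    refine ⟨C, s', t', hC, hCK, ht2, fun x hx' => ?_, by omega, fun j hj => ?_,
      fun j hj hjn => ?_, hx⟩
    · have := hin x hx'
      omega
    · have := hs3 j hj
      omega
    · have := ht4 j hj hjn
      omega
  refine ⟨a, haE, z, hzE, singleton_subset_iff.2 haK, singleton_subset_iff.2 hzK,
    fun F hFE hFF => ?_⟩
  simp only [singleton_subset_iff]
  obtain ⟨C, s, t, hC, hCK, htn, hin, hcard, hsmin, htmax, hFm⟩ := hF F hFF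
  have haF : a ∈ F ↔ s ≤ p ∧ p < t := by
    rw [hFm, hap]
    exact ⟨fun h' => h'.2, fun h' => ⟨haK, h'⟩⟩
  have hzF : z ∈ F ↔ s ≤ q - 1 ∧ q - 1 < t := by
    rw [hFm, hzq]
    exact ⟨fun h' => h'.2, fun h' => ⟨hzK, h'⟩⟩
  obtain ⟨c, hc⟩ := hC.nonempty
  have hcin := hin c hc
  have hcK := (hKm c).1 (hCK hc)
  refine ⟨fun h1 h2 x hx => ?_, fun h1 h2 => ?_, fun F' hF'E hFF' => ?_⟩
  · rw [haF] at h1
    rw [hzF] at h2
    rw [hFm]
    have := (hKm x).1 hx
    exact ⟨hx, by omega, by omega⟩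
  · rw [haF] at h1
    rw [hzF] at h2
    have hps : p < s := by omega
    have htq : t < q := by omega
    have hst : s < t := by omega
    obtain ⟨D₁, hD₁, hin₁, hcard₁⟩ := h.left_circuit hqn hp hlt hps hst htq hC hin hcard
    obtain ⟨D₂, hD₂, hin₂, hcard₂⟩ := h.right_circuit hqn hq hlt hps hst htq hC hin hcard
    obtain ⟨s₁, t₁, hs₁1, ht₁1, ht₁2, hs₁2, ht₁3, hs₁3, ht₁4, hx₁⟩ :=
      htrace D₁ p t hD₁ htn hin₁ hcard₁
    obtain ⟨s₂, t₂, hs₂1, ht₂1, ht₂2, hs₂2, ht₂3, hs₂3, ht₂4, hx₂⟩ :=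
      htrace D₂ s q hD₂ hqn hin₂ hcard₂
    have ht₁ : t₁ = t := by
      by_contra hcon
      have := htmax t₁ (by omega) ht₁2
      omega
    have hs₂ : s₂ = s := by
      by_contra hcon
      have := hsmin s₂ (by omega)
      omega
    have hF₁ : ∀ x, x ∈ M.closure D₁ ∩ K ↔ x ∈ K ∧ g x < t := by
      intro x
      rw [hx₁]
      constructor
      · rintro ⟨h3, h4, h5⟩
        exact ⟨h3, by omega⟩
      · rintro ⟨h3, h4⟩
        have := (hKm x).1 h3
        exact ⟨h3, by omega, by omega⟩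
    have hF₂ : ∀ x, x ∈ M.closure D₂ ∩ K ↔ x ∈ K ∧ s ≤ g x := by
      intro x
      rw [hx₂]
      constructor
      · rintro ⟨h3, h4, h5⟩
        exact ⟨h3, by omega⟩
      · rintro ⟨h3, h4⟩
        have := (hKm x).1 h3
        exact ⟨h3, by omega, by omega⟩
    have hDK₁ : D₁ ⊆ K := fun x hx => by
      have := hin₁ x hx
      exact (hKm x).2 ⟨hD₁.subset_ground hx, by omega, by omega⟩
    have hDK₂ : D₂ ⊆ K := fun x hx => by
      have := hin₂ x hx
      exact (hKm x).2 ⟨hD₂.subset_ground hx, by omega, by omega⟩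
    obtain ⟨F₁, hF₁e⟩ : ∃ F₁, F₁ = M.closure D₁ ∩ K := ⟨_, rfl⟩
    obtain ⟨F₂, hF₂e⟩ : ∃ F₂, F₂ = M.closure D₂ ∩ K := ⟨_, rfl⟩
    rw [← hF₁e] at hF₁
    rw [← hF₂e] at hF₂
    have hF₁E : F₁ ⊆ M.E := fun x hx => hKE ((hF₁ x).1 hx).1
    have hF₂E : F₂ ⊆ M.E := fun x hx => hKE ((hF₂ x).1 hx).1
    have hI := hC.sdiff_singleton_indep hc
    have hIn : (C \ {c}).ncard + 1 = C.ncard :=
      ncard_sdiff_singleton_add_one hc (M.set_finite C hC.subset_ground)
    have hIF₁ : C \ {c} ⊆ F₁ := fun x hx => by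
      have := hin x hx.1
      exact (hF₁ x).2 ⟨hCK hx.1, by omega⟩
    have hIF₂ : C \ {c} ⊆ F₂ := fun x hx => by
      have := hin x hx.1
      exact (hF₂ x).2 ⟨hCK hx.1, by omega⟩
    obtain ⟨J₁, hJ₁, hIJ₁⟩ := hI.subset_isBasis_of_subset hIF₁ hF₁E
    obtain ⟨J₂, hJ₂, hIJ₂⟩ := hI.subset_isBasis_of_subset hIF₂ hF₂E
    have hJ : M.Indep (J₁ ∪ J₂) := by
      apply h.indep_union hst htn (I := C \ {c}) (q := q) (by omega) (fun x hx => hin x hx.1)
        hIJ₁ hIJ₂ hJ₁.indep hJ₂.indep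
      · intro x hx
        exact ((hF₁ x).1 (hJ₁.subset hx)).2
      · intro x hx
        have h3 := (hF₂ x).1 (hJ₂.subset hx)
        exact ⟨h3.2, ((hKm x).1 h3.1).2.2⟩
    refine ⟨F₁, hF₁E, F₂, hF₂E, ⟨D₁, hD₁.subset_ground, hD₁, hDK₁, hF₁e⟩,
      ⟨D₂, hD₂.subset_ground, hD₂, hDK₂, hF₂e⟩, ?_, ?_, ?_, ?_, ?_, ?_,
      J₁, hJ₁.indep.subset_ground, J₂, hJ₂.indep.subset_ground, J₁ ∪ J₂, hJ.subset_ground,
      hJ₁, hJ₂, subset_union_left, subset_union_right, hJ⟩
    · rw [singleton_subset_iff, hF₁]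
      exact ⟨haK, by omega⟩
    · rw [singleton_subset_iff, hF₁]
      rintro ⟨_, h3⟩
      omega
    · rw [singleton_subset_iff, hF₂]
      exact ⟨hzK, by omega⟩
    · rw [singleton_subset_iff, hF₂]
      rintro ⟨_, h3⟩
      omega
    · ext x
      rw [mem_inter_iff, hFm, hF₁, hF₂]
      constructor
      · rintro ⟨h3, h4, h5⟩
        exact ⟨⟨h3, h5⟩, h3, h4⟩
      · rintro ⟨⟨h3, h5⟩, _, h4⟩
        exact ⟨h3, h4, h5⟩
    · ext x
      rw [mem_union, hF₁, hF₂]
      constructor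
      · intro h3
        rcases Nat.lt_or_ge (g x) t with h4 | h4
        · exact Or.inl ⟨h3, h4⟩
        · exact Or.inr ⟨h3, by omega⟩
      · rintro (h3 | h3) <;> exact h3.1
  · obtain ⟨C', s', t', hC', hCK', htn', hin', hcard', hsmin', htmax', hFm'⟩ := hF F' hFF'
    have haF' : a ∈ F' ↔ s' ≤ p ∧ p < t' := by
      rw [hFm', hap]
      exact ⟨fun h' => h'.2, fun h' => ⟨haK, h'⟩⟩
    have hzF' : z ∈ F' ↔ s' ≤ q - 1 ∧ q - 1 < t' := by
      rw [hFm', hzq]
      exact ⟨fun h' => h'.2, fun h' => ⟨hzK, h'⟩⟩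
    rw [haF, haF', hzF, hzF']
    refine ⟨fun h1 h2 h3 h4 => ?_, fun h1 h2 h3 h4 => ?_, fun h1 h2 h3 h4 => ?_⟩
    · rcases Nat.le_total t t' with h5 | h5
      · left
        intro x hx
        rw [hFm] at hx
        rw [hFm']
        have := (hKm x).1 hx.1
        exact ⟨hx.1, by omega, by omega⟩
      · right
        intro x hx
        rw [hFm'] at hx
        rw [hFm]
        have := (hKm x).1 hx.1
        exact ⟨hx.1, by omega, by omega⟩
    · rcases Nat.le_total s s' with h5 | h5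
      · right
        intro x hx
        rw [hFm'] at hx
        rw [hFm]
        have := (hKm x).1 hx.1
        exact ⟨hx.1, by omega, by omega⟩
      · left
        intro x hx
        rw [hFm] at hx
        rw [hFm']
        have := (hKm x).1 hx.1
        exact ⟨hx.1, by omega, by omega⟩
    · rcases Nat.lt_or_ge s' t with h5 | h5
      · right
        ext x
        rw [mem_union, hFm, hFm']
        constructor
        · intro hx
          have := (hKm x).1 hx
          rcases Nat.lt_or_ge (g x) t with h6 | h6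
          · exact Or.inl ⟨hx, by omega, by omega⟩
          · exact Or.inr ⟨hx, by omega, by omega⟩
        · rintro (h6 | h6) <;> exact h6.1
      · left
        ext x
        rw [mem_inter_iff, hFm, hFm']
        simp only [mem_empty_iff_false, iff_false]
        rintro ⟨⟨_, _, _⟩, _, _, _⟩
        omega

end LP

theorem psi_of_lpm {M : Matroid α} [M.Finite] (hM : IsLatticePathMatroid M) : Psi M := by
  obtain ⟨n, l, u, g, h⟩ := exists_LP hM
  intro K hKE hK
  obtain ⟨p, q, hpq, hqn, hp, hq, hlt, hKeq⟩ := h.comp_eq_cell hKE hK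
  exact h.good_cell hpq hqn hp hq hlt hKeq

/-- `Psi` characterises lattice path matroids among finite matroids. -/
theorem psi_iff_lpm {M : Matroid α} [M.Finite] : Psi M ↔ IsLatticePathMatroid M :=
  ⟨lpm_of_psi, psi_of_lpm⟩

end Pool.Agent.H315R3.LPM
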