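import Pool.Agent.H315R3.LPMCount

/-!
# Circuits, closures and components of lattice path matroids
-/

namespace Pool.Agent.H315R3.LPM

open Set

universe u

variable {α : Type u}

namespace LP

variable {M : Matroid α} [M.Finite] {n : ℕ} {l u : ℕ → ℕ} {g : α → ℕ}

omit [M.Finite] in
lemma l_mono (h : LP M n l u g) {s t : ℕ} (hst : s ≤ t) : l s ≤ l t := by
  induction t, hst using Nat.le_induction with
  | base => exact le_rfl
  | succ t _ ih => rcases h.ls t with h1 | h1 <;> omega

omit [M.Finite] in
lemma u_mono (h : LP M n l u g) {s t : ℕ} (hst : s ≤ t) : u s ≤ u t := by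
  induction t, hst using Nat.le_induction with
  | base => exact le_rfl
  | succ t _ ih => rcases h.us t with h1 | h1 <;> omega

lemma circ_struct (h : LP M n l u g) {C : Set α} (hC : M.IsCircuit C) :
    ∃ s t, s < t ∧ t ≤ n ∧ (∀ x ∈ C, s ≤ g x ∧ g x < t) ∧ l s + C.ncard = u t + 1 := by
  have hCE := hC.subset_ground
  have hfin : C.Finite := M.set_finite C hCE
  have h1 := hC.not_indep
  rw [h.ind C hCE] at h1
  push Not at h1
  obtain ⟨s, t, hst, htn, hlt⟩ := h1
  have h2 : ¬ M.Indep (C ∩ {x | s ≤ g x ∧ g x < t}) := by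
    rw [h.ind _ (inter_subset_left.trans hCE)]
    push Not
    refine ⟨s, t, hst, htn, ?_⟩
    rw [cnt_of_le (k := s) (A := C ∩ {x | s ≤ g x ∧ g x < t}) (fun x hx => hx.2.1),
      cnt_of_lt (k := t) (A := C ∩ {x | s ≤ g x ∧ g x < t}) (fun x hx => hx.2.2)]
    have := cnt_split (g := g) hfin hst
    omega
  have h3 := hC.eq_of_not_indep_subset h2 inter_subset_left
  have h4 : ∀ x ∈ C, s ≤ g x ∧ g x < t := fun x hx => by
    rw [← h3] at hx
    exact hx.2
  obtain ⟨c, hc⟩ := hC.nonempty
  have h5 := hC.sdiff_singleton_indep hc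
  rw [h.ind _ (sdiff_subset.trans hCE)] at h5
  have h6 := h5 s t hst htn
  rw [cnt_of_le (fun x hx => (h4 x hx.1).1), cnt_of_lt (fun x hx => (h4 x hx.1).2)] at h6
  rw [cnt_of_le (fun x hx => (h4 x hx).1), cnt_of_lt (fun x hx => (h4 x hx).2)] at hlt
  have h7 : (C \ {c}).ncard + 1 = C.ncard := ncard_sdiff_singleton_add_one hc hfin
  refine ⟨s, t, ?_, htn, h4, by omega⟩
  have := h4 c hc
  omega

/-- closures of circuits are intervals -/
lemma mem_closure_circ (h : LP M n l u g) {C : Set α} (hC : M.IsCircuit C) {s t s' t' : ℕ}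
    (htn : t' ≤ n) (hs : s' ≤ s) (ht : t ≤ t') (hin : ∀ x ∈ C, s ≤ g x ∧ g x < t)
    (hcard : l s + C.ncard = u t + 1) (hs' : l s' = l s) (ht' : u t' = u t)
    (hsmin : ∀ j < s', l j < l s) (htmax : ∀ j, t' < j → j ≤ n → u t < u j)
    {x : α} (hx : x ∈ M.E) (hxn : M.Indep {x}) :
    x ∈ M.closure C ↔ s' ≤ g x ∧ g x < t' := by
  have hCE := hC.subset_ground
  have hfin : C.Finite := M.set_finite C hCE
  obtain ⟨c, hc⟩ := hC.nonempty
  have hI := hC.sdiff_singleton_indep hc
  have hIfin : (C \ {c}).Finite := hfin.subset sdiff_subset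
  have hIE : C \ {c} ⊆ M.E := sdiff_subset.trans hCE
  have hst : s < t := by have := hin c hc; omega
  have h7 : (C \ {c}).ncard + 1 = C.ncard := ncard_sdiff_singleton_add_one hc hfin
  have hIn : ∀ y ∈ C \ {c}, s ≤ g y ∧ g y < t := fun y hy => hin y hy.1
  have hIc := hI
  rw [h.ind _ hIE] at hIc
  have hxc := hxn
  rw [h.ind _ (singleton_subset_iff.2 hx)] at hxc
  simp only [cnt_singleton] at hxc
  by_cases hxC : x ∈ C
  · refine ⟨fun _ => ?_, fun _ => M.mem_closure_of_mem hxC hCE⟩
    have := hin x hxC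
    omega
  have hxI : x ∉ C \ {c} := fun h' => hxC h'.1
  rw [← hC.closure_sdiff_singleton_eq c, hI.mem_closure_iff]
  have hdep : M.Dep (insert x (C \ {c})) ↔ ¬ M.Indep (insert x (C \ {c})) :=
    ⟨fun h' => h'.not_indep, fun h' => ⟨h', insert_subset hx hIE⟩⟩
  rw [hdep, h.ind _ (insert_subset hx hIE)]
  simp only [cnt_insert hIfin hxI]
  constructor
  · rintro (hcon | hcon)
    swap
    · exact absurd hcon hxI
    push Not at hcon
    obtain ⟨a, b, hab, hbn, hlt⟩ := hcon
    have e1 := hIc a b hab hbn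
    have e2 := hxc a b hab hbn
    by_contra hout
    have hcs : cnt g (C \ {c}) s = 0 := cnt_of_le fun y hy => (hIn y hy).1
    have hct : cnt g (C \ {c}) t = (C \ {c}).ncard := cnt_of_lt fun y hy => (hIn y hy).2
    have hax : a ≤ g x ∧ g x < b := by
      by_contra hcon
      have : (if g x < b then 1 else 0) = (if g x < a then 1 else 0) := by
        split_ifs <;> omega
      omega
    rw [if_pos hax.2, if_neg (not_lt.2 hax.1)] at hlt e2
    rcases Nat.lt_or_ge (g x) s' with h1 | h1
    · -- `x` is to the left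
      have hca : cnt g (C \ {c}) a = 0 := cnt_of_le fun y hy => by
        have := (hIn y hy).1
        omega
      rcases Nat.le_total s b with h2 | h2
      · have e3 := hIc s b h2 hbn
        have e4 := hsmin a (by omega)
        omega
      · have hcb : cnt g (C \ {c}) b = 0 := cnt_of_le fun y hy => by
          have := (hIn y hy).1
          omega
        omega
    · -- `x` is to the right
      have h2 : t' ≤ g x := by omega
      have hcb : cnt g (C \ {c}) b = (C \ {c}).ncard := cnt_of_lt fun y hy => by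
        have := (hIn y hy).2
        omega
      rcases Nat.le_total a t with h3 | h3
      · have e3 := hIc a t h3 (by omega)
        have e4 := htmax b (by omega) hbn
        omega
      · have hca : cnt g (C \ {c}) a = (C \ {c}).ncard := cnt_of_lt fun y hy => by
          have := (hIn y hy).2
          omega
        omega
  · rintro ⟨h1, h2⟩
    left
    push Not
    refine ⟨s', t', by omega, htn, ?_⟩
    have hcs : cnt g (C \ {c}) s' = 0 := cnt_of_le fun y hy => by
      have := (hIn y hy).1
      omega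
    have hct : cnt g (C \ {c}) t' = (C \ {c}).ncard := cnt_of_lt fun y hy => by
      have := (hIn y hy).2
      omega
    rw [hcs, hct, if_pos h2, if_neg (not_lt.2 h1)]
    omega

/-- a point where the two paths meet cuts no circuit -/
lemma sep_cut (h : LP M n l u g) {p : ℕ} (hp : l p = u p) {C : Set α} (hC : M.IsCircuit C) :
    (∀ x ∈ C, g x < p) ∨ (∀ x ∈ C, p ≤ g x) := by
  by_contra hcon
  push Not at hcon
  obtain ⟨⟨y, hy, hyp⟩, ⟨x, hx, hxp⟩⟩ := hcon
  have hCE := hC.subset_ground
  have hfin : C.Finite := M.set_finite C hCE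
  obtain ⟨s, t, hst, htn, hin, hcard⟩ := h.circ_struct hC
  have hx' := hin x hx
  have hy' := hin y hy
  have h1 : M.Indep (C ∩ {x | g x < p}) := by
    apply hC.ssubset_indep
    refine ⟨inter_subset_left, fun h' => ?_⟩
    have := (h' hy).2
    simp only [mem_ofPred_eq] at this
    omega
  have h2 : M.Indep (C ∩ {x | p ≤ g x}) := by
    apply hC.ssubset_indep
    refine ⟨inter_subset_left, fun h' => ?_⟩
    have := (h' hx).2
    simp only [mem_ofPred_eq] at this
    omega
  rw [h.ind _ (inter_subset_left.trans hCE)] at h1 h2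
  have e1 := h1 s p (by omega) (by omega)
  have e2 := h2 p t (by omega) htn
  rw [cnt_of_le (k := s) (fun x hx => (hin x hx.1).1), cnt_of_lt (k := p) (fun x hx => hx.2)] at e1
  rw [cnt_of_le (k := p) (fun x hx => hx.2), cnt_of_lt (k := t) (fun x hx => (hin x hx.1).2)] at e2
  have e3 : (C ∩ {x | g x < p}).ncard + (C ∩ {x | p ≤ g x}).ncard = C.ncard := by
    rw [← ncard_union_eq _ (hfin.inter_of_left _) (hfin.inter_of_left _)]
    · congr 1
      ext z
      simp only [mem_union, mem_inter_iff, mem_ofPred_eq]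
      constructor
      · rintro (h' | h') <;> exact h'.1
      · intro hz
        rcases Nat.lt_or_ge (g z) p with h' | h'
        · exact Or.inl ⟨hz, h'⟩
        · exact Or.inr ⟨hz, h'⟩
    · rw [Set.disjoint_left]
      rintro z ⟨_, h1⟩ ⟨_, h2⟩
      simp only [mem_ofPred_eq] at h1 h2
      omega
  omega

lemma cnt_incr (h : LP M n l u g) {f : ℕ → ℕ} (h0 : f 0 = 0)
    (hs : ∀ k < n, f (k + 1) = f k ∨ f (k + 1) = f k + 1) {k : ℕ} (hk : k ≤ n) :
    cnt g (incr M g f) k = f k := cnt_incr' h.inj h.surj h0 hs hk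

/-- a path between the two paths gives an independent set -/
lemma indep_incr (h : LP M n l u g) {f : ℕ → ℕ} (h0 : f 0 = 0)
    (hs : ∀ k < n, f (k + 1) = f k ∨ f (k + 1) = f k + 1) (hl : ∀ k ≤ n, l k ≤ f k)
    (hu : ∀ k ≤ n, f k ≤ u k) : M.Indep (incr M g f) := by
  rw [h.ind _ (incr_subset f)]
  intro s t hst htn
  rw [h.cnt_incr h0 hs htn, h.cnt_incr h0 hs (hst.trans htn)]
  have := hl s (hst.trans htn)
  have := hu t htn
  omega

/-- consecutive elements of a cell lie in a common circuit -/
lemma exists_circ_adj (h : LP M n l u g) {x y : α} (hx : x ∈ M.E) (hy : y ∈ M.E)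
    (hxy : g y = g x + 1) (hlu : l (g x + 1) < u (g x + 1)) :
    ∃ C, M.IsCircuit C ∧ x ∈ C ∧ y ∈ C := by
  obtain ⟨j, hj⟩ : ∃ j, j = g x := ⟨_, rfl⟩
  rw [← hj] at hxy hlu
  have hjn : j + 1 < n := by rw [← hxy]; exact h.lt y hy
  obtain ⟨h0, hh0⟩ : ∃ h0, h0 = l (j + 1) := ⟨_, rfl⟩
  -- the two paths
  set f₁ : ℕ → ℕ := fun k => if k ≤ j then min (u k) h0 else max (l k) (h0 + 1) with hf₁
  set f₂ : ℕ → ℕ := fun k => if k ≤ j + 1 then min (u k) h0 else max (l k) (h0 + 1) with hf₂
  have hlj := h.ls j
  have huj := h.us j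
  have hlj1 := h.ls (j + 1)
  have huj1 := h.us (j + 1)
  have h10 : f₁ 0 = 0 := by simp [hf₁, h.u0]
  have h20 : f₂ 0 = 0 := by simp [hf₂, h.u0]
  have hn1 : h0 + 1 ≤ u n := by have := h.u_mono (show j + 1 ≤ n by omega); omega
  have h1s : ∀ k < n, f₁ (k + 1) = f₁ k ∨ f₁ (k + 1) = f₁ k + 1 := by
    intro k _
    simp only [hf₁]
    have e1 := h.ls k
    have e2 := h.us k
    have e3 := h.le k
    rcases Nat.lt_trichotomy k j with hk | hk | hk
    · rw [if_pos (by omega), if_pos (by omega)]
      omega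
    · subst hk
      rw [if_neg (by omega), if_pos (by omega)]
      omega
    · rw [if_neg (by omega), if_neg (by omega)]
      omega
  have h2s : ∀ k < n, f₂ (k + 1) = f₂ k ∨ f₂ (k + 1) = f₂ k + 1 := by
    intro k _
    simp only [hf₂]
    have e1 := h.ls k
    have e2 := h.us k
    have e3 := h.le k
    rcases Nat.lt_trichotomy k (j + 1) with hk | hk | hk
    · rw [if_pos (by omega), if_pos (by omega)]
      omega
    · subst hk
      rw [if_neg (by omega), if_pos (by omega)]
      omega
    · rw [if_neg (by omega), if_neg (by omega)]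
      omega
  have h1b : ∀ k ≤ n, l k ≤ f₁ k ∧ f₁ k ≤ u k := by
    intro k hk
    simp only [hf₁]
    have e3 := h.le k
    split_ifs with hkj
    · have e4 := h.l_mono (show k ≤ j + 1 by omega)
      omega
    · have e4 := h.u_mono (show j + 1 ≤ k by omega)
      omega
  have h2b : ∀ k ≤ n, l k ≤ f₂ k ∧ f₂ k ≤ u k := by
    intro k hk
    simp only [hf₂]
    have e3 := h.le k
    split_ifs with hkj
    · have e4 := h.l_mono (show k ≤ j + 1 by omega)
      omega
    · have e4 := h.u_mono (show j + 1 ≤ k by omega)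
      omega
  set B₁ := incr M g f₁ with hB₁
  set B₂ := incr M g f₂ with hB₂
  have hI₁ : M.Indep B₁ := h.indep_incr h10 h1s (fun k hk => (h1b k hk).1) (fun k hk => (h1b k hk).2)
  have hI₂ : M.Indep B₂ := h.indep_incr h20 h2s (fun k hk => (h2b k hk).1) (fun k hk => (h2b k hk).2)
  have hyx : y ≠ x := by rintro rfl; omega
  have hyB₁ : y ∉ B₁ := by
    rintro ⟨_, h'⟩
    rw [hxy] at h'
    simp only [hf₁] at h'
    rw [if_neg (by omega), if_neg (by omega)] at h'
    omega
  -- `insert y B₁` is dependent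
  have hdep : M.Dep (insert y B₁) := by
    refine ⟨?_, insert_subset hy (incr_subset _)⟩
    rw [h.ind _ (insert_subset hy (incr_subset _))]
    push Not
    refine ⟨0, n, Nat.zero_le _, le_rfl, ?_⟩
    rw [cnt_zero, cnt_insert hI₁.finite hyB₁, h.cnt_incr h10 h1s le_rfl, if_pos (h.lt y hy), h.l0]
    simp only [hf₁]
    rw [if_neg (by omega), h.eq]
    omega
  obtain ⟨C, hCsub, hC⟩ := hdep.exists_isCircuit_subset
  refine ⟨C, hC, ?_, ?_⟩
  · by_contra hxC
    apply hC.not_indep
    refine hI₂.subset fun z hz => ?_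
    rcases hCsub hz with h' | h'
    · rw [h']
      refine ⟨hy, ?_⟩
      rw [hxy]
      simp only [hf₂]
      rw [if_neg (by omega), if_pos (by omega)]
      omega
    · refine ⟨h'.1, ?_⟩
      have hzx : g z ≠ j := fun h2 => hxC (by rw [← h.inj h'.1 hx (h2.trans hj)]; exact hz)
      have h3 := h'.2
      simp only [hf₁] at h3
      simp only [hf₂]
      rcases Nat.lt_trichotomy (g z) j with hk | hk | hk
      · rw [if_pos (by omega), if_pos (by omega)] at h3 ⊢
        exact h3
      · exact absurd hk hzx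
      · rw [if_neg (by omega), if_neg (by omega)] at h3
        rw [if_neg (by omega)]
        split_ifs
        · have : g z = j + 1 := by omega
          rw [this] at h3 ⊢
          omega
        · exact h3
  · by_contra hyC
    apply hC.not_indep
    refine hI₁.subset fun z hz => ?_
    rcases hCsub hz with h' | h'
    · rw [h'] at hz
      exact absurd hz hyC
    · exact h'

/-- every component is a cell -/
lemma comp_eq_cell (h : LP M n l u g) {K : Set α} (hKE : K ⊆ M.E) (hK : IsComp M K) :
    ∃ p q, p < q ∧ q ≤ n ∧ l p = u p ∧ l q = u q ∧ (∀ j, p < j → j < q → l j < u j) ∧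
      K = {x | x ∈ M.E ∧ p ≤ g x ∧ g x < q} := by
  classical
  obtain ⟨hne, hsep, hmin⟩ := hK
  obtain ⟨x, hx⟩ := nonempty_iff_ne_empty.2 hne
  have hxE := hKE hx
  have hxn := h.lt x hxE
  -- the cell of `x`
  obtain ⟨p, hp1, hp2, hp3⟩ : ∃ p, p ≤ g x ∧ l p = u p ∧ ∀ j, p < j → j ≤ g x → l j < u j := by
    have hP : ∃ j, j ≤ g x ∧ l j = u j := ⟨0, Nat.zero_le _, by rw [h.l0, h.u0]⟩
    refine ⟨Nat.findGreatest (fun j => l j = u j) (g x), Nat.findGreatest_le _, ?_, ?_⟩
    · exact Nat.findGreatest_spec (P := fun j => l j = u j) hP.choose_spec.1 hP.choose_spec.2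
    · intro j hj1 hj2
      have h1 := Nat.findGreatest_is_greatest (P := fun j => l j = u j) hj1 hj2
      exact lt_of_le_of_ne (h.le j) h1
  obtain ⟨q, hq1, hq2, hq3, hq4⟩ :
      ∃ q, g x < q ∧ q ≤ n ∧ l q = u q ∧ ∀ j, g x < j → j < q → l j < u j := by
    have hQ : ∃ j, g x < j ∧ l j = u j := ⟨n, hxn, h.eq⟩
    refine ⟨Nat.find hQ, (Nat.find_spec hQ).1, ?_, (Nat.find_spec hQ).2, ?_⟩
    · exact Nat.find_min' hQ ⟨hxn, h.eq⟩
    · intro j hj1 hj2
      have h1 := Nat.find_min hQ hj2
      exact lt_of_le_of_ne (h.le j) (fun h2 => h1 ⟨hj1, h2⟩)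
  have hlt : ∀ j, p < j → j < q → l j < u j := by
    intro j h1 h2
    rcases Nat.lt_or_ge (g x) j with h3 | h3
    · exact hq4 j h3 h2
    · exact hp3 j h1 h3
  refine ⟨p, q, by omega, hq2, hp2, hq3, hlt, ?_⟩
  set Z : Set α := {x | x ∈ M.E ∧ p ≤ g x ∧ g x < q} with hZ
  apply Subset.antisymm
  · -- `K ∩ Z` is a separator
    have h1 : IsSep M (K ∩ Z) := by
      intro C hCE hC
      rcases hsep C hCE hC with h2 | h2
      · rcases h.sep_cut hp2 hC with h3 | h3
        · right
          ext z
          simp only [mem_inter_iff, mem_empty_iff_false, iff_false, not_and]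
          intro hz _ hzZ
          have := h3 z hz
          have := hzZ.2.1
          omega
        · rcases h.sep_cut hq3 hC with h4 | h4
          · left
            intro z hz
            exact ⟨h2 hz, hCE hz, h3 z hz, h4 z hz⟩
          · right
            ext z
            simp only [mem_inter_iff, mem_empty_iff_false, iff_false, not_and]
            intro hz _ hzZ
            have := h4 z hz
            have := hzZ.2.2
            omega
      · right
        rw [← subset_empty_iff, ← h2]
        exact inter_subset_inter_right _ inter_subset_left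
    have h2 := hmin (K ∩ Z) (inter_subset_left.trans hKE)
      (nonempty_iff_ne_empty.1 ⟨x, hx, hxE, hp1, hq1⟩) h1 inter_subset_left
    exact h2.trans inter_subset_right
  · have hadj : ∀ y z, y ∈ M.E → z ∈ M.E → g z = g y + 1 → l (g y + 1) < u (g y + 1) →
        (y ∈ K ↔ z ∈ K) := by
      intro y z hy hz hyz hlu
      obtain ⟨C, hC, hyC, hzC⟩ := h.exists_circ_adj hy hz hyz hlu
      rcases hsep C hC.subset_ground hC with h1 | h1
      · exact ⟨fun _ => h1 hzC, fun _ => h1 hyC⟩
      · constructor
        · intro h2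
          have : y ∈ C ∩ K := ⟨hyC, h2⟩
          rw [h1] at this
          exact absurd this (notMem_empty y)
        · intro h2
          have : z ∈ C ∩ K := ⟨hzC, h2⟩
          rw [h1] at this
          exact absurd this (notMem_empty z)
    have hup : ∀ j, g x ≤ j → j < q → ∀ y ∈ M.E, g y = j → y ∈ K := by
      intro j hj
      induction j, hj using Nat.le_induction with
      | base =>
        intro _ y hy hyx
        rw [h.inj hy hxE hyx]
        exact hx
      | succ j hj ih =>
        intro hjq y hy hyj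
        obtain ⟨w, hw, hwj⟩ := h.surj j (by omega)
        have h1 := ih (by omega) w hw hwj
        refine (hadj w y hw hy (by omega) ?_).1 h1
        rw [hwj]
        exact hlt (j + 1) (by omega) hjq
    have hdown : ∀ d j, j + d = g x → p ≤ j → ∀ y ∈ M.E, g y = j → y ∈ K := by
      intro d
      induction d with
      | zero =>
        intro j hj _ y hy hyj
        rw [h.inj hy hxE (by omega)]
        exact hx
      | succ d ih =>
        intro j hj hpj y hy hyj
        obtain ⟨w, hw, hwj⟩ := h.surj (j + 1) (by omega)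
        have h1 := ih (j + 1) (by omega) (by omega) w hw hwj
        refine (hadj y w hy hw (by omega) ?_).2 h1
        rw [hyj]
        exact hlt (j + 1) (by omega) (by omega)
    rintro y ⟨hyE, hy1, hy2⟩
    rcases Nat.le_total (g x) (g y) with h1 | h1
    · exact hup (g y) h1 hy2 y hyE rfl
    · exact hdown (g x - g y) (g y) (by omega) hy1 y hyE rfl

end LP

end Pool.Agent.H315R3.LPM
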