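import Pool.Agent.H315R3.LPMDefs

/-!
# Heights of lattice paths
-/

namespace Pool.Agent.H315R3.LPM

open Finset

lemma height_zero (R : Finset ℕ) : height R 0 = 0 := by
  simp [height]

lemma height_succ (R : Finset ℕ) (k : ℕ) :
    height R (k + 1) = height R k + (if k ∈ R then 1 else 0) := by
  unfold height
  split_ifs with h
  · have : R.filter (fun i => i < k + 1) = insert k (R.filter (fun i => i < k)) := by
      ext i
      simp only [mem_filter, mem_insert]
      constructor
      · rintro ⟨h1, h2⟩
        rcases Nat.lt_succ_iff_lt_or_eq.1 h2 with h3 | h3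
        · exact Or.inr ⟨h1, h3⟩
        · exact Or.inl h3
      · rintro (rfl | ⟨h1, h2⟩)
        · exact ⟨h, by omega⟩
        · exact ⟨h1, by omega⟩
    rw [this, card_insert_of_notMem (by simp)]
  · have : R.filter (fun i => i < k + 1) = R.filter (fun i => i < k) := by
      ext i
      simp only [mem_filter]
      constructor
      · rintro ⟨h1, h2⟩
        refine ⟨h1, ?_⟩
        rcases Nat.lt_succ_iff_lt_or_eq.1 h2 with h3 | h3
        · exact h3
        · exact absurd (h3 ▸ h1) h
      · rintro ⟨h1, h2⟩
        exact ⟨h1, by omega⟩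
    rw [this, Nat.add_zero]

lemma height_mono (R : Finset ℕ) {j k : ℕ} (h : j ≤ k) : height R j ≤ height R k := by
  unfold height
  apply card_le_card
  intro i
  simp only [mem_filter]
  rintro ⟨h1, h2⟩
  exact ⟨h1, by omega⟩

lemma height_le_add (R : Finset ℕ) {j k : ℕ} (h : j ≤ k) : height R k ≤ height R j + (k - j) := by
  induction k, h using Nat.le_induction with
  | base => simp
  | succ k hk ih =>
    rw [height_succ]
    split_ifs <;> omega

lemma height_of_le {n : ℕ} {R : Finset ℕ} (hR : R ⊆ range n) {k : ℕ} (hk : n ≤ k) :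
    height R k = R.card := by
  unfold height
  congr 1
  rw [filter_eq_self]
  intro i hi
  have := mem_range.1 (hR hi)
  omega

/-- the path with height function `h` -/
def pathOf (n : ℕ) (h : ℕ → ℕ) : Finset ℕ := (range n).filter (fun k => h (k + 1) = h k + 1)

lemma pathOf_subset (n : ℕ) (h : ℕ → ℕ) : pathOf n h ⊆ range n := filter_subset _ _

lemma height_pathOf {n : ℕ} {h : ℕ → ℕ} (h0 : h 0 = 0)
    (hs : ∀ k < n, h (k + 1) = h k ∨ h (k + 1) = h k + 1) {k : ℕ} (hk : k ≤ n) :
    height (pathOf n h) k = h k := by
  induction k with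
  | zero => rw [height_zero, h0]
  | succ k ih =>
    rw [height_succ, ih (by omega)]
    have hkn : k < n := by omega
    rcases hs k hkn with h1 | h1
    · rw [if_neg, h1, Nat.add_zero]
      simp only [pathOf, mem_filter, mem_range, not_and]
      intro _ h2
      omega
    · rw [if_pos, h1]
      simp only [pathOf, mem_filter, mem_range]
      exact ⟨hkn, h1⟩

lemma card_pathOf {n : ℕ} {h : ℕ → ℕ} (h0 : h 0 = 0)
    (hs : ∀ k < n, h (k + 1) = h k ∨ h (k + 1) = h k + 1) : (pathOf n h).card = h n := by
  rw [← height_pathOf h0 hs le_rfl, height_of_le (pathOf_subset n h) le_rfl]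

end Pool.Agent.H315R3.LPM
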