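import Pool.Agent.H315R3.LPMFormula
import Pool.Agent.H315R3.LPMPath

/-!
# Sufficiency: `Psi M` implies that `M` is a lattice path matroid
-/

namespace Pool.Agent.H315R3.LPM

open Set

universe u

variable {α : Type u}

/-- natural number valued rank -/
noncomputable def rk (M : Matroid α) (X : Set α) : ℕ := (M.eRk X).toNat

section rank

variable (M : Matroid α) [M.Finite]

lemma coe_rk (X : Set α) : ((rk M X : ℕ) : ℕ∞) = M.eRk X := by
  unfold rk
  apply ENat.coe_toNat
  rw [Matroid.eRk_ne_top_iff]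
  exact M.isRkFinite_set X

variable {M}

lemma ncard_eq_rk {I X : Set α} (h : M.IsBasis I X) : I.ncard = rk M X := by
  have h1 := h.encard_eq_eRk
  rw [← coe_rk, ← (h.indep.finite).cast_ncard_eq] at h1
  exact_mod_cast h1

lemma ncard_le_rk {I X : Set α} (h : M.Indep I) (hI : I ⊆ X) : I.ncard ≤ rk M X := by
  have h1 := h.encard_le_eRk_of_subset hI
  rw [← coe_rk, ← (h.finite).cast_ncard_eq] at h1
  exact_mod_cast h1

lemma rk_mono {X Y : Set α} (h : X ⊆ Y) : rk M X ≤ rk M Y := by
  have := M.eRk_mono h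
  rw [← coe_rk, ← coe_rk] at this
  exact_mod_cast this

lemma rk_insert_le (e : α) (X : Set α) : rk M (insert e X) ≤ rk M X + 1 := by
  have := M.eRk_insert_le_add_one e X
  rw [← coe_rk, ← coe_rk] at this
  exact_mod_cast this

lemma rk_union_le (X Y : Set α) : rk M (X ∪ Y) ≤ rk M X + rk M Y := by
  have := M.eRk_union_le_eRk_add_eRk X Y
  rw [← coe_rk, ← coe_rk, ← coe_rk] at this
  exact_mod_cast this

lemma rk_empty : rk M ∅ = 0 := by
  simp [rk]

lemma rk_isF {K F C : Set α} (hC : M.IsCircuit C) (hCK : C ⊆ K) (hF : F = M.closure C ∩ K) :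
    rk M F + 1 = C.ncard := by
  have h1 : rk M F = rk M C := by
    apply le_antisymm
    · have h2 : rk M F ≤ rk M (M.closure C) := rk_mono (by rw [hF]; exact inter_subset_left)
      have h3 : rk M (M.closure C) = rk M C := by unfold rk; rw [M.eRk_closure_eq]
      omega
    · apply rk_mono
      rw [hF]
      exact subset_inter (M.subset_closure C hC.subset_ground) hCK
  have h4 := hC.eRk_add_one_eq
  have hfin : C.Finite := M.set_finite C hC.subset_ground
  rw [← coe_rk, ← hfin.cast_ncard_eq] at h4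
  rw [h1]
  exact_mod_cast h4

lemma rk_sep {K T : Set α} (hK : IsSep M K) (hKE : K ⊆ M.E) (hTE : T ⊆ M.E)
    (hd : Disjoint K T) : rk M K + rk M T ≤ rk M (K ∪ T) := by
  obtain ⟨I, hI⟩ := M.exists_isBasis K
  obtain ⟨J, hJ⟩ := M.exists_isBasis T
  rw [← ncard_eq_rk hI, ← ncard_eq_rk hJ,
    ← ncard_union_eq (hd.mono hI.subset hJ.subset) hI.indep.finite hJ.indep.finite]
  apply ncard_le_rk
  · rw [Matroid.indep_iff_forall_subset_not_isCircuit
      (union_subset hI.indep.subset_ground hJ.indep.subset_ground)]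
    intro C hC hCc
    rcases hK C hCc.subset_ground hCc with h | h
    · apply hCc.not_indep
      refine hI.indep.subset fun x hx => ?_
      rcases hC hx with h' | h'
      · exact h'
      · exact absurd (h hx) (fun h2 => hd.le_bot ⟨h2, hJ.subset h'⟩)
    · apply hCc.not_indep
      refine hJ.indep.subset fun x hx => ?_
      rcases hC hx with h' | h'
      · have : x ∈ C ∩ K := ⟨hx, hI.subset h'⟩
        rw [h] at this
        exact absurd this (notMem_empty x)
      · exact h'
  · exact union_subset_union hI.subset hJ.subset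

lemma indep_sep {K T B : Set α} (hK : IsSep M K) (hB : B ⊆ K ∪ T) (hBE : B ⊆ M.E)
    (h1 : M.Indep (B ∩ K)) (h2 : M.Indep (B ∩ T)) : M.Indep B := by
  rw [Matroid.indep_iff_forall_subset_not_isCircuit hBE]
  intro C hC hCc
  rcases hK C hCc.subset_ground hCc with h | h
  · exact hCc.not_indep (h1.subset fun x hx => ⟨hC hx, h hx⟩)
  · refine hCc.not_indep (h2.subset fun x hx => ⟨hC hx, ?_⟩)
    rcases hB (hC hx) with h' | h'
    · have : x ∈ C ∩ K := ⟨hx, h'⟩
      rw [h] at this
      exact absurd this (notMem_empty x)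
    · exact h'

end rank

/-- the set of the first `k` elements of the list -/
def tk (L : List α) (k : ℕ) : Set α := {x | x ∈ L.take k}

/-- the set of the elements of the list after the first `k` -/
def dr (L : List α) (k : ℕ) : Set α := {x | x ∈ L.drop k}

lemma tk_union_dr (L : List α) (k : ℕ) : tk L k ∪ dr L k = {x | x ∈ L} := by
  ext x
  simp only [tk, dr, mem_union, mem_setOf_eq]
  rw [← List.mem_append, List.take_append_drop]

lemma tk_disjoint_dr {L : List α} (hL : L.Nodup) (k : ℕ) : Disjoint (tk L k) (dr L k) := by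
  rw [Set.disjoint_left]
  intro x hx hx'
  have := List.disjoint_take_drop hL (le_refl k)
  exact this hx hx'

lemma finite_list (L : List α) : {x | x ∈ L}.Finite := L.finite_toSet

/-- The criterion: the list `L` orders `T` and each subset of `T` of size `rk T` which satisfies
all rank bounds on initial and final segments is independent. -/
def Crit (M : Matroid α) (T : Set α) (L : List α) : Prop :=
  L.Nodup ∧ {x | x ∈ L} = T ∧ ∀ B ⊆ T, B.ncard = rk M T →
    (∀ k, (B ∩ tk L k).ncard ≤ rk M (tk L k) ∧ (B ∩ dr L k).ncard ≤ rk M (dr L k)) → M.Indep B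

/-! ### lists from chains -/

lemma exists_take {key : α → ℕ} {S : Set α} (L : List α)
    (hL : L.Pairwise (fun x y => key x ≤ key y))
    (hS : ∀ x ∈ L, ∀ y ∈ L, x ∈ S → y ∉ S → key x < key y) :
    ∃ k, ∀ x, x ∈ L.take k ↔ (x ∈ L ∧ x ∈ S) := by
  induction L with
  | nil => exact ⟨0, by simp⟩
  | cons a L ih =>
    rw [List.pairwise_cons] at hL
    by_cases ha : a ∈ S
    · obtain ⟨k, hk⟩ := ih hL.2 (fun x hx y hy => hS x (List.mem_cons_of_mem _ hx) y
        (List.mem_cons_of_mem _ hy))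
      refine ⟨k + 1, fun x => ?_⟩
      rw [List.take_succ_cons, List.mem_cons, hk, List.mem_cons]
      constructor
      · rintro (rfl | h)
        · exact ⟨Or.inl rfl, ha⟩
        · exact ⟨Or.inr h.1, h.2⟩
      · rintro ⟨rfl | h, h'⟩
        · exact Or.inl rfl
        · exact Or.inr ⟨h, h'⟩
    · refine ⟨0, fun x => ?_⟩
      simp only [List.take_zero, List.not_mem_nil, false_iff, not_and]
      intro hx hxS
      have h1 := hS x hx a List.mem_cons_self hxS ha
      rcases List.mem_cons.1 hx with rfl | hx'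
      · exact ha hxS
      · have := hL.1 x hx'
        omega

lemma exists_list {K : Set α} (hK : K.Finite) (I : Set (Set α))
    (hI : ∀ S ∈ I, ∀ S' ∈ I, S ⊆ S' ∨ S' ⊆ S) (hIK : ∀ S ∈ I, S ⊆ K) :
    ∃ L : List α, L.Nodup ∧ {x | x ∈ L} = K ∧ ∀ S ∈ I, ∃ k, tk L k = S := by
  classical
  have hIfin : I.Finite := hK.finite_subsets.subset fun S hS => hIK S hS
  set key : α → ℕ := fun x => {S | S ∈ I ∧ x ∉ S}.ncard with hkey
  have hlt : ∀ S ∈ I, ∀ x ∈ S, ∀ y ∉ S, key x < key y := by
    intro S hS x hx y hy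
    apply ncard_lt_ncard
    · constructor
      · rintro S' ⟨hS', hxS'⟩
        refine ⟨hS', fun hyS' => ?_⟩
        rcases hI S hS S' hS' with h | h
        · exact hxS' (h hx)
        · exact hy (h hyS')
      · intro h
        have : S ∈ {S | S ∈ I ∧ x ∉ S} := h ⟨hS, hy⟩
        exact this.2 hx
    · exact hIfin.subset fun S' h => h.1
  let r : α → α → Prop := fun x y => key x ≤ key y
  haveI : Std.Total r := ⟨fun x y => Nat.le_total _ _⟩
  haveI : IsTrans α r := ⟨fun x y z h1 h2 => Nat.le_trans h1 h2⟩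
  let L := (hK.toFinset.toList).insertionSort r
  have hmem : ∀ x, x ∈ L ↔ x ∈ K := by
    intro x
    rw [List.mem_insertionSort, Finset.mem_toList, Set.Finite.mem_toFinset]
  refine ⟨L, ?_, ?_, fun S hS => ?_⟩
  · exact ((List.perm_insertionSort r _).nodup_iff).2 (Finset.nodup_toList _)
  · ext x; exact hmem x
  · obtain ⟨k, hk⟩ := exists_take (key := key) (S := S) L (List.pairwise_insertionSort r _)
      (fun x _ y _ hx hy => hlt S hS x hx y hy)
    refine ⟨k, ?_⟩
    ext x
    change x ∈ L.take k ↔ x ∈ S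
    rw [hk, hmem]
    exact ⟨fun h => h.2, fun h => ⟨hIK S hS h, h⟩⟩

/-! ### components satisfy the criterion -/

lemma dr_eq {L : List α} (hL : L.Nodup) {K : Set α} (hK : {x | x ∈ L} = K) (k : ℕ) :
    dr L k = K \ tk L k := by
  have h1 := tk_union_dr L k
  have h2 := tk_disjoint_dr hL k
  rw [hK] at h1
  rw [← h1, union_sdiff_left]
  exact (sdiff_eq_left.2 h2.symm).symm

lemma crit_comp {M : Matroid α} [M.Finite] {K : Set α} (hK : K ⊆ M.E) {a z : α}
    (h : Good M K {a} {z}) : ∃ L, Crit M K L := by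
  obtain ⟨-, -, h⟩ := h
  simp only [singleton_subset_iff] at h
  have hFK : ∀ F, IsF M K F → F ⊆ K := by
    rintro F ⟨C, _, _, _, hF⟩
    rw [hF]; exact inter_subset_right
  have hFE : ∀ F, IsF M K F → F ⊆ M.E := fun F hF => (hFK F hF).trans hK
  have hKfin : K.Finite := M.set_finite K hK
  set I : Set (Set α) := {S | (IsF M K S ∧ a ∈ S ∧ z ∉ S) ∨
    ∃ F, IsF M K F ∧ z ∈ F ∧ a ∉ F ∧ S = K \ F} with hI
  have hchain : ∀ S ∈ I, ∀ S' ∈ I, S ⊆ S' ∨ S' ⊆ S := by
    have hmix : ∀ S F, (IsF M K S ∧ a ∈ S ∧ z ∉ S) → IsF M K F → z ∈ F → a ∉ F →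
        S ⊆ K \ F ∨ K \ F ⊆ S := by
      rintro S F ⟨h1, h2, h3⟩ h4 h5 h6
      rcases ((h S (hFE S h1) h1).2.2 F (hFE F h4) h4).2.2 h2 h3 h5 h6 with h7 | h7
      · left
        intro x hx
        refine ⟨hFK S h1 hx, fun hxF => ?_⟩
        have : x ∈ S ∩ F := ⟨hx, hxF⟩
        rw [h7] at this
        exact this
      · right
        rintro x ⟨hx1, hx2⟩
        rw [h7] at hx1
        exact hx1.resolve_right hx2
    rintro S hS S' hS'
    rcases hS with h1 | ⟨F, h1, h2, h3, rfl⟩ <;> rcases hS' with h1' | ⟨F', h1', h2', h3', rfl⟩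
    · exact ((h S (hFE S h1.1) h1.1).2.2 S' (hFE S' h1'.1) h1'.1).1 h1.2.1 h1.2.2 h1'.2.1 h1'.2.2
    · exact hmix S F' h1 h1' h2' h3'
    · exact (hmix S' F h1' h1 h2 h3).symm
    · rcases ((h F (hFE F h1) h1).2.2 F' (hFE F' h1') h1').2.1 h2 h3 h2' h3' with h4 | h4
      · right
        rintro x ⟨hx1, hx2⟩
        exact ⟨hx1, fun hx => hx2 (h4 hx)⟩
      · left
        rintro x ⟨hx1, hx2⟩
        exact ⟨hx1, fun hx => hx2 (h4 hx)⟩
  have hIK : ∀ S ∈ I, S ⊆ K := by
    rintro S (h1 | ⟨F, _, _, _, rfl⟩)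
    · exact hFK S h1.1
    · exact sdiff_subset
  obtain ⟨L, hL1, hL2, hL3⟩ := exists_list hKfin I hchain hIK
  refine ⟨L, hL1, hL2, fun B hBK hBr hB => ?_⟩
  have hBfin : B.Finite := hKfin.subset hBK
  have hBE : B ⊆ M.E := hBK.trans hK
  rw [Matroid.indep_iff_forall_subset_not_isCircuit hBE]
  intro C hCB hC
  have hCK : C ⊆ K := hCB.trans hBK
  obtain ⟨F, hF⟩ : ∃ F, F = M.closure C ∩ K := ⟨_, rfl⟩
  have hFF : IsF M K F := ⟨C, hC.subset_ground, hC, hCK, hF⟩
  have hrk : rk M F + 1 = C.ncard := rk_isF hC hCK hF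
  have hCF : C ⊆ F := by
    rw [hF]; exact subset_inter (M.subset_closure C hC.subset_ground) hCK
  have hCle : C.ncard ≤ (B ∩ F).ncard :=
    ncard_le_ncard (subset_inter hCB hCF) (hBfin.inter_of_left F)
  -- bounds for initial and final segments
  have hini : ∀ F', IsF M K F' → a ∈ F' → z ∉ F' → (B ∩ F').ncard ≤ rk M F' := by
    intro F' h1 h2 h3
    obtain ⟨k, hk⟩ := hL3 F' (Or.inl ⟨h1, h2, h3⟩)
    have := (hB k).1
    rwa [hk] at this
  have hfin : ∀ F', IsF M K F' → z ∈ F' → a ∉ F' → (B ∩ F').ncard ≤ rk M F' := by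
    intro F' h1 h2 h3
    obtain ⟨k, hk⟩ := hL3 (K \ F') (Or.inr ⟨F', h1, h2, h3, rfl⟩)
    have := (hB k).2
    rwa [dr_eq hL1 hL2, hk, sdiff_sdiff_cancel_left (hFK F' h1)] at this
  by_cases ha : a ∈ F <;> by_cases hz : z ∈ F
  · have h1 := (h F (hFE F hFF) hFF).1 ha hz
    have h2 : rk M K ≤ rk M F := rk_mono h1
    have h3 : C.ncard ≤ B.ncard := ncard_le_ncard hCB hBfin
    omega
  · have := hini F hFF ha hz
    omega
  · have := hfin F hFF hz ha
    omega
  · obtain ⟨F₁, -, F₂, -, hF₁, hF₂, h1, h2, h3, h4, h5, h6, J₁, -, J₂, -, J, -, hJ₁, hJ₂, h7, h8,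
      hJ⟩ := (h F (hFE F hFF) hFF).2.1 ha hz
    rw [singleton_subset_iff] at h1 h2 h3 h4
    have e1 := hini F₁ hF₁ h1 h2
    have e2 := hfin F₂ hF₂ h3 h4
    rw [← ncard_eq_rk hJ₁] at e1
    rw [← ncard_eq_rk hJ₂] at e2
    have hf1 : (B ∩ F₁).Finite := hBfin.inter_of_left _
    have hf2 : (B ∩ F₂).Finite := hBfin.inter_of_left _
    have e3 := ncard_union_add_ncard_inter (B ∩ F₁) (B ∩ F₂) hf1 hf2
    have e4 : (B ∩ F₁) ∪ (B ∩ F₂) = B := by
      rw [← inter_union_distrib_left, ← h6]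
      exact inter_eq_left.2 hBK
    have e5 : (B ∩ F₁) ∩ (B ∩ F₂) = B ∩ F := by
      rw [← inter_inter_distrib_left, ← h5]
    rw [e4, e5] at e3
    have e6 := ncard_union_add_ncard_inter J₁ J₂ hJ₁.indep.finite hJ₂.indep.finite
    have e7 : (J₁ ∪ J₂).ncard ≤ rk M K := by
      apply ncard_le_rk (hJ.subset (union_subset h7 h8))
      rw [h6]
      exact union_subset_union hJ₁.subset hJ₂.subset
    have e8 : (J₁ ∩ J₂).ncard ≤ rk M F := by
      apply ncard_le_rk (hJ₁.indep.subset inter_subset_left)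
      rw [h5]
      exact inter_subset_inter hJ₁.subset hJ₂.subset
    omega

/-! ### direct sums -/

lemma crit_union {M : Matroid α} [M.Finite] {K T : Set α} (hK : IsSep M K) (hKE : K ⊆ M.E)
    (hTE : T ⊆ M.E) (hd : Disjoint K T) {L₁ L₂ : List α} (h₁ : Crit M K L₁) (h₂ : Crit M T L₂) :
    Crit M (K ∪ T) (L₁ ++ L₂) := by
  obtain ⟨hn₁, hm₁, hc₁⟩ := h₁
  obtain ⟨hn₂, hm₂, hc₂⟩ := h₂
  have hmem₁ : ∀ x, x ∈ L₁ ↔ x ∈ K := fun x => by rw [← hm₁]; rfl
  have hmem₂ : ∀ x, x ∈ L₂ ↔ x ∈ T := fun x => by rw [← hm₂]; rfl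
  refine ⟨?_, ?_, fun B hB hBr hb => ?_⟩
  · rw [List.nodup_append]
    refine ⟨hn₁, hn₂, fun x hx y hy hxy => ?_⟩
    subst hxy
    exact hd.le_bot ⟨(hmem₁ _).1 hx, (hmem₂ _).1 hy⟩
  · ext x
    change x ∈ L₁ ++ L₂ ↔ _
    rw [List.mem_append, hmem₁, hmem₂]; rfl
  · have hBE : B ⊆ M.E := hB.trans (union_subset hKE hTE)
    have hBfin : B.Finite := M.set_finite B hBE
    have hsum : ∀ X Y : Set α, X ⊆ K → Y ⊆ T →
        (B ∩ (X ∪ Y)).ncard = (B ∩ X).ncard + (B ∩ Y).ncard := by
      intro X Y hX hY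
      rw [inter_union_distrib_left]
      apply ncard_union_eq _ (hBfin.inter_of_left _) (hBfin.inter_of_left _)
      exact (hd.mono hX hY).mono inter_subset_right inter_subset_right
    have htk : ∀ k, tk (L₁ ++ L₂) k = tk L₁ k ∪ tk L₂ (k - L₁.length) := by
      intro k
      ext x
      change x ∈ (L₁ ++ L₂).take k ↔ _
      rw [List.take_append, List.mem_append]; rfl
    have hdr : ∀ k, dr (L₁ ++ L₂) k = dr L₁ k ∪ dr L₂ (k - L₁.length) := by
      intro k
      ext x
      change x ∈ (L₁ ++ L₂).drop k ↔ _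
      rw [List.drop_append, List.mem_append]; rfl
    have htk0 : ∀ L : List α, tk L 0 = ∅ := by
      intro L; ext x; simp [tk]
    have hdr0 : ∀ L : List α, dr L 0 = {x | x ∈ L} := by
      intro L; ext x; simp [dr]
    have htkl : ∀ (L : List α) (k : ℕ), L.length ≤ k → tk L k = {x | x ∈ L} := by
      intro L k hk; ext x; simp [tk, List.take_of_length_le hk]
    have hdrl : ∀ (L : List α) (k : ℕ), L.length ≤ k → dr L k = ∅ := by
      intro L k hk; ext x; simp [dr, List.drop_eq_nil_of_le hk]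
    have htkK : ∀ k, tk L₁ k ⊆ K := fun k x hx => (hmem₁ x).1 (List.mem_of_mem_take hx)
    have htkT : ∀ k, tk L₂ k ⊆ T := fun k x hx => (hmem₂ x).1 (List.mem_of_mem_take hx)
    have hdrK : ∀ k, dr L₁ k ⊆ K := fun k x hx => (hmem₁ x).1 (List.mem_of_mem_drop hx)
    have hdrT : ∀ k, dr L₂ k ⊆ T := fun k x hx => (hmem₂ x).1 (List.mem_of_mem_drop hx)
    have hBsum := hsum K T subset_rfl subset_rfl
    rw [inter_eq_left.2 hB, hBr] at hBsum
    have hmid := hb L₁.length
    rw [htk, hdr, Nat.sub_self, htk0, hdr0, htkl _ _ le_rfl, hdrl _ _ le_rfl, union_empty,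
      empty_union, hm₁, hm₂] at hmid
    have hrs := rk_sep hK hKE hTE hd
    have hBK : (B ∩ K).ncard = rk M K := by omega
    have hBT : (B ∩ T).ncard = rk M T := by omega
    apply indep_sep hK hB hBE
    · refine hc₁ _ inter_subset_right hBK fun k => ?_
      have hk' : ∃ k' ≤ L₁.length, tk L₁ k' = tk L₁ k ∧ dr L₁ k' = dr L₁ k := by
        rcases le_total k L₁.length with hk | hk
        · exact ⟨k, hk, rfl, rfl⟩
        · exact ⟨L₁.length, le_rfl, by rw [htkl _ _ le_rfl, htkl _ _ hk],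
            by rw [hdrl _ _ le_rfl, hdrl _ _ hk]⟩
      obtain ⟨k', hk'1, hk'2, hk'3⟩ := hk'
      have h := hb k'
      rw [htk, hdr, Nat.sub_eq_zero_of_le hk'1, htk0, hdr0, union_empty, hm₂, hk'2, hk'3] at h
      rw [inter_assoc, inter_eq_right.2 (htkK k), inter_assoc, inter_eq_right.2 (hdrK k)]
      refine ⟨h.1, ?_⟩
      have h3 := hsum (dr L₁ k) T (hdrK k) subset_rfl
      have h4 := rk_union_le (M := M) (dr L₁ k) T
      omega
    · refine hc₂ _ inter_subset_right hBT fun k => ?_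
      have h := hb (L₁.length + k)
      rw [htk, hdr, Nat.add_sub_cancel_left, htkl _ _ (Nat.le_add_right _ _),
        hdrl _ _ (Nat.le_add_right _ _), empty_union, hm₁] at h
      rw [inter_assoc, inter_eq_right.2 (htkT k), inter_assoc, inter_eq_right.2 (hdrT k)]
      refine ⟨?_, h.2⟩
      have h3 := hsum K (tk L₂ k) subset_rfl (htkT k)
      have h4 := rk_union_le (M := M) K (tk L₂ k)
      omega

lemma crit_empty (M : Matroid α) : Crit M ∅ [] := by
  refine ⟨List.nodup_nil, by ext x; simp, fun B hB _ _ => ?_⟩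
  rw [subset_empty_iff.1 hB]
  exact M.empty_indep

/-- every separator satisfies the criterion. -/
lemma exists_crit {M : Matroid α} [M.Finite] (hpsi : Psi M) :
    ∀ (n : ℕ) (T : Set α), T.ncard = n → T ⊆ M.E → IsSep M T → ∃ L, Crit M T L := by
  intro n
  induction n using Nat.strong_induction_on with
  | _ n ih =>
    intro T hTn hTE hT
    rcases eq_empty_or_nonempty T with rfl | hne
    · exact ⟨[], crit_empty M⟩
    · have hTfin : T.Finite := M.set_finite T hTE
      classical
      have hex : ∃ m, ∃ K ⊆ T, K.Nonempty ∧ IsSep M K ∧ K.ncard = m :=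
        ⟨_, T, subset_rfl, hne, hT, rfl⟩
      obtain ⟨K, hKT, hKne, hKs, hKm⟩ := Nat.find_spec hex
      have hKE : K ⊆ M.E := hKT.trans hTE
      have hcomp : IsComp M K := by
        refine ⟨hKne.ne_empty, hKs, fun K' hK'E hK'ne hK's hK'K => ?_⟩
        have h1 := Nat.find_min' hex
          ⟨K', hK'K.trans hKT, nonempty_iff_ne_empty.2 hK'ne, hK's, rfl⟩
        rw [← hKm] at h1
        exact (eq_of_subset_of_ncard_le hK'K h1 (M.set_finite K hKE)).symm.subset
      obtain ⟨a, -, z, -, hgood⟩ := hpsi K hKE hcomp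
      obtain ⟨L₁, hL₁⟩ := crit_comp hKE hgood
      have hsub : T \ K ⊆ M.E := sdiff_subset.trans hTE
      have hlt : (T \ K).ncard < n := by
        rw [← hTn]
        apply ncard_lt_ncard _ hTfin
        refine ⟨sdiff_subset, fun h => ?_⟩
        obtain ⟨x, hx⟩ := hKne
        exact (h (hKT hx)).2 hx
      have hsep : IsSep M (T \ K) := by
        intro C hCE hC
        rcases hKs C hCE hC with h | h
        · right
          ext x
          simp only [mem_inter_iff, mem_sdiff, mem_empty_iff_false, iff_false, not_and, not_not]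
          intro hx _
          exact h hx
        · rcases hT C hCE hC with h' | h'
          · left
            intro x hx
            refine ⟨h' hx, fun hxK => ?_⟩
            have : x ∈ C ∩ K := ⟨hx, hxK⟩
            rw [h] at this
            exact this
          · right
            rw [← subset_empty_iff, ← h']
            exact inter_subset_inter_right _ sdiff_subset
      obtain ⟨L₂, hL₂⟩ := ih _ hlt (T \ K) rfl hsub hsep
      refine ⟨L₁ ++ L₂, ?_⟩
      have := crit_union hKs hKE hsub disjoint_sdiff_right hL₁ hL₂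
      rwa [union_sdiff_cancel hKT] at this

end Pool.Agent.H315R3.LPM
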