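import Pool.Agent.H315R3.LPMSuff

/-!
# Sufficiency: from the criterion to lattice paths
-/

namespace Pool.Agent.H315R3.LPM

open Set

universe u

variable {α : Type u}

lemma tk_zero (L : List α) : tk L 0 = ∅ := by ext x; simp [tk]

lemma dr_zero (L : List α) : dr L 0 = {x | x ∈ L} := by ext x; simp [dr]

lemma tk_length (L : List α) : tk L L.length = {x | x ∈ L} := by ext x; simp [tk]

lemma dr_length (L : List α) : dr L L.length = ∅ := by ext x; simp [dr]

lemma tk_succ (L : List α) (k : ℕ) (hk : k < L.length) : tk L (k + 1) = insert L[k] (tk L k) := by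
  ext x
  change x ∈ L.take (k + 1) ↔ _
  rw [List.take_succ, List.getElem?_eq_getElem hk, Option.toList_some, List.mem_append,
    List.mem_singleton, or_comm]
  rfl

lemma dr_succ (L : List α) (k : ℕ) (hk : k < L.length) : dr L k = insert L[k] (dr L (k + 1)) := by
  ext x
  change x ∈ L.drop k ↔ _
  rw [List.drop_eq_getElem_cons hk, List.mem_cons]
  rfl

lemma notMem_tk {L : List α} (hL : L.Nodup) (k : ℕ) (hk : k < L.length) : L[k] ∉ tk L k := by
  intro h
  have h2 : L[k] ∈ dr L k := by rw [dr_succ L k hk]; exact mem_insert _ _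
  exact (tk_disjoint_dr hL k).le_bot ⟨h, h2⟩

lemma height_eq {L : List α} (hL : L.Nodup) {R : Finset ℕ} {B : Set α}
    (h : ∀ i (hi : i < L.length), i ∈ R ↔ L[i] ∈ B) (k : ℕ) (hk : k ≤ L.length) :
    height R k = (B ∩ tk L k).ncard := by
  induction k with
  | zero => rw [height_zero, tk_zero, inter_empty, ncard_empty]
  | succ k ih =>
    have hk' : k < L.length := by omega
    have hfin : (B ∩ tk L k).Finite := ((L.take k).finite_toSet).inter_of_right B
    rw [height_succ, ih (by omega), tk_succ L k hk']
    split_ifs with hR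
    · rw [inter_insert_of_mem ((h k hk').1 hR), ncard_insert_of_notMem _ hfin]
      exact fun h' => notMem_tk hL k hk' h'.2
    · rw [inter_insert_of_notMem (fun h' => hR ((h k hk').2 h')), Nat.add_zero]

lemma ncard_tk_add_dr {L : List α} (hL : L.Nodup) {B : Set α} (hB : B ⊆ {x | x ∈ L}) (k : ℕ) :
    (B ∩ tk L k).ncard + (B ∩ dr L k).ncard = B.ncard := by
  have hfin : B.Finite := L.finite_toSet.subset hB
  rw [← ncard_union_eq _ (hfin.inter_of_left _) (hfin.inter_of_left _),
    ← inter_union_distrib_left, tk_union_dr, inter_eq_left.2 hB]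
  exact (tk_disjoint_dr hL k).mono inter_subset_right inter_subset_right

theorem lpm_of_crit {M : Matroid α} [M.Finite] {L : List α} (h : Crit M M.E L) :
    IsLatticePathMatroid M := by
  classical
  obtain ⟨hL, hLE, hcrit⟩ := h
  set r := rk M M.E with hr
  -- the two height functions
  set U : ℕ → ℕ := fun k => rk M (tk L k) with hU
  set D : ℕ → ℕ := fun k => r - rk M (dr L k) with hD
  have hU0 : U 0 = 0 := by simp only [hU, tk_zero, rk_empty]
  have hUn : U L.length = r := by simp only [hU, tk_length, hLE, hr]
  have hD0 : D 0 = 0 := by simp only [hD, dr_zero, hLE, hr, Nat.sub_self]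
  have hDn : D L.length = r := by simp only [hD, dr_length, rk_empty, Nat.sub_zero]
  have hUs : ∀ k < L.length, U (k + 1) = U k ∨ U (k + 1) = U k + 1 := by
    intro k hk
    have h1 : rk M (tk L k) ≤ rk M (tk L (k + 1)) :=
      rk_mono (by rw [tk_succ L k hk]; exact subset_insert _ _)
    have h2 : rk M (tk L (k + 1)) ≤ rk M (tk L k) + 1 := by
      rw [tk_succ L k hk]; exact rk_insert_le _ _
    simp only [hU]
    omega
  have hdr_le : ∀ k, rk M (dr L k) ≤ r := by
    intro k
    apply rk_mono
    rw [← hLE]
    intro x hx
    exact List.mem_of_mem_drop hx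
  have hDs : ∀ k < L.length, D (k + 1) = D k ∨ D (k + 1) = D k + 1 := by
    intro k hk
    have h1 : rk M (dr L (k + 1)) ≤ rk M (dr L k) :=
      rk_mono (by rw [dr_succ L k hk]; exact subset_insert _ _)
    have h2 : rk M (dr L k) ≤ rk M (dr L (k + 1)) + 1 := by
      rw [dr_succ L k hk]; exact rk_insert_le _ _
    have h3 := hdr_le k
    simp only [hD]
    omega
  have hUle : ∀ k ≤ L.length, U k ≤ k := by
    intro k hk
    induction k with
    | zero => omega
    | succ k ih =>
      have := ih (by omega)
      rcases hUs k (by omega) with h | h <;> omega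
  obtain ⟨m, hm⟩ : ∃ m, L.length = m + r := ⟨L.length - r, by
    have := hUle L.length le_rfl
    omega⟩
  have hDU : ∀ k, D k ≤ U k := by
    intro k
    have h1 := rk_union_le (M := M) (tk L k) (dr L k)
    rw [tk_union_dr, hLE] at h1
    simp only [hD, hU]
    omega
  -- the paths
  have hPath : ∀ h : ℕ → ℕ, h 0 = 0 → h L.length = r →
      (∀ k < L.length, h (k + 1) = h k ∨ h (k + 1) = h k + 1) →
      IsPath m r (pathOf L.length h) ∧ ∀ k, height (pathOf L.length h) k = h (min k L.length) := by
    intro h h0 hn hs
    refine ⟨⟨?_, ?_⟩, fun k => ?_⟩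
    · rw [← hm]; exact pathOf_subset _ _
    · rw [card_pathOf h0 hs, hn]
    · rcases le_total k L.length with hk | hk
      · rw [height_pathOf h0 hs hk, min_eq_left hk]
      · rw [height_of_le (pathOf_subset _ _) hk, card_pathOf h0 hs, min_eq_right hk]
  obtain ⟨hP1, hP2⟩ := hPath D hD0 hDn hDs
  obtain ⟨hQ1, hQ2⟩ := hPath U hU0 hUn hUs
  refine ⟨m, r, pathOf L.length D, pathOf L.length U, hP1, hQ1, ?_,
    fun i => L[(i : ℕ)]'(by have := i.2; omega), ?_, ?_, ?_⟩
  · intro k
    rw [hP2, hQ2]
    exact hDU _
  · intro i j hij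
    exact Fin.ext ((hL.getElem_inj_iff).1 hij)
  · rw [← hLE]
    ext x
    simp only [mem_range]
    constructor
    · rintro ⟨i, rfl⟩
      exact List.getElem_mem _
    · intro hx
      obtain ⟨i, hi, rfl⟩ := List.getElem_of_mem hx
      exact ⟨⟨i, by omega⟩, rfl⟩
  · intro B
    constructor
    · intro hB
      have hBE : B ⊆ {x | x ∈ L} := by rw [hLE]; exact hB.subset_ground
      have hBr : B.ncard = r := ncard_eq_rk hB.isBasis_ground
      set R : Finset ℕ := (Finset.range L.length).filter
        (fun i => ∃ hi : i < L.length, L[i] ∈ B) with hR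
      have hRi : ∀ i (hi : i < L.length), i ∈ R ↔ L[i] ∈ B := by
        intro i hi
        simp only [hR, Finset.mem_filter, Finset.mem_range]
        exact ⟨fun h => h.2.2, fun h => ⟨hi, hi, h⟩⟩
      have hRs : R ⊆ Finset.range L.length := Finset.filter_subset _ _
      have hht : ∀ k ≤ L.length, height R k = (B ∩ tk L k).ncard := height_eq hL hRi
      have hRc : R.card = r := by
        rw [← height_of_le hRs le_rfl, hht _ le_rfl, tk_length, inter_eq_left.2 hBE, hBr]
      refine ⟨R, ⟨by rw [← hm]; exact hRs, hRc⟩, fun k => ?_, fun k => ?_, ?_⟩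
      · rw [hP2]
        rcases le_total k L.length with hk | hk
        · rw [min_eq_left hk, hht k hk]
          have h1 := ncard_tk_add_dr hL hBE k
          have h2 : (B ∩ dr L k).ncard ≤ rk M (dr L k) :=
            ncard_le_rk (hB.indep.subset inter_subset_left) inter_subset_right
          simp only [hD]
          omega
        · rw [min_eq_right hk, height_of_le hRs hk, hRc, hDn]
      · rw [hQ2]
        rcases le_total k L.length with hk | hk
        · rw [min_eq_left hk, hht k hk]
          exact ncard_le_rk (hB.indep.subset inter_subset_left) inter_subset_right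
        · rw [min_eq_right hk, height_of_le hRs hk, hRc, hUn]
      · ext x
        simp only [mem_image, mem_ofPred_eq]
        constructor
        · rintro ⟨i, hi, rfl⟩
          exact (hRi i (by have := i.2; omega)).1 hi
        · intro hx
          obtain ⟨i, hi, rfl⟩ := List.getElem_of_mem (hBE hx)
          exact ⟨⟨i, by omega⟩, (hRi i hi).2 hx, rfl⟩
    · rintro ⟨R, ⟨hR1, hR2⟩, hPR, hRQ, hRB⟩
      rw [← hm] at hR1
      have hRi : ∀ i (hi : i < L.length), i ∈ R ↔ L[i] ∈ B := by
        intro i hi
        rw [← hRB]
        simp only [mem_image, mem_ofPred_eq]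
        constructor
        · intro h
          exact ⟨⟨i, by omega⟩, h, rfl⟩
        · rintro ⟨j, hj, hji⟩
          rw [hL.getElem_inj_iff] at hji
          rwa [hji] at hj
      have hBE : B ⊆ {x | x ∈ L} := by
        rw [← hRB]
        rintro x ⟨i, _, rfl⟩
        exact List.getElem_mem _
      have hht : ∀ k ≤ L.length, height R k = (B ∩ tk L k).ncard := height_eq hL hRi
      have hBr : B.ncard = r := by
        have := hht L.length le_rfl
        rw [tk_length, inter_eq_left.2 hBE, height_of_le hR1 le_rfl, hR2] at this
        exact this.symm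
      have hBE' : B ⊆ M.E := by rw [← hLE]; exact hBE
      have hind : M.Indep B := by
        apply hcrit B hBE' hBr
        have hgen : ∀ k ≤ L.length, (B ∩ tk L k).ncard ≤ rk M (tk L k) ∧
            (B ∩ dr L k).ncard ≤ rk M (dr L k) := by
          intro k hk
          have h1 := hPR k
          have h2 := hRQ k
          rw [hP2, min_eq_left hk, hht k hk] at h1
          rw [hQ2, min_eq_left hk, hht k hk] at h2
          have h3 := ncard_tk_add_dr hL hBE k
          simp only [hD] at h1
          refine ⟨h2, ?_⟩
          omega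
        intro k
        rcases le_total k L.length with hk | hk
        · exact hgen k hk
        · have h1 : tk L k = tk L L.length := by
            ext x; simp [tk, List.take_of_length_le hk]
          have h2 : dr L k = dr L L.length := by
            ext x; simp [dr, List.drop_eq_nil_of_le hk]
          rw [h1, h2]
          exact hgen _ le_rfl
      obtain ⟨B', hB', hBB'⟩ := hind.exists_isBase_superset
      have h1 : B'.ncard = r := ncard_eq_rk hB'.isBasis_ground
      have h2 : B = B' := eq_of_subset_of_ncard_le hBB' (by omega) hB'.finite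
      rw [h2]
      exact hB'

theorem lpm_of_psi {M : Matroid α} [M.Finite] (h : Psi M) : IsLatticePathMatroid M := by
  obtain ⟨L, hL⟩ := exists_crit h _ M.E rfl subset_rfl (fun C hC _ => Or.inl hC)
  exact lpm_of_crit hL

end Pool.Agent.H315R3.LPM
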