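import Pool.Agent.H315R3.QUCode

set_option autoImplicit false

/-! The verified elimination algorithm (helper315, MP_debf2a_co). -/

namespace Pool.Agent.H315R3.QU

open Matrix Code

/-- entry of a matrix given by its rows -/
def ent (rows : List (List Code)) (i j : ℕ) : Code := (rows.getD i []).getD j Code.zero

noncomputable def toMat (k : ℕ) (rows : List (List Code)) : Matrix (Fin k) (Fin k) (Quaternion ℝ) :=
  Matrix.of fun i j => val (ent rows i j)

def updRow (f : Code) : List Code → List Code → Option (List Code)
  | x :: xs, b :: bs =>
    match upd x f b, updRow f xs bs with
    | some y, some ys => some (y :: ys)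
    | _, _ => none
  | [], [] => some []
  | _, _ => none

theorem updRow_spec (c a : Code) : ∀ (xs bs ys : List Code), updRow (raw c a) xs bs = some ys →
    ∀ j, val (ys.getD j Code.zero) =
      val (xs.getD j Code.zero) - val c * val a * val (bs.getD j Code.zero)
  | [], [], ys, h, j => by
    simp only [updRow, Option.some.injEq] at h
    subst h
    simp [val_zero]
  | [], b :: bs, ys, h, j => by simp [updRow] at h
  | x :: xs, [], ys, h, j => by simp [updRow] at h
  | x :: xs, b :: bs, ys, h, j => by
    rw [updRow] at h
    split at h
    · rename_i y ys' h1 h2
      simp only [Option.some.injEq] at h
      subst h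
      cases j with
      | zero => simpa using val_upd x c a b y h1
      | succ j => simpa using updRow_spec c a xs bs ys' h2 j
    · simp at h

def elimRow (a : Code) (pt : List Code) (row : List Code) : Option (List Code) :=
  match row with
  | [] => none
  | c :: xs => updRow (raw c a) xs pt

def elimAll (a : Code) (pt : List Code) : List (List Code) → Option (List (List Code))
  | [] => some []
  | r :: rs =>
    match elimRow a pt r, elimAll a pt rs with
    | some r', some rs' => some (r' :: rs')
    | _, _ => none

theorem elimAll_spec (a : Code) (pt : List Code) : ∀ (rows rows' : List (List Code)),
    elimAll a pt rows = some rows' → ∀ i j, val (ent rows' i j) =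
      val (ent rows i (j+1)) - val (ent rows i 0) * val a * val (pt.getD j Code.zero)
  | [], rows', h, i, j => by
    simp only [elimAll, Option.some.injEq] at h
    subst h
    simp [ent, val_zero]
  | r :: rs, rows', h, i, j => by
    rw [elimAll] at h
    split at h
    · rename_i r' rs' h1 h2
      simp only [Option.some.injEq] at h
      subst h
      cases i with
      | zero =>
        cases r with
        | nil => simp [elimRow] at h1
        | cons c xs =>
          have := updRow_spec c a xs pt r' h1 j
          simpa [ent] using this
      | succ i =>
        have := elimAll_spec a pt rs rs' h2 i j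
        simpa [ent] using this
    · simp at h

/-- the elimination -/
def run : ℕ → List (List Code) → Option Bool
  | 0, _ => some true
  | k+1, rows =>
    match rows.findIdx? (fun r => decide (r.headD Code.zero ≠ Code.zero)) with
    | none => some false
    | some i =>
      if i < k+1 then
        match rows.getD i [] with
        | [] => none
        | a :: pt =>
          if unit? a then
            match elimAll (conj a) pt (rows.eraseIdx i) with
            | none => none
            | some rows' => run k rows'
          else none
      else none

theorem getD_eraseIdx {α : Type} (l : List α) (i p : ℕ) (d : α) :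
    (l.eraseIdx i).getD p d = l.getD (if p < i then p else p + 1) d := by
  simp only [List.getD_eq_getElem?_getD, List.getElem?_eraseIdx]
  split_ifs <;> rfl

theorem headD_eq (l : List Code) : l.headD Code.zero = l.getD 0 Code.zero := by
  cases l <;> rfl

theorem run_sound : ∀ (k : ℕ) (rows : List (List Code)) (b : Bool), run k rows = some b →
    (stu (toMat k rows)).det = if b then 1 else 0
  | 0, rows, b, h => by
    simp only [run, Option.some.injEq] at h
    subst h
    have : IsEmpty (Fin 0 × Fin 2) := inferInstance
    rw [Matrix.det_isEmpty]
    simp
  | k+1, rows, b, h => by
    rw [run] at h
    split at h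
    · rename_i h1
      simp only [Option.some.injEq] at h
      subst h
      rw [List.findIdx?_eq_none_iff] at h1
      simp only [Bool.false_eq_true, if_false]
      apply det_stu_zero_col
      intro i
      show val (ent rows i 0) = 0
      by_cases hi : (i : ℕ) < rows.length
      · have := h1 (rows[(i:ℕ)]) (List.getElem_mem hi)
        rw [headD_eq] at this
        simp only [ne_eq, decide_not, Bool.not_eq_false', decide_eq_true_eq] at this
        unfold ent
        rw [List.getD_eq_getElem _ _ hi, this, val_zero]
      · have h0 : rows.getD i [] = [] := List.getD_eq_default _ _ (by omega)
        unfold ent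
        rw [h0]
        simp [val_zero]
    · rename_i i h1
      split_ifs at h with hi
      split at h
      · simp at h
      · rename_i a pt h2
        split_ifs at h with hu
        split at h
        · simp at h
        · rename_i rows' h3
          have ih := run_sound k rows' b h
          rw [← ih]
          set M := toMat (k+1) rows with hM
          set i' : Fin (k+1) := ⟨i, hi⟩ with hi'
          rw [← det_stu_rows (i'.cycleRange).symm M]
          set M' := M.submatrix (i'.cycleRange).symm id with hM'
          have hrow : ∀ q, M' 0 q = M i' q := by
            intro q
            rw [hM', Matrix.submatrix_apply, Fin.cycleRange_symm_zero]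
            rfl
          have hsucc : ∀ (p : Fin k) q, M' p.succ q = M (i'.succAbove p) q := by
            intro p q
            rw [hM', Matrix.submatrix_apply, Fin.cycleRange_symm_succ]
            rfl
          have hMa : ∀ q : Fin (k+1), M i' q = val ((a :: pt).getD q Code.zero) := by
            intro q
            show val (ent rows i q) = _
            unfold ent
            rw [h2]
          have h00 : M' 0 0 = val a := by
            rw [hrow, hMa]; rfl
          have hst : star (M' 0 0) * M' 0 0 = 1 := by
            rw [h00]; exact star_mul_of_unit a hu
          rw [det_stu_schur M' hst]
          congr 2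
          ext1 p q
          show M' p.succ q.succ - M' p.succ 0 * star (M' 0 0) * M' 0 q.succ = val (ent rows' p q)
          rw [elimAll_spec _ _ _ _ h3, h00, val_conj, hrow, hMa, hsucc, hsucc]
          have e : ∀ j : ℕ, ent (rows.eraseIdx i) p j = ent rows (i'.succAbove p) j := by
            intro j
            unfold ent
            rw [getD_eraseIdx]
            congr 2
            simp only [Fin.succAbove, hi']
            by_cases hp : (p : ℕ) < i
            · rw [if_pos hp, if_pos (by simpa [Fin.lt_def] using hp)]
              rfl
            · rw [if_neg hp, if_neg (by simpa [Fin.lt_def] using hp)]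
              rfl
          rw [e, e]
          rfl

/-- selection of rows and columns -/
def sel (D : List (List Code)) (gs hs : List ℕ) : List (List Code) :=
  gs.map fun i => hs.map fun j => ent D i j

theorem ent_sel {k m : ℕ} (D : List (List Code)) (g : Fin k → ℕ) (h : Fin m → ℕ) (i : Fin k) (j : Fin m) :
    ent (sel D (List.ofFn g) (List.ofFn h)) i j = ent D (g i) (h j) := by
  have h1 : (sel D (List.ofFn g) (List.ofFn h)).getD i [] =
      (List.ofFn h).map fun j => ent D (g i) j := by
    unfold sel
    rw [List.getD_eq_getElem _ _ (by simp), List.getElem_map, List.getElem_ofFn]
  have h2 : ((List.ofFn h).map fun j => ent D (g i) j).getD j Code.zero = ent D (g i) (h j) := by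
    rw [List.getD_eq_getElem _ _ (by simp), List.getElem_map, List.getElem_ofFn]
  show ((sel D (List.ofFn g) (List.ofFn h)).getD i []).getD j Code.zero = _
  rw [h1, h2]

end Pool.Agent.H315R3.QU
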