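import Pool.Agent.H315R3.QUDet

set_option autoImplicit false

/-! Codes for icosians, and a verified elimination algorithm (helper315, MP_debf2a_co). -/

namespace Pool.Agent.H315R3.QU

open Matrix

/-- a quadruple of elements `a + b φ` of `ℤ[φ]`; it stands for half the quaternion -/
structure Code where
  (a0 a1 b0 b1 c0 c1 d0 d1 : Int)
deriving DecidableEq

namespace Code

instance : Inhabited Code := ⟨⟨0,0,0,0,0,0,0,0⟩⟩

def zero : Code := ⟨0,0,0,0,0,0,0,0⟩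

/-- quaternion product over `ℤ[φ]`, `(a0 + a1 φ)(b0 + b1 φ) = (a0 b0 + a1 b1) + (a0 b1 + a1 b0 + a1 b1) φ` -/
def raw (x y : Code) : Code :=
  ⟨ (x.a0*y.a0 + x.a1*y.a1) - (x.b0*y.b0 + x.b1*y.b1) - (x.c0*y.c0 + x.c1*y.c1) - (x.d0*y.d0 + x.d1*y.d1),
    (x.a0*y.a1 + x.a1*y.a0 + x.a1*y.a1) - (x.b0*y.b1 + x.b1*y.b0 + x.b1*y.b1)
      - (x.c0*y.c1 + x.c1*y.c0 + x.c1*y.c1) - (x.d0*y.d1 + x.d1*y.d0 + x.d1*y.d1),
    (x.a0*y.b0 + x.a1*y.b1) + (x.b0*y.a0 + x.b1*y.a1) + (x.c0*y.d0 + x.c1*y.d1) - (x.d0*y.c0 + x.d1*y.c1),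
    (x.a0*y.b1 + x.a1*y.b0 + x.a1*y.b1) + (x.b0*y.a1 + x.b1*y.a0 + x.b1*y.a1)
      + (x.c0*y.d1 + x.c1*y.d0 + x.c1*y.d1) - (x.d0*y.c1 + x.d1*y.c0 + x.d1*y.c1),
    (x.a0*y.c0 + x.a1*y.c1) - (x.b0*y.d0 + x.b1*y.d1) + (x.c0*y.a0 + x.c1*y.a1) + (x.d0*y.b0 + x.d1*y.b1),
    (x.a0*y.c1 + x.a1*y.c0 + x.a1*y.c1) - (x.b0*y.d1 + x.b1*y.d0 + x.b1*y.d1)
      + (x.c0*y.a1 + x.c1*y.a0 + x.c1*y.a1) + (x.d0*y.b1 + x.d1*y.b0 + x.d1*y.b1),
    (x.a0*y.d0 + x.a1*y.d1) + (x.b0*y.c0 + x.b1*y.c1) - (x.c0*y.b0 + x.c1*y.b1) + (x.d0*y.a0 + x.d1*y.a1),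
    (x.a0*y.d1 + x.a1*y.d0 + x.a1*y.d1) + (x.b0*y.c1 + x.b1*y.c0 + x.b1*y.c1)
      - (x.c0*y.b1 + x.c1*y.b0 + x.c1*y.b1) + (x.d0*y.a1 + x.d1*y.a0 + x.d1*y.a1) ⟩

def conj (x : Code) : Code := ⟨x.a0, x.a1, -x.b0, -x.b1, -x.c0, -x.c1, -x.d0, -x.d1⟩

/-- exact quarter -/
def quarter (x : Code) : Option Code :=
  if x.a0 % 4 = 0 ∧ x.a1 % 4 = 0 ∧ x.b0 % 4 = 0 ∧ x.b1 % 4 = 0 ∧ x.c0 % 4 = 0 ∧ x.c1 % 4 = 0 ∧
    x.d0 % 4 = 0 ∧ x.d1 % 4 = 0 then
    some ⟨x.a0/4, x.a1/4, x.b0/4, x.b1/4, x.c0/4, x.c1/4, x.d0/4, x.d1/4⟩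
  else none

/-- `4 x - y` -/
def sub4 (x y : Code) : Code :=
  ⟨4*x.a0 - y.a0, 4*x.a1 - y.a1, 4*x.b0 - y.b0, 4*x.b1 - y.b1, 4*x.c0 - y.c0, 4*x.c1 - y.c1,
    4*x.d0 - y.d0, 4*x.d1 - y.d1⟩

/-- for `f` the raw product `c * ā`, the code of `x - c ā b` -/
def upd (x f b : Code) : Option Code := quarter (sub4 x (raw f b))

noncomputable section

/-- the golden ratio -/
def phi : ℝ := (1 + Real.sqrt 5) / 2

theorem phi_sq : phi * phi = phi + 1 := by
  unfold phi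
  have h : Real.sqrt 5 * Real.sqrt 5 = 5 := Real.mul_self_sqrt (by norm_num)
  nlinarith [h]

/-- the quaternion of the quadruple -/
def valr (x : Code) : Quaternion ℝ :=
  ⟨x.a0 + x.a1 * phi, x.b0 + x.b1 * phi, x.c0 + x.c1 * phi, x.d0 + x.d1 * phi⟩

/-- half of it -/
def val (x : Code) : Quaternion ℝ :=
  ⟨(x.a0 + x.a1 * phi)/2, (x.b0 + x.b1 * phi)/2, (x.c0 + x.c1 * phi)/2, (x.d0 + x.d1 * phi)/2⟩

theorem val_zero : val zero = 0 := by
  ext <;> simp [val, zero] <;> rfl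

theorem valr_mul (x y : Code) : valr x * valr y = valr (raw x y) := by
  have h := phi_sq
  apply Quaternion.ext
  · rw [Quaternion.re_mul]
    simp only [valr, raw]
    push_cast
    linear_combination ((x.a1:ℝ) * y.a1 - x.b1 * y.b1 - x.c1 * y.c1 - x.d1 * y.d1) * h
  · rw [Quaternion.imI_mul]
    simp only [valr, raw]
    push_cast
    linear_combination ((x.a1:ℝ) * y.b1 + x.b1 * y.a1 + x.c1 * y.d1 - x.d1 * y.c1) * h
  · rw [Quaternion.imJ_mul]
    simp only [valr, raw]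
    push_cast
    linear_combination ((x.a1:ℝ) * y.c1 - x.b1 * y.d1 + x.c1 * y.a1 + x.d1 * y.b1) * h
  · rw [Quaternion.imK_mul]
    simp only [valr, raw]
    push_cast
    linear_combination ((x.a1:ℝ) * y.d1 + x.b1 * y.c1 - x.c1 * y.b1 + x.d1 * y.a1) * h

theorem re_valr (x : Code) : (valr x).re = x.a0 + x.a1 * phi := rfl
theorem imI_valr (x : Code) : (valr x).imI = x.b0 + x.b1 * phi := rfl
theorem imJ_valr (x : Code) : (valr x).imJ = x.c0 + x.c1 * phi := rfl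
theorem imK_valr (x : Code) : (valr x).imK = x.d0 + x.d1 * phi := rfl
theorem re_val (x : Code) : (val x).re = (x.a0 + x.a1 * phi)/2 := rfl
theorem imI_val (x : Code) : (val x).imI = (x.b0 + x.b1 * phi)/2 := rfl
theorem imJ_val (x : Code) : (val x).imJ = (x.c0 + x.c1 * phi)/2 := rfl
theorem imK_val (x : Code) : (val x).imK = (x.d0 + x.d1 * phi)/2 := rfl

theorem val_eq (x : Code) : val x = (1/2 : ℝ) • valr x := by
  apply Quaternion.ext
  · rw [Quaternion.re_smul, re_val, re_valr, smul_eq_mul]; ring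
  · rw [Quaternion.imI_smul, imI_val, imI_valr, smul_eq_mul]; ring
  · rw [Quaternion.imJ_smul, imJ_val, imJ_valr, smul_eq_mul]; ring
  · rw [Quaternion.imK_smul, imK_val, imK_valr, smul_eq_mul]; ring

theorem val_upd (x c a b y : Code) (h : upd x (raw c a) b = some y) :
    val y = val x - val c * val a * val b := by
  have h3 : val c * val a * val b = (1/8 : ℝ) • valr (raw (raw c a) b) := by
    rw [← valr_mul, ← valr_mul, val_eq, val_eq, val_eq]
    simp only [smul_mul_assoc, mul_smul_comm, smul_smul]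
    norm_num
  rw [h3]
  unfold upd quarter at h
  set r := raw (raw c a) b with hr
  split_ifs at h with hc
  obtain ⟨h0, h1, h2, h3, h4, h5, h6, h7⟩ := hc
  have hy := Option.some.inj h
  subst hy
  have d : ∀ z : Int, z % 4 = 0 → ((z / 4 : Int) : ℝ) = (z : ℝ) / 4 := by
    intro z hz
    have : z = 4 * (z/4) := by omega
    have h2 : (z : ℝ) = 4 * ((z/4 : Int) : ℝ) := by exact_mod_cast this
    rw [h2]; ring
  apply Quaternion.ext
  · rw [Quaternion.re_sub, Quaternion.re_smul, re_val, re_val, re_valr, smul_eq_mul]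
    dsimp only
    rw [d _ h0, d _ h1]
    simp only [sub4]
    push_cast
    ring
  · rw [Quaternion.imI_sub, Quaternion.imI_smul, imI_val, imI_val, imI_valr, smul_eq_mul]
    dsimp only
    rw [d _ h2, d _ h3]
    simp only [sub4]
    push_cast
    ring
  · rw [Quaternion.imJ_sub, Quaternion.imJ_smul, imJ_val, imJ_val, imJ_valr, smul_eq_mul]
    dsimp only
    rw [d _ h4, d _ h5]
    simp only [sub4]
    push_cast
    ring
  · rw [Quaternion.imK_sub, Quaternion.imK_smul, imK_val, imK_val, imK_valr, smul_eq_mul]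
    dsimp only
    rw [d _ h6, d _ h7]
    simp only [sub4]
    push_cast
    ring

theorem val_conj (x : Code) : val (conj x) = star (val x) := by
  apply Quaternion.ext
  · rw [Quaternion.re_star, re_val, re_val]; rfl
  · rw [Quaternion.imI_star, imI_val, imI_val]; simp only [conj]; push_cast; ring
  · rw [Quaternion.imJ_star, imJ_val, imJ_val]; simp only [conj]; push_cast; ring
  · rw [Quaternion.imK_star, imK_val, imK_val]; simp only [conj]; push_cast; ring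

/-- the element has norm one -/
def unit? (x : Code) : Bool := raw (conj x) x = ⟨4,0,0,0,0,0,0,0⟩

theorem star_mul_of_unit (x : Code) (h : unit? x = true) : star (val x) * val x = 1 := by
  have h' : raw (conj x) x = ⟨4,0,0,0,0,0,0,0⟩ := by simpa [unit?] using h
  rw [← val_conj, val_eq, val_eq, smul_mul_smul_comm, valr_mul, h']
  apply Quaternion.ext
  · rw [Quaternion.re_smul, re_valr, smul_eq_mul, Quaternion.re_one]; norm_num
  · rw [Quaternion.imI_smul, imI_valr, smul_eq_mul, Quaternion.imI_one]; norm_num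
  · rw [Quaternion.imJ_smul, imJ_valr, smul_eq_mul, Quaternion.imJ_one]; norm_num
  · rw [Quaternion.imK_smul, imK_valr, smul_eq_mul, Quaternion.imK_one]; norm_num

end

end Code

end Pool.Agent.H315R3.QU
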