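import Pool.Agent.H315R3.QUAlg

set_option autoImplicit false

/-! The matrix (helper315, MP_debf2a_co). -/

namespace Pool.Agent.H315R3.QU

open Matrix Code

def cO : Code := ⟨2,0,0,0,0,0,0,0⟩
def cz : Code := ⟨0,0,0,0,0,0,0,0⟩
def c19 : Code := ⟨1,0,-1,1,0,1,0,0⟩
def c21 : Code := ⟨1,0,0,0,-1,1,0,1⟩
def c18 : Code := ⟨1,0,1,0,-1,0,-1,0⟩
def c92 : Code := ⟨-1,0,1,0,-1,0,-1,0⟩
def c17 : Code := ⟨1,0,1,0,-1,0,1,0⟩
def c45 : Code := ⟨0,0,2,0,0,0,0,0⟩

def Dc : List (List Code) :=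
  [[cz, cO, cO, cO, cO, cz, cO],
   [cz, cO, c19, c19, cO, cz, c21],
   [cO, cz, c18, c92, c92, cO, cz],
   [cO, cz, c17, cz, c45, c21, cz],
   [cO, cO, cO, cz, c18, cO, cz]]

def checkAll : Bool :=
  (List.range 6).all fun k => (List.sublistsLen k (List.range 5)).all fun gs =>
    (List.sublistsLen k (List.range 7)).all fun hs => (run k (sel Dc gs hs)).isSome

set_option maxRecDepth 100000 in
theorem checkAll_true : checkAll = true := by decide +kernel

end Pool.Agent.H315R3.QU
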