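import Mathlib

set_option autoImplicit false

/-! Study determinants of quaternion matrices and one elimination step (helper315, MP_debf2a_co). -/

namespace Pool.Agent.H315R3.QU

open Matrix

noncomputable section

/-- the standard embedding of the quaternions in the complex `2 × 2` matrices -/
def blk (x : Quaternion ℝ) : Matrix (Fin 2) (Fin 2) ℂ :=
  !![Complex.mk x.re x.imI, Complex.mk x.imJ x.imK;
     Complex.mk (-x.imJ) x.imK, Complex.mk x.re (-x.imI)]

theorem blk_mul (x y : Quaternion ℝ) : blk (x * y) = blk x * blk y := by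
  ext i j
  fin_cases i <;> fin_cases j <;>
    simp [blk, Matrix.mul_apply, Fin.sum_univ_two, Complex.ext_iff] <;> constructor <;> ring

theorem blk_add (x y : Quaternion ℝ) : blk (x + y) = blk x + blk y := by
  ext i j
  fin_cases i <;> fin_cases j <;>
    simp [blk, Complex.ext_iff] <;> ring

theorem blk_one : blk 1 = 1 := by
  ext i j
  fin_cases i <;> fin_cases j <;> simp [blk, Complex.ext_iff] <;> exact ⟨rfl, rfl⟩

theorem blk_zero : blk 0 = 0 := by
  ext i j
  fin_cases i <;> fin_cases j <;> simp [blk, Complex.ext_iff] <;> exact ⟨rfl, rfl⟩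

/-- the embedding as a ring homomorphism -/
def blkHom : Quaternion ℝ →+* Matrix (Fin 2) (Fin 2) ℂ where
  toFun := blk
  map_one' := blk_one
  map_mul' := blk_mul
  map_zero' := blk_zero
  map_add' := blk_add

theorem blkHom_apply (x : Quaternion ℝ) : blkHom x = blk x := rfl

theorem blk_injective : Function.Injective blk := by
  intro x y h
  have h1 := congrFun (congrFun h 0) 0
  have h2 := congrFun (congrFun h 0) 1
  simp [blk] at h1 h2
  exact Quaternion.ext _ _ h1.1 h1.2 h2.1 h2.2

/-- the complex matrix of a quaternion matrix -/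
def stu {m n : Type} (M : Matrix m n (Quaternion ℝ)) : Matrix (m × Fin 2) (n × Fin 2) ℂ :=
  Matrix.of fun p q => blk (M p.1 q.1) p.2 q.2

theorem stu_apply {m n : Type} (M : Matrix m n (Quaternion ℝ)) (p : m × Fin 2) (q : n × Fin 2) :
    stu M p q = blk (M p.1 q.1) p.2 q.2 := rfl

theorem stu_injective {m n : Type} : Function.Injective (stu (m := m) (n := n)) := by
  intro x y h
  ext1 i j
  apply blk_injective
  ext a b
  exact congrFun (congrFun h (i, a)) (j, b)

theorem stu_mul {l m n : Type} [Fintype m] (M : Matrix l m (Quaternion ℝ))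
    (N : Matrix m n (Quaternion ℝ)) : stu (M * N) = stu M * stu N := by
  ext ⟨i, a⟩ ⟨j, b⟩
  rw [stu_apply, Matrix.mul_apply, Matrix.mul_apply, Fintype.sum_prod_type]
  simp only [stu_apply]
  rw [← blkHom_apply, map_sum, Matrix.sum_apply]
  refine Finset.sum_congr rfl fun k _ => ?_
  rw [map_mul, Matrix.mul_apply]
  rfl

theorem stu_one {n : Type} [DecidableEq n] : stu (1 : Matrix n n (Quaternion ℝ)) = 1 := by
  ext ⟨i, a⟩ ⟨j, b⟩
  rw [stu_apply]
  by_cases h : i = j
  · subst h
    simp only [Matrix.one_apply_eq, blk_one]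
    rw [Matrix.one_apply, Matrix.one_apply]
    simp
  · simp only [Matrix.one_apply_ne h, blk_zero]
    rw [Matrix.one_apply_ne]
    · rfl
    · simp [h]

theorem det_stu_ne_zero {k : ℕ} (M : Matrix (Fin k) (Fin k) (Quaternion ℝ)) (h : IsUnit M) :
    (stu M).det ≠ 0 := by
  obtain ⟨N, hN⟩ := h.exists_right_inv
  have : stu M * stu N = 1 := by rw [← stu_mul, hN, stu_one]
  have h2 := congrArg Matrix.det this
  rw [Matrix.det_mul, Matrix.det_one] at h2
  exact left_ne_zero_of_mul_eq_one h2

instance : IsArtinianRing (Quaternion ℝ) := IsArtinianRing.of_finite ℝ _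

theorem isUnit_of_det_stu {k : ℕ} (M : Matrix (Fin k) (Fin k) (Quaternion ℝ))
    (h : (stu M).det ≠ 0) : IsUnit M := by
  haveI : IsArtinianRing (Matrix (Fin k) (Fin k) (Quaternion ℝ)) := IsArtinianRing.of_finite ℝ _
  rw [IsArtinianRing.isUnit_iff_isRightRegular]
  intro x y hxy
  have hxy' : x * M = y * M := hxy
  apply stu_injective
  have h2 : stu x * stu M = stu y * stu M := by rw [← stu_mul, ← stu_mul, hxy']
  have hu : IsUnit (stu M) := (Matrix.isUnit_iff_isUnit_det _).2 (isUnit_iff_ne_zero.2 h)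
  exact hu.mul_left_inj.1 h2

/-- a permutation of the rows does not change the Study determinant -/
theorem det_stu_rows {k : ℕ} (σ : Equiv.Perm (Fin k)) (M : Matrix (Fin k) (Fin k) (Quaternion ℝ)) :
    (stu (M.submatrix σ id)).det = (stu M).det := by
  have : stu (M.submatrix σ id) =
      (stu M).submatrix (Equiv.prodCongrLeft fun _ : Fin 2 => σ) id := by
    ext ⟨i, a⟩ ⟨j, b⟩
    rfl
  rw [this, Matrix.det_permute, Equiv.Perm.sign_prodCongrLeft]
  simp

theorem det_stu_cols {k : ℕ} (σ : Equiv.Perm (Fin k)) (M : Matrix (Fin k) (Fin k) (Quaternion ℝ)) :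
    (stu (M.submatrix id σ)).det = (stu M).det := by
  have : stu (M.submatrix id σ) =
      (stu M).submatrix id (Equiv.prodCongrLeft fun _ : Fin 2 => σ) := by
    ext ⟨i, a⟩ ⟨j, b⟩
    rfl
  rw [this, Matrix.det_permute', Equiv.Perm.sign_prodCongrLeft]
  simp

/-- the Schur complement of the first row -/
def schur {k : ℕ} (M : Matrix (Fin (k+1)) (Fin (k+1)) (Quaternion ℝ)) :
    Matrix (Fin k) (Fin k) (Quaternion ℝ) :=
  Matrix.of fun i j => M i.succ j.succ - M i.succ 0 * star (M 0 0) * M 0 j.succ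

/-- the splitting of the index set -/
def spl (k : ℕ) : Fin 2 ⊕ (Fin k × Fin 2) ≃ Fin (k+1) × Fin 2 where
  toFun := fun x => match x with
    | Sum.inl a => (0, a)
    | Sum.inr (i, a) => (i.succ, a)
  invFun := fun p => Fin.cases (motive := fun _ => Fin 2 ⊕ (Fin k × Fin 2)) (Sum.inl p.2)
    (fun i => Sum.inr (i, p.2)) p.1
  left_inv := by
    rintro (a | ⟨i, a⟩) <;> simp
  right_inv := by
    rintro ⟨i, a⟩
    refine Fin.cases ?_ (fun i => ?_) i <;> simp

theorem det_blk (a : Quaternion ℝ) (ha : star a * a = 1) : (blk a).det = 1 := by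
  have h1 : a.re^2 + a.imI^2 + a.imJ^2 + a.imK^2 = 1 := by
    have := congrArg (fun q : Quaternion ℝ => q.re) ha
    simp at this
    have h1 : QuaternionAlgebra.re (1 : Quaternion ℝ) = 1 := rfl
    rw [h1] at this
    linarith [this]
  rw [Matrix.det_fin_two]
  simp [blk, Complex.ext_iff]
  constructor
  · linarith [h1]
  · ring

theorem det_stu_schur {k : ℕ} (M : Matrix (Fin (k+1)) (Fin (k+1)) (Quaternion ℝ))
    (ha : star (M 0 0) * M 0 0 = 1) : (stu M).det = (stu (schur M)).det := by
  have ha' : M 0 0 * star (M 0 0) = 1 := by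
    have : (M 0 0) * star (M 0 0) = star (M 0 0) * (M 0 0) := by
      rw [Quaternion.self_mul_star, Quaternion.star_mul_self]
    rw [this, ha]
  letI : Invertible (blk (M 0 0)) :=
    ⟨blk (star (M 0 0)), by rw [← blk_mul, ha, blk_one], by rw [← blk_mul, ha', blk_one]⟩
  rw [← Matrix.det_submatrix_equiv_self (spl k) (stu M)]
  have hsub : (stu M).submatrix (spl k) (spl k) =
      Matrix.fromBlocks (blk (M 0 0))
        (Matrix.of fun (a : Fin 2) (q : Fin k × Fin 2) => blk (M 0 q.1.succ) a q.2)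
        (Matrix.of fun (p : Fin k × Fin 2) (b : Fin 2) => blk (M p.1.succ 0) p.2 b)
        (Matrix.of fun (p q : Fin k × Fin 2) => blk (M p.1.succ q.1.succ) p.2 q.2) := by
    ext (a | ⟨i, a⟩) (b | ⟨j, b⟩) <;> rfl
  rw [hsub, Matrix.det_fromBlocks₁₁, det_blk _ ha, one_mul]
  congr 1
  have hinv : ⅟(blk (M 0 0)) = blk (star (M 0 0)) := rfl
  rw [hinv]
  ext ⟨i, a⟩ ⟨j, b⟩
  rw [stu_apply]
  show _ = blk (M i.succ j.succ - M i.succ 0 * star (M 0 0) * M 0 j.succ) a b
  have hb : blk (M i.succ j.succ - M i.succ 0 * star (M 0 0) * M 0 j.succ) =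
      blk (M i.succ j.succ) - blk (M i.succ 0) * blk (star (M 0 0)) * blk (M 0 j.succ) := by
    simp only [← blkHom_apply, map_sub, map_mul]
  rw [hb]
  rw [Matrix.sub_apply, Matrix.sub_apply]
  congr 1

theorem det_stu_zero_col {k : ℕ} (M : Matrix (Fin (k+1)) (Fin (k+1)) (Quaternion ℝ))
    (h : ∀ i, M i 0 = 0) : (stu M).det = 0 := by
  apply Matrix.det_eq_zero_of_column_eq_zero (0, 0)
  rintro ⟨i, a⟩
  rw [stu_apply]
  simp only [h i, blk_zero]
  rfl

end

end Pool.Agent.H315R3.QU
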