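import Pool.Agent.H315R3.QUPart1

set_option autoImplicit false
set_option linter.unusedSimpArgs false

/-! Non-representability over commutative fields (helper315, MP_debf2a_co). -/

namespace Pool.Agent.H315R3.QU

open Matrix Code

/-- the normalised matrix -/
def nm {F : Type} [Field F] (a b c d e f g h k l m n p : F) : Matrix (Fin 5) (Fin 7) F :=
  !![0,1,1,1,1,0,1; 0,1,a,b,c,0,d; 1,0,e,f,g,1,0; 1,0,h,0,k,l,0; 1,1,m,0,n,p,0]

theorem alg {F : Type} [Field F] (a b c d e f g h k l m n p : F)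
    (h_c1 : c - 1 = 0)
    (h_m1 : -m + 1 = 0)
    (h_p1 : -p + 1 = 0)
    (h_ab : -a + b = 0)
    (h_fg : f - g = 0)
    (h_engm : -e*n + g*m = 0)
    (h_hnkm : h*n - k*m = 0)
    (h_gn : -g + n - 1 = 0)
    (h_efm : e - f - m = 0)
    (h_alh : -a*l - h*p + l*m = 0)
    (h_bgl : -b*g*l + b*k + c*f*l = 0)
    (h_dh : -a + d*h - d*m + d - h + m = 0)
    (h_last : -b*g + b*k + c*f - d*f + d*g - d*k = 0)
    (h_hne : -h ≠ 0)
    (h_nne : n ≠ 0)
    (h_lne : -l ≠ 0)
    (h_ane : a - 1 ≠ 0)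
    (h_l1ne : l - 1 ≠ 0) : False := by
  obtain rfl : c = 1 := by linear_combination h_c1
  obtain rfl : m = 1 := by linear_combination -h_m1
  obtain rfl : p = 1 := by linear_combination -h_p1
  obtain rfl : b = a := by linear_combination h_ab
  obtain rfl : f = g := by linear_combination h_fg
  rename' b => a, f => g
  have a1 : 1 - a ≠ 0 := by
    intro h0
    apply h_ane
    linear_combination -h0
  have hh : h ≠ 0 := by
    intro h0
    apply h_hne
    rw [h0]; ring
  have ll : l ≠ 0 := by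
    intro h0
    apply h_lne
    rw [h0]; ring
  -- `g = e n`, `k = h n`, `g = n - 1`, `e = g + 1`
  have q1 : g = n - 1 := by linear_combination -h_gn
  have q2 : e = n := by linear_combination h_efm + q1
  have q3 : g = n * n := by linear_combination h_engm + n * q2
  have q4 : k = h * n := by linear_combination -h_hnkm
  have q5 : h = l * (1 - a) := by linear_combination -h_alh
  have q6 : g * l * (1 - a) + a * k = 0 := by linear_combination h_bgl
  have q7 : h * n * (n + a) = 0 := by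
    linear_combination q6 - a * q4 + g * q5 - h * q3
  have q8 : a = -n := by
    have := (mul_eq_zero.1 q7).resolve_left (mul_ne_zero hh h_nne)
    linear_combination this
  have q9 : d * h - h = a - 1 := by linear_combination h_dh
  have q10 : n * (n * (1 - a) + h * (a - d)) = 0 := by
    linear_combination h_last - (1 - a) * q3 - (a - d) * q4
  have q11 : n * (1 - a) + h * (a - d) = 0 := (mul_eq_zero.1 q10).resolve_left h_nne
  have q12 : (h - (1 + n)) * (1 - a) = 0 := by
    linear_combination -q9 - q11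
  have q13 : h = 1 + n := by
    have := (mul_eq_zero.1 q12).resolve_right a1
    linear_combination this
  have q14 : (l - 1) * (1 - a) = 0 := by
    linear_combination -q5 + q13 + q8
  exact h_l1ne ((mul_eq_zero.1 q14).resolve_right a1)

set_option maxHeartbeats 4000000 in
theorem key {F : Type} [Field F] (a b c d e f g h k l m n p : F)
    (H : ∀ (φ : Fin 5 → Fin 5 ⊕ Fin 7) (bb : Bool),
      run 5 (sel Ec [0,1,2,3,4] (List.ofFn fun i => cix (φ i))) = some bb →
      (((Matrix.fromCols (1 : Matrix (Fin 5) (Fin 5) F)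
        (nm a b c d e f g h k l m n p)).submatrix id φ).det ≠ 0 ↔ bb = true)) : False := by
  have h_c1 : c - 1 = 0 := by
    have e0 : (Matrix.fromCols (1 : Matrix (Fin 5) (Fin 5) F)
        (nm a b c d e f g h k l m n p)).submatrix id ![Sum.inl 2, Sum.inl 3, Sum.inl 4, Sum.inr 1, Sum.inr 4] =
        !![0,0,0,1,1; 0,0,0,1,c; 1,0,0,0,g; 0,1,0,0,k; 0,0,1,1,n] := by
      ext i j
      fin_cases i <;> fin_cases j <;> simp [nm, Matrix.one_apply]
    have e : ((Matrix.fromCols (1 : Matrix (Fin 5) (Fin 5) F)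
        (nm a b c d e f g h k l m n p)).submatrix id ![Sum.inl 2, Sum.inl 3, Sum.inl 4, Sum.inr 1, Sum.inr 4]).det = c - 1 := by
      rw [e0]
      simp [Matrix.det_succ_column_zero, Fin.sum_univ_succ, Fin.succAbove]
      try ring
    have h1 := H ![Sum.inl 2, Sum.inl 3, Sum.inl 4, Sum.inr 1, Sum.inr 4] false (by decide +kernel)
    rw [e] at h1
    simpa using h1
  have h_m1 : -m + 1 = 0 := by
    have e0 : (Matrix.fromCols (1 : Matrix (Fin 5) (Fin 5) F)
        (nm a b c d e f g h k l m n p)).submatrix id ![Sum.inl 1, Sum.inl 2, Sum.inl 3, Sum.inr 1, Sum.inr 2] =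
        !![0,0,0,1,1; 1,0,0,1,a; 0,1,0,0,e; 0,0,1,0,h; 0,0,0,1,m] := by
      ext i j
      fin_cases i <;> fin_cases j <;> simp [nm, Matrix.one_apply]
    have e : ((Matrix.fromCols (1 : Matrix (Fin 5) (Fin 5) F)
        (nm a b c d e f g h k l m n p)).submatrix id ![Sum.inl 1, Sum.inl 2, Sum.inl 3, Sum.inr 1, Sum.inr 2]).det = -m + 1 := by
      rw [e0]
      simp [Matrix.det_succ_column_zero, Fin.sum_univ_succ, Fin.succAbove]
      try ring
    have h1 := H ![Sum.inl 1, Sum.inl 2, Sum.inl 3, Sum.inr 1, Sum.inr 2] false (by decide +kernel)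
    rw [e] at h1
    simpa using h1
  have h_p1 : -p + 1 = 0 := by
    have e0 : (Matrix.fromCols (1 : Matrix (Fin 5) (Fin 5) F)
        (nm a b c d e f g h k l m n p)).submatrix id ![Sum.inl 0, Sum.inl 1, Sum.inl 3, Sum.inr 0, Sum.inr 5] =
        !![1,0,0,0,0; 0,1,0,0,0; 0,0,0,1,1; 0,0,1,1,l; 0,0,0,1,p] := by
      ext i j
      fin_cases i <;> fin_cases j <;> simp [nm, Matrix.one_apply]
    have e : ((Matrix.fromCols (1 : Matrix (Fin 5) (Fin 5) F)
        (nm a b c d e f g h k l m n p)).submatrix id ![Sum.inl 0, Sum.inl 1, Sum.inl 3, Sum.inr 0, Sum.inr 5]).det = -p + 1 := by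
      rw [e0]
      simp [Matrix.det_succ_column_zero, Fin.sum_univ_succ, Fin.succAbove]
      try ring
    have h1 := H ![Sum.inl 0, Sum.inl 1, Sum.inl 3, Sum.inr 0, Sum.inr 5] false (by decide +kernel)
    rw [e] at h1
    simpa using h1
  have h_ab : -a + b = 0 := by
    have e0 : (Matrix.fromCols (1 : Matrix (Fin 5) (Fin 5) F)
        (nm a b c d e f g h k l m n p)).submatrix id ![Sum.inl 2, Sum.inl 3, Sum.inl 4, Sum.inr 2, Sum.inr 3] =
        !![0,0,0,1,1; 0,0,0,a,b; 1,0,0,e,f; 0,1,0,h,0; 0,0,1,m,0] := by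
      ext i j
      fin_cases i <;> fin_cases j <;> simp [nm, Matrix.one_apply]
    have e : ((Matrix.fromCols (1 : Matrix (Fin 5) (Fin 5) F)
        (nm a b c d e f g h k l m n p)).submatrix id ![Sum.inl 2, Sum.inl 3, Sum.inl 4, Sum.inr 2, Sum.inr 3]).det = -a + b := by
      rw [e0]
      simp [Matrix.det_succ_column_zero, Fin.sum_univ_succ, Fin.succAbove]
      try ring
    have h1 := H ![Sum.inl 2, Sum.inl 3, Sum.inl 4, Sum.inr 2, Sum.inr 3] false (by decide +kernel)
    rw [e] at h1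
    simpa using h1
  have h_fg : f - g = 0 := by
    have e0 : (Matrix.fromCols (1 : Matrix (Fin 5) (Fin 5) F)
        (nm a b c d e f g h k l m n p)).submatrix id ![Sum.inl 1, Sum.inl 3, Sum.inl 4, Sum.inr 3, Sum.inr 4] =
        !![0,0,0,1,1; 1,0,0,b,c; 0,0,0,f,g; 0,1,0,0,k; 0,0,1,0,n] := by
      ext i j
      fin_cases i <;> fin_cases j <;> simp [nm, Matrix.one_apply]
    have e : ((Matrix.fromCols (1 : Matrix (Fin 5) (Fin 5) F)
        (nm a b c d e f g h k l m n p)).submatrix id ![Sum.inl 1, Sum.inl 3, Sum.inl 4, Sum.inr 3, Sum.inr 4]).det = f - g := by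
      rw [e0]
      simp [Matrix.det_succ_column_zero, Fin.sum_univ_succ, Fin.succAbove]
      try ring
    have h1 := H ![Sum.inl 1, Sum.inl 3, Sum.inl 4, Sum.inr 3, Sum.inr 4] false (by decide +kernel)
    rw [e] at h1
    simpa using h1
  have h_engm : -e*n + g*m = 0 := by
    have e0 : (Matrix.fromCols (1 : Matrix (Fin 5) (Fin 5) F)
        (nm a b c d e f g h k l m n p)).submatrix id ![Sum.inl 0, Sum.inl 1, Sum.inl 3, Sum.inr 2, Sum.inr 4] =
        !![1,0,0,1,1; 0,1,0,a,c; 0,0,0,e,g; 0,0,1,h,k; 0,0,0,m,n] := by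
      ext i j
      fin_cases i <;> fin_cases j <;> simp [nm, Matrix.one_apply]
    have e : ((Matrix.fromCols (1 : Matrix (Fin 5) (Fin 5) F)
        (nm a b c d e f g h k l m n p)).submatrix id ![Sum.inl 0, Sum.inl 1, Sum.inl 3, Sum.inr 2, Sum.inr 4]).det = -e*n + g*m := by
      rw [e0]
      simp [Matrix.det_succ_column_zero, Fin.sum_univ_succ, Fin.succAbove]
      try ring
    have h1 := H ![Sum.inl 0, Sum.inl 1, Sum.inl 3, Sum.inr 2, Sum.inr 4] false (by decide +kernel)
    rw [e] at h1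
    simpa using h1
  have h_hnkm : h*n - k*m = 0 := by
    have e0 : (Matrix.fromCols (1 : Matrix (Fin 5) (Fin 5) F)
        (nm a b c d e f g h k l m n p)).submatrix id ![Sum.inl 0, Sum.inl 1, Sum.inl 2, Sum.inr 2, Sum.inr 4] =
        !![1,0,0,1,1; 0,1,0,a,c; 0,0,1,e,g; 0,0,0,h,k; 0,0,0,m,n] := by
      ext i j
      fin_cases i <;> fin_cases j <;> simp [nm, Matrix.one_apply]
    have e : ((Matrix.fromCols (1 : Matrix (Fin 5) (Fin 5) F)
        (nm a b c d e f g h k l m n p)).submatrix id ![Sum.inl 0, Sum.inl 1, Sum.inl 2, Sum.inr 2, Sum.inr 4]).det = h*n - k*m := by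
      rw [e0]
      simp [Matrix.det_succ_column_zero, Fin.sum_univ_succ, Fin.succAbove]
      try ring
    have h1 := H ![Sum.inl 0, Sum.inl 1, Sum.inl 2, Sum.inr 2, Sum.inr 4] false (by decide +kernel)
    rw [e] at h1
    simpa using h1
  have h_gn : -g + n - 1 = 0 := by
    have e0 : (Matrix.fromCols (1 : Matrix (Fin 5) (Fin 5) F)
        (nm a b c d e f g h k l m n p)).submatrix id ![Sum.inl 1, Sum.inl 3, Sum.inr 0, Sum.inr 1, Sum.inr 4] =
        !![0,0,0,1,1; 1,0,0,1,c; 0,0,1,0,g; 0,1,1,0,k; 0,0,1,1,n] := by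
      ext i j
      fin_cases i <;> fin_cases j <;> simp [nm, Matrix.one_apply]
    have e : ((Matrix.fromCols (1 : Matrix (Fin 5) (Fin 5) F)
        (nm a b c d e f g h k l m n p)).submatrix id ![Sum.inl 1, Sum.inl 3, Sum.inr 0, Sum.inr 1, Sum.inr 4]).det = -g + n - 1 := by
      rw [e0]
      simp [Matrix.det_succ_column_zero, Fin.sum_univ_succ, Fin.succAbove]
      try ring
    have h1 := H ![Sum.inl 1, Sum.inl 3, Sum.inr 0, Sum.inr 1, Sum.inr 4] false (by decide +kernel)
    rw [e] at h1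
    simpa using h1
  have h_efm : e - f - m = 0 := by
    have e0 : (Matrix.fromCols (1 : Matrix (Fin 5) (Fin 5) F)
        (nm a b c d e f g h k l m n p)).submatrix id ![Sum.inl 1, Sum.inl 3, Sum.inr 0, Sum.inr 2, Sum.inr 3] =
        !![0,0,0,1,1; 1,0,0,a,b; 0,0,1,e,f; 0,1,1,h,0; 0,0,1,m,0] := by
      ext i j
      fin_cases i <;> fin_cases j <;> simp [nm, Matrix.one_apply]
    have e : ((Matrix.fromCols (1 : Matrix (Fin 5) (Fin 5) F)
        (nm a b c d e f g h k l m n p)).submatrix id ![Sum.inl 1, Sum.inl 3, Sum.inr 0, Sum.inr 2, Sum.inr 3]).det = e - f - m := by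
      rw [e0]
      simp [Matrix.det_succ_column_zero, Fin.sum_univ_succ, Fin.succAbove]
      try ring
    have h1 := H ![Sum.inl 1, Sum.inl 3, Sum.inr 0, Sum.inr 2, Sum.inr 3] false (by decide +kernel)
    rw [e] at h1
    simpa using h1
  have h_alh : -a*l - h*p + l*m = 0 := by
    have e0 : (Matrix.fromCols (1 : Matrix (Fin 5) (Fin 5) F)
        (nm a b c d e f g h k l m n p)).submatrix id ![Sum.inl 0, Sum.inl 2, Sum.inr 1, Sum.inr 2, Sum.inr 5] =
        !![1,0,1,1,0; 0,0,1,a,0; 0,1,0,e,1; 0,0,0,h,l; 0,0,1,m,p] := by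
      ext i j
      fin_cases i <;> fin_cases j <;> simp [nm, Matrix.one_apply]
    have e : ((Matrix.fromCols (1 : Matrix (Fin 5) (Fin 5) F)
        (nm a b c d e f g h k l m n p)).submatrix id ![Sum.inl 0, Sum.inl 2, Sum.inr 1, Sum.inr 2, Sum.inr 5]).det = -a*l - h*p + l*m := by
      rw [e0]
      simp [Matrix.det_succ_column_zero, Fin.sum_univ_succ, Fin.succAbove]
      try ring
    have h1 := H ![Sum.inl 0, Sum.inl 2, Sum.inr 1, Sum.inr 2, Sum.inr 5] false (by decide +kernel)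
    rw [e] at h1
    simpa using h1
  have h_bgl : -b*g*l + b*k + c*f*l = 0 := by
    have e0 : (Matrix.fromCols (1 : Matrix (Fin 5) (Fin 5) F)
        (nm a b c d e f g h k l m n p)).submatrix id ![Sum.inl 0, Sum.inl 4, Sum.inr 3, Sum.inr 4, Sum.inr 5] =
        !![1,0,1,1,0; 0,0,b,c,0; 0,0,f,g,1; 0,0,0,k,l; 0,1,0,n,p] := by
      ext i j
      fin_cases i <;> fin_cases j <;> simp [nm, Matrix.one_apply]
    have e : ((Matrix.fromCols (1 : Matrix (Fin 5) (Fin 5) F)
        (nm a b c d e f g h k l m n p)).submatrix id ![Sum.inl 0, Sum.inl 4, Sum.inr 3, Sum.inr 4, Sum.inr 5]).det = -b*g*l + b*k + c*f*l := by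
      rw [e0]
      simp [Matrix.det_succ_column_zero, Fin.sum_univ_succ, Fin.succAbove]
      try ring
    have h1 := H ![Sum.inl 0, Sum.inl 4, Sum.inr 3, Sum.inr 4, Sum.inr 5] false (by decide +kernel)
    rw [e] at h1
    simpa using h1
  have h_dh : -a + d*h - d*m + d - h + m = 0 := by
    have e0 : (Matrix.fromCols (1 : Matrix (Fin 5) (Fin 5) F)
        (nm a b c d e f g h k l m n p)).submatrix id ![Sum.inl 2, Sum.inr 0, Sum.inr 1, Sum.inr 2, Sum.inr 6] =
        !![0,0,1,1,1; 0,0,1,a,d; 1,1,0,e,0; 0,1,0,h,0; 0,1,1,m,0] := by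
      ext i j
      fin_cases i <;> fin_cases j <;> simp [nm, Matrix.one_apply]
    have e : ((Matrix.fromCols (1 : Matrix (Fin 5) (Fin 5) F)
        (nm a b c d e f g h k l m n p)).submatrix id ![Sum.inl 2, Sum.inr 0, Sum.inr 1, Sum.inr 2, Sum.inr 6]).det = -a + d*h - d*m + d - h + m := by
      rw [e0]
      simp [Matrix.det_succ_column_zero, Fin.sum_univ_succ, Fin.succAbove]
      try ring
    have h1 := H ![Sum.inl 2, Sum.inr 0, Sum.inr 1, Sum.inr 2, Sum.inr 6] false (by decide +kernel)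
    rw [e] at h1
    simpa using h1
  have h_last : -b*g + b*k + c*f - d*f + d*g - d*k = 0 := by
    have e0 : (Matrix.fromCols (1 : Matrix (Fin 5) (Fin 5) F)
        (nm a b c d e f g h k l m n p)).submatrix id ![Sum.inl 4, Sum.inr 0, Sum.inr 3, Sum.inr 4, Sum.inr 6] =
        !![0,0,1,1,1; 0,0,b,c,d; 0,1,f,g,0; 0,1,0,k,0; 1,1,0,n,0] := by
      ext i j
      fin_cases i <;> fin_cases j <;> simp [nm, Matrix.one_apply]
    have e : ((Matrix.fromCols (1 : Matrix (Fin 5) (Fin 5) F)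
        (nm a b c d e f g h k l m n p)).submatrix id ![Sum.inl 4, Sum.inr 0, Sum.inr 3, Sum.inr 4, Sum.inr 6]).det = -b*g + b*k + c*f - d*f + d*g - d*k := by
      rw [e0]
      simp [Matrix.det_succ_column_zero, Fin.sum_univ_succ, Fin.succAbove]
      try ring
    have h1 := H ![Sum.inl 4, Sum.inr 0, Sum.inr 3, Sum.inr 4, Sum.inr 6] false (by decide +kernel)
    rw [e] at h1
    simpa using h1
  have h_hne : -h ≠ 0 := by
    have e0 : (Matrix.fromCols (1 : Matrix (Fin 5) (Fin 5) F)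
        (nm a b c d e f g h k l m n p)).submatrix id ![Sum.inl 0, Sum.inl 1, Sum.inl 2, Sum.inl 4, Sum.inr 2] =
        !![1,0,0,0,1; 0,1,0,0,a; 0,0,1,0,e; 0,0,0,0,h; 0,0,0,1,m] := by
      ext i j
      fin_cases i <;> fin_cases j <;> simp [nm, Matrix.one_apply]
    have e : ((Matrix.fromCols (1 : Matrix (Fin 5) (Fin 5) F)
        (nm a b c d e f g h k l m n p)).submatrix id ![Sum.inl 0, Sum.inl 1, Sum.inl 2, Sum.inl 4, Sum.inr 2]).det = -h := by
      rw [e0]
      simp [Matrix.det_succ_column_zero, Fin.sum_univ_succ, Fin.succAbove]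
      try ring
    have h1 := H ![Sum.inl 0, Sum.inl 1, Sum.inl 2, Sum.inl 4, Sum.inr 2] true (by decide +kernel)
    rw [e] at h1
    simpa using h1
  have h_nne : n ≠ 0 := by
    have e0 : (Matrix.fromCols (1 : Matrix (Fin 5) (Fin 5) F)
        (nm a b c d e f g h k l m n p)).submatrix id ![Sum.inl 0, Sum.inl 1, Sum.inl 2, Sum.inl 3, Sum.inr 4] =
        !![1,0,0,0,1; 0,1,0,0,c; 0,0,1,0,g; 0,0,0,1,k; 0,0,0,0,n] := by
      ext i j
      fin_cases i <;> fin_cases j <;> simp [nm, Matrix.one_apply]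
    have e : ((Matrix.fromCols (1 : Matrix (Fin 5) (Fin 5) F)
        (nm a b c d e f g h k l m n p)).submatrix id ![Sum.inl 0, Sum.inl 1, Sum.inl 2, Sum.inl 3, Sum.inr 4]).det = n := by
      rw [e0]
      simp [Matrix.det_succ_column_zero, Fin.sum_univ_succ, Fin.succAbove]
      try ring
    have h1 := H ![Sum.inl 0, Sum.inl 1, Sum.inl 2, Sum.inl 3, Sum.inr 4] true (by decide +kernel)
    rw [e] at h1
    simpa using h1
  have h_lne : -l ≠ 0 := by
    have e0 : (Matrix.fromCols (1 : Matrix (Fin 5) (Fin 5) F)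
        (nm a b c d e f g h k l m n p)).submatrix id ![Sum.inl 0, Sum.inl 1, Sum.inl 2, Sum.inl 4, Sum.inr 5] =
        !![1,0,0,0,0; 0,1,0,0,0; 0,0,1,0,1; 0,0,0,0,l; 0,0,0,1,p] := by
      ext i j
      fin_cases i <;> fin_cases j <;> simp [nm, Matrix.one_apply]
    have e : ((Matrix.fromCols (1 : Matrix (Fin 5) (Fin 5) F)
        (nm a b c d e f g h k l m n p)).submatrix id ![Sum.inl 0, Sum.inl 1, Sum.inl 2, Sum.inl 4, Sum.inr 5]).det = -l := by
      rw [e0]
      simp [Matrix.det_succ_column_zero, Fin.sum_univ_succ, Fin.succAbove]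
      try ring
    have h1 := H ![Sum.inl 0, Sum.inl 1, Sum.inl 2, Sum.inl 4, Sum.inr 5] true (by decide +kernel)
    rw [e] at h1
    simpa using h1
  have h_ane : a - 1 ≠ 0 := by
    have e0 : (Matrix.fromCols (1 : Matrix (Fin 5) (Fin 5) F)
        (nm a b c d e f g h k l m n p)).submatrix id ![Sum.inl 2, Sum.inl 3, Sum.inl 4, Sum.inr 1, Sum.inr 2] =
        !![0,0,0,1,1; 0,0,0,1,a; 1,0,0,0,e; 0,1,0,0,h; 0,0,1,1,m] := by
      ext i j
      fin_cases i <;> fin_cases j <;> simp [nm, Matrix.one_apply]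
    have e : ((Matrix.fromCols (1 : Matrix (Fin 5) (Fin 5) F)
        (nm a b c d e f g h k l m n p)).submatrix id ![Sum.inl 2, Sum.inl 3, Sum.inl 4, Sum.inr 1, Sum.inr 2]).det = a - 1 := by
      rw [e0]
      simp [Matrix.det_succ_column_zero, Fin.sum_univ_succ, Fin.succAbove]
      try ring
    have h1 := H ![Sum.inl 2, Sum.inl 3, Sum.inl 4, Sum.inr 1, Sum.inr 2] true (by decide +kernel)
    rw [e] at h1
    simpa using h1
  have h_l1ne : l - 1 ≠ 0 := by
    have e0 : (Matrix.fromCols (1 : Matrix (Fin 5) (Fin 5) F)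
        (nm a b c d e f g h k l m n p)).submatrix id ![Sum.inl 0, Sum.inl 1, Sum.inl 4, Sum.inr 0, Sum.inr 5] =
        !![1,0,0,0,0; 0,1,0,0,0; 0,0,0,1,1; 0,0,0,1,l; 0,0,1,1,p] := by
      ext i j
      fin_cases i <;> fin_cases j <;> simp [nm, Matrix.one_apply]
    have e : ((Matrix.fromCols (1 : Matrix (Fin 5) (Fin 5) F)
        (nm a b c d e f g h k l m n p)).submatrix id ![Sum.inl 0, Sum.inl 1, Sum.inl 4, Sum.inr 0, Sum.inr 5]).det = l - 1 := by
      rw [e0]
      simp [Matrix.det_succ_column_zero, Fin.sum_univ_succ, Fin.succAbove]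
      try ring
    have h1 := H ![Sum.inl 0, Sum.inl 1, Sum.inl 4, Sum.inr 0, Sum.inr 5] true (by decide +kernel)
    rw [e] at h1
    simpa using h1
  exact alg a b c d e f g h k l m n p h_c1 h_m1 h_p1 h_ab h_fg h_engm h_hnkm h_gn h_efm h_alh h_bgl h_dh h_last h_hne h_nne h_lne h_ane h_l1ne

end Pool.Agent.H315R3.QU
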