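import Pool.Agent.H315R3.QUKey

set_option autoImplicit false

/-! Normalisation and the main result (helper315, MP_debf2a_co). -/

namespace Pool.Agent.H315R3.QU

open Matrix Code

variable {F : Type} [Field F]

theorem det_upd (D : Matrix (Fin 5) (Fin 7) F) (i : Fin 5) (j : Fin 7) :
    ((Matrix.fromCols (1 : Matrix (Fin 5) (Fin 5) F) D).submatrix id
      (Function.update Sum.inl i (Sum.inr j))).det = D i j := by
  have h : (Matrix.fromCols (1 : Matrix (Fin 5) (Fin 5) F) D).submatrix id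
      (Function.update Sum.inl i (Sum.inr j)) =
      (1 : Matrix (Fin 5) (Fin 5) F).updateCol i (fun r => D r j) := by
    ext a b
    rw [Matrix.submatrix_apply, Matrix.updateCol_apply]
    by_cases hb : b = i
    · subst hb
      simp
    · simp [Function.update_of_ne hb, hb]
  rw [h, ← Matrix.cramer_apply, Matrix.cramer_one]
  rfl

/-- scaling of rows and columns -/
theorem det_scale (D : Matrix (Fin 5) (Fin 7) F) (r : Fin 5 → F) (c : Fin 7 → F)
    (hr : ∀ i, r i ≠ 0) (hc : ∀ j, c j ≠ 0) (φ : Fin 5 → Fin 5 ⊕ Fin 7) :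
    ((Matrix.fromCols (1 : Matrix (Fin 5) (Fin 5) F)
      (Matrix.of fun i j => D i j / (r i * c j))).submatrix id φ).det ≠ 0 ↔
    ((Matrix.fromCols (1 : Matrix (Fin 5) (Fin 5) F) D).submatrix id φ).det ≠ 0 := by
  set s : Fin 5 ⊕ Fin 7 → F := Sum.elim r (fun j => (c j)⁻¹) with hs
  have hs0 : ∀ x, s x ≠ 0 := by
    rintro (i | j)
    · exact hr i
    · exact inv_ne_zero (hc j)
  have e : ((Matrix.fromCols (1 : Matrix (Fin 5) (Fin 5) F)
      (Matrix.of fun i j => D i j / (r i * c j))).submatrix id φ) =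
      Matrix.of fun i j => (r i)⁻¹ * (Matrix.of fun i j => s (φ j) *
        (((Matrix.fromCols (1 : Matrix (Fin 5) (Fin 5) F) D).submatrix id φ) i j)) i j := by
    ext i j
    simp only [Matrix.submatrix_apply, id, Matrix.of_apply]
    rcases φ j with x | x
    · simp only [Matrix.fromCols_apply_inl, hs, Sum.elim_inl]
      by_cases h : i = x
      · subst h
        simp [hr i]
      · simp [Matrix.one_apply_ne h]
    · simp only [Matrix.fromCols_apply_inr, hs, Sum.elim_inr, Matrix.of_apply]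
      rw [div_eq_mul_inv, mul_inv]
      ring
  rw [e, Matrix.det_mul_column, Matrix.det_mul_row]
  have h1 : (∏ i, (r i)⁻¹) ≠ 0 := Finset.prod_ne_zero_iff.2 fun i _ => inv_ne_zero (hr i)
  have h2 : (∏ i, s (φ i)) ≠ 0 := Finset.prod_ne_zero_iff.2 fun i _ => hs0 _
  constructor
  · intro h h0
    apply h
    rw [h0]; simp
  · intro h
    exact mul_ne_zero h1 (mul_ne_zero h2 h)

theorem no_rep (E : Matrix (Fin 5) (Fin 5 ⊕ Fin 7) F)
    (H : ∀ (φ : Fin 5 → Fin 5 ⊕ Fin 7) (bb : Bool),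
      run 5 (sel Ec [0,1,2,3,4] (List.ofFn fun i => cix (φ i))) = some bb →
      (IsUnit (E.submatrix id φ) ↔ bb = true)) : False := by
  have hA : IsUnit (E.submatrix id Sum.inl) := (H Sum.inl true (by decide +kernel)).2 rfl
  set A := E.submatrix id Sum.inl with hAdef
  have hAdet : IsUnit A.det := (Matrix.isUnit_iff_isUnit_det A).1 hA
  set D := A⁻¹ * E.submatrix id Sum.inr with hD
  have hE : E = A * Matrix.fromCols 1 D := by
    rw [Matrix.mul_fromCols, Matrix.mul_one, hD, ← Matrix.mul_assoc, Matrix.mul_nonsing_inv _ hAdet,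
      Matrix.one_mul]
    ext i (j | j) <;> rfl
  have H1 : ∀ (φ : Fin 5 → Fin 5 ⊕ Fin 7) (bb : Bool),
      run 5 (sel Ec [0,1,2,3,4] (List.ofFn fun i => cix (φ i))) = some bb →
      (((Matrix.fromCols (1 : Matrix (Fin 5) (Fin 5) F) D).submatrix id φ).det ≠ 0 ↔
        bb = true) := by
    intro φ bb h
    rw [← H φ bb h]
    have e : E.submatrix id φ =
        A * (Matrix.fromCols (1 : Matrix (Fin 5) (Fin 5) F) D).submatrix id φ := by
      conv_lhs => rw [hE]
      rfl
    rw [e, Matrix.isUnit_iff_isUnit_det, Matrix.det_mul, IsUnit.mul_iff]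
    simp only [hAdet, true_and, isUnit_iff_ne_zero]
  have ent0 : ∀ (i : Fin 5) (j : Fin 7) (bb : Bool),
      run 5 (sel Ec [0,1,2,3,4] (List.ofFn fun a => cix (Function.update Sum.inl i (Sum.inr j) a)))
        = some bb → (D i j ≠ 0 ↔ bb = true) := by
    intro i j bb h
    rw [← H1 _ bb h, det_upd]
  have z00 : D 0 0 = 0 := by simpa using ent0 0 0 false (by decide +kernel)
  have z05 : D 0 5 = 0 := by simpa using ent0 0 5 false (by decide +kernel)
  have z10 : D 1 0 = 0 := by simpa using ent0 1 0 false (by decide +kernel)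
  have z15 : D 1 5 = 0 := by simpa using ent0 1 5 false (by decide +kernel)
  have z21 : D 2 1 = 0 := by simpa using ent0 2 1 false (by decide +kernel)
  have z26 : D 2 6 = 0 := by simpa using ent0 2 6 false (by decide +kernel)
  have z31 : D 3 1 = 0 := by simpa using ent0 3 1 false (by decide +kernel)
  have z33 : D 3 3 = 0 := by simpa using ent0 3 3 false (by decide +kernel)
  have z36 : D 3 6 = 0 := by simpa using ent0 3 6 false (by decide +kernel)
  have z43 : D 4 3 = 0 := by simpa using ent0 4 3 false (by decide +kernel)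
  have z46 : D 4 6 = 0 := by simpa using ent0 4 6 false (by decide +kernel)
  have n01 : D 0 1 ≠ 0 := (ent0 0 1 true (by decide +kernel)).2 rfl
  have n02 : D 0 2 ≠ 0 := (ent0 0 2 true (by decide +kernel)).2 rfl
  have n03 : D 0 3 ≠ 0 := (ent0 0 3 true (by decide +kernel)).2 rfl
  have n04 : D 0 4 ≠ 0 := (ent0 0 4 true (by decide +kernel)).2 rfl
  have n06 : D 0 6 ≠ 0 := (ent0 0 6 true (by decide +kernel)).2 rfl
  have n11 : D 1 1 ≠ 0 := (ent0 1 1 true (by decide +kernel)).2 rfl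
  have n41 : D 4 1 ≠ 0 := (ent0 4 1 true (by decide +kernel)).2 rfl
  have n40 : D 4 0 ≠ 0 := (ent0 4 0 true (by decide +kernel)).2 rfl
  have n20 : D 2 0 ≠ 0 := (ent0 2 0 true (by decide +kernel)).2 rfl
  have n30 : D 3 0 ≠ 0 := (ent0 3 0 true (by decide +kernel)).2 rfl
  have n25 : D 2 5 ≠ 0 := (ent0 2 5 true (by decide +kernel)).2 rfl
  set r1 := D 1 1 / D 0 1 with hr1
  set r4 := D 4 1 / D 0 1 with hr4
  set c0 := D 4 0 / r4 with hc0
  set r2 := D 2 0 / c0 with hr2
  set r3 := D 3 0 / c0 with hr3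
  set c5 := D 2 5 / r2 with hc5
  have r1' : r1 ≠ 0 := div_ne_zero n11 n01
  have r4' : r4 ≠ 0 := div_ne_zero n41 n01
  have c0' : c0 ≠ 0 := div_ne_zero n40 r4'
  have r2' : r2 ≠ 0 := div_ne_zero n20 c0'
  have r3' : r3 ≠ 0 := div_ne_zero n30 c0'
  have c5' : c5 ≠ 0 := div_ne_zero n25 r2'
  set r : Fin 5 → F := ![1, r1, r2, r3, r4] with hr
  set c : Fin 7 → F := ![c0, D 0 1, D 0 2, D 0 3, D 0 4, c5, D 0 6] with hc
  have hr0 : ∀ i, r i ≠ 0 := by
    intro i
    fin_cases i
    · exact one_ne_zero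
    · exact r1'
    · exact r2'
    · exact r3'
    · exact r4'
  have hc00 : ∀ i, c i ≠ 0 := by
    intro i
    fin_cases i
    · exact c0'
    · exact n01
    · exact n02
    · exact n03
    · exact n04
    · exact c5'
    · exact n06
  have en : (Matrix.of fun i j => D i j / (r i * c j)) =
      nm (D 1 2 / (r 1 * c 2)) (D 1 3 / (r 1 * c 3)) (D 1 4 / (r 1 * c 4)) (D 1 6 / (r 1 * c 6))
        (D 2 2 / (r 2 * c 2)) (D 2 3 / (r 2 * c 3)) (D 2 4 / (r 2 * c 4))
        (D 3 2 / (r 3 * c 2)) (D 3 4 / (r 3 * c 4)) (D 3 5 / (r 3 * c 5))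
        (D 4 2 / (r 4 * c 2)) (D 4 4 / (r 4 * c 4)) (D 4 5 / (r 4 * c 5)) := by
    have t11 : D 1 1 / (r 1 * c 1) = 1 := by
      show D 1 1 / (r1 * D 0 1) = 1
      rw [hr1]; field_simp
    have t41 : D 4 1 / (r 4 * c 1) = 1 := by
      show D 4 1 / (r4 * D 0 1) = 1
      rw [hr4]; field_simp
    have t40 : D 4 0 / (r 4 * c 0) = 1 := by
      show D 4 0 / (r4 * c0) = 1
      rw [hc0]; field_simp
    have t20 : D 2 0 / (r 2 * c 0) = 1 := by
      show D 2 0 / (r2 * c0) = 1
      rw [hr2]; field_simp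
    have t30 : D 3 0 / (r 3 * c 0) = 1 := by
      show D 3 0 / (r3 * c0) = 1
      rw [hr3]; field_simp
    have t25 : D 2 5 / (r 2 * c 5) = 1 := by
      show D 2 5 / (r2 * c5) = 1
      rw [hc5]; field_simp
    have t01 : D 0 1 / (r 0 * c 1) = 1 := by
      show D 0 1 / (1 * D 0 1) = 1
      field_simp
    have t02 : D 0 2 / (r 0 * c 2) = 1 := by
      show D 0 2 / (1 * D 0 2) = 1
      field_simp
    have t03 : D 0 3 / (r 0 * c 3) = 1 := by
      show D 0 3 / (1 * D 0 3) = 1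
      field_simp
    have t04 : D 0 4 / (r 0 * c 4) = 1 := by
      show D 0 4 / (1 * D 0 4) = 1
      field_simp
    have t06 : D 0 6 / (r 0 * c 6) = 1 := by
      show D 0 6 / (1 * D 0 6) = 1
      field_simp
    ext i j
    rw [Matrix.of_apply]
    fin_cases i <;> fin_cases j
    · exact (by rw [z00, zero_div] : D 0 0 / (r 0 * c 0) = 0)
    · exact t01
    · exact t02
    · exact t03
    · exact t04
    · exact (by rw [z05, zero_div] : D 0 5 / (r 0 * c 5) = 0)
    · exact t06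
    · exact (by rw [z10, zero_div] : D 1 0 / (r 1 * c 0) = 0)
    · exact t11
    · rfl
    · rfl
    · rfl
    · exact (by rw [z15, zero_div] : D 1 5 / (r 1 * c 5) = 0)
    · rfl
    · exact t20
    · exact (by rw [z21, zero_div] : D 2 1 / (r 2 * c 1) = 0)
    · rfl
    · rfl
    · rfl
    · exact t25
    · exact (by rw [z26, zero_div] : D 2 6 / (r 2 * c 6) = 0)
    · exact t30
    · exact (by rw [z31, zero_div] : D 3 1 / (r 3 * c 1) = 0)
    · rfl
    · exact (by rw [z33, zero_div] : D 3 3 / (r 3 * c 3) = 0)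
    · rfl
    · rfl
    · exact (by rw [z36, zero_div] : D 3 6 / (r 3 * c 6) = 0)
    · exact t40
    · exact t41
    · rfl
    · exact (by rw [z43, zero_div] : D 4 3 / (r 4 * c 3) = 0)
    · rfl
    · rfl
    · exact (by rw [z46, zero_div] : D 4 6 / (r 4 * c 6) = 0)
  apply key (D 1 2 / (r 1 * c 2)) (D 1 3 / (r 1 * c 3)) (D 1 4 / (r 1 * c 4)) (D 1 6 / (r 1 * c 6))
        (D 2 2 / (r 2 * c 2)) (D 2 3 / (r 2 * c 3)) (D 2 4 / (r 2 * c 4))
        (D 3 2 / (r 3 * c 2)) (D 3 4 / (r 3 * c 4)) (D 3 5 / (r 3 * c 5))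
        (D 4 2 / (r 4 * c 2)) (D 4 4 / (r 4 * c 4)) (D 4 5 / (r 4 * c 5))
  intro φ bb h
  rw [← en, det_scale D r c hr0 hc00 φ]
  exact H1 φ bb h

end Pool.Agent.H315R3.QU
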