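import Pool.Agent.H315R3.QUData

set_option autoImplicit false

/-! The Study determinants of the submatrices (helper315, MP_debf2a_co). -/

namespace Pool.Agent.H315R3.QU

open Matrix Code

/-- the quaternion matrix -/
noncomputable def DQ : Matrix (Fin 5) (Fin 7) (Quaternion ℝ) :=
  Matrix.of fun i j => val (ent Dc i j)

theorem mem_sub {k n : ℕ} (g : Fin k → Fin n) (hg : StrictMono g) :
    (List.ofFn fun i => (g i : ℕ)) ∈ List.sublistsLen k (List.range n) := by
  have hg' : StrictMono fun i => (g i : ℕ) := fun i j hij => hg hij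
  rw [List.mem_sublistsLen]
  refine ⟨?_, by simp⟩
  apply List.sublist_of_subperm_of_sortedLE
  · apply List.subperm_of_subset
    · exact (List.nodup_ofFn.2 hg'.injective)
    · intro x hx
      rw [List.mem_ofFn] at hx
      obtain ⟨i, rfl⟩ := hx
      exact List.mem_range.2 (g i).2
  · exact (hg'.sortedLT_ofFn).sortedLE
  · exact (List.sortedLT_range n).sortedLE

theorem sub_eq {k : ℕ} (g : Fin k → Fin 5) (h : Fin k → Fin 7) :
    DQ.submatrix g h =
      toMat k (sel Dc (List.ofFn fun i => (g i : ℕ)) (List.ofFn fun i => (h i : ℕ))) := by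
  ext1 i j
  show val (ent Dc (g i) (h j)) = val (ent (sel Dc _ _) i j)
  rw [ent_sel]

theorem row_inj {k m n : ℕ} (D : Matrix (Fin m) (Fin n) (Quaternion ℝ)) (g : Fin k → Fin m)
    (h : Fin k → Fin n) (hu : IsUnit (D.submatrix g h)) : Function.Injective g := by
  intro p q hpq
  by_contra hne
  obtain ⟨N, hN⟩ := hu.exists_right_inv
  have h1 := congrFun (congrFun hN p) p
  have h2 := congrFun (congrFun hN q) p
  rw [Matrix.one_apply_eq, Matrix.mul_apply] at h1
  rw [Matrix.one_apply_ne (Ne.symm hne), Matrix.mul_apply] at h2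
  simp only [Matrix.submatrix_apply] at h1 h2
  rw [hpq, h2] at h1
  exact zero_ne_one h1

theorem col_inj {k m n : ℕ} (D : Matrix (Fin m) (Fin n) (Quaternion ℝ)) (g : Fin k → Fin m)
    (h : Fin k → Fin n) (hu : IsUnit (D.submatrix g h)) : Function.Injective h := by
  intro p q hpq
  by_contra hne
  obtain ⟨N, hN⟩ := hu.exists_left_inv
  have h1 := congrFun (congrFun hN p) p
  have h2 := congrFun (congrFun hN p) q
  rw [Matrix.one_apply_eq, Matrix.mul_apply] at h1
  rw [Matrix.one_apply_ne hne, Matrix.mul_apply] at h2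
  simp only [Matrix.submatrix_apply] at h1 h2
  rw [hpq, h2] at h1
  exact zero_ne_one h1

theorem part1 {k : ℕ} (g : Fin k → Fin 5) (h : Fin k → Fin 7) (hu : IsUnit (DQ.submatrix g h)) :
    (stu (DQ.submatrix g h)).det = 1 := by
  have hg := row_inj _ _ _ hu
  have hh := col_inj _ _ _ hu
  have hk : k < 6 := by
    have := Fintype.card_le_of_injective g hg
    simp at this
    omega
  set σ := Tuple.sort g with hσ
  set τ := Tuple.sort h with hτ
  have hgs : StrictMono (g ∘ σ) :=
    (Tuple.monotone_sort g).strictMono_of_injective (hg.comp σ.injective)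
  have hhs : StrictMono (h ∘ τ) :=
    (Tuple.monotone_sort h).strictMono_of_injective (hh.comp τ.injective)
  have e1 : (stu (DQ.submatrix (g ∘ σ) (h ∘ τ))).det = (stu (DQ.submatrix g h)).det := by
    rw [← det_stu_rows σ (DQ.submatrix g h), ← det_stu_cols τ ((DQ.submatrix g h).submatrix σ id)]
    rfl
  have hne : (stu (DQ.submatrix g h)).det ≠ 0 := det_stu_ne_zero _ hu
  rw [← e1] at hne ⊢
  rw [sub_eq] at hne ⊢
  have hc := checkAll_true
  unfold checkAll at hc
  rw [List.all_eq_true] at hc
  have hc1 := hc k (List.mem_range.2 hk)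
  rw [List.all_eq_true] at hc1
  have hc2 := hc1 _ (mem_sub _ hgs)
  rw [List.all_eq_true] at hc2
  have hc3 := hc2 _ (mem_sub _ hhs)
  rw [Option.isSome_iff_exists] at hc3
  obtain ⟨b, hb⟩ := hc3
  have hs := run_sound _ _ _ hb
  cases b with
  | true => simpa using hs
  | false => exact absurd (by simpa using hs) hne

/-- the columns of `[I | D]` -/
def Ec : List (List Code) :=
  [[cO, cz, cz, cz, cz, cz, cO, cO, cO, cO, cz, cO],
   [cz, cO, cz, cz, cz, cz, cO, c19, c19, cO, cz, c21],
   [cz, cz, cO, cz, cz, cO, cz, c18, c92, c92, cO, cz],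
   [cz, cz, cz, cO, cz, cO, cz, c17, cz, c45, c21, cz],
   [cz, cz, cz, cz, cO, cO, cO, cO, cz, c18, cO, cz]]

/-- column index -/
def cix : Fin 5 ⊕ Fin 7 → ℕ := Sum.elim (fun i => i) (fun j => 5 + j)

theorem val_cO : val cO = 1 := by
  apply Quaternion.ext
  · rw [re_val, Quaternion.re_one]; simp [cO]
  · rw [imI_val, Quaternion.imI_one]; simp [cO]
  · rw [imJ_val, Quaternion.imJ_one]; simp [cO]
  · rw [imK_val, Quaternion.imK_one]; simp [cO]

theorem val_cz : val cz = 0 := val_zero

theorem fromCols_eq (i : Fin 5) (x : Fin 5 ⊕ Fin 7) :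
    (Matrix.fromCols (1 : Matrix (Fin 5) (Fin 5) (Quaternion ℝ)) DQ) i x =
      val (ent Ec i (cix x)) := by
  rcases x with j | j
  · rw [Matrix.fromCols_apply_inl]
    fin_cases i <;> fin_cases j <;> simp [ent, Ec, cix, val_cO, val_cz]
  · rw [Matrix.fromCols_apply_inr]
    fin_cases i <;> fin_cases j <;> rfl

theorem unit_iff (f : Fin 5 → Fin 5 ⊕ Fin 7) (b : Bool)
    (h : run 5 (sel Ec [0,1,2,3,4] (List.ofFn fun i => cix (f i))) = some b) :
    IsUnit ((Matrix.fromCols (1 : Matrix (Fin 5) (Fin 5) (Quaternion ℝ)) DQ).submatrix id f)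
      ↔ b = true := by
  have e : (Matrix.fromCols (1 : Matrix (Fin 5) (Fin 5) (Quaternion ℝ)) DQ).submatrix id f =
      toMat 5 (sel Ec [0,1,2,3,4] (List.ofFn fun i => cix (f i))) := by
    ext1 i j
    have h0 : ([0,1,2,3,4] : List ℕ) = List.ofFn fun i : Fin 5 => (i : ℕ) := by decide
    rw [h0]
    show _ = val (ent (sel Ec _ _) i j)
    rw [ent_sel, Matrix.submatrix_apply, fromCols_eq]
    rfl
  have hs := run_sound _ _ _ h
  rw [← e] at hs
  constructor
  · intro hu
    cases b with
    | true => rfl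
    | false => exact absurd (by simpa using hs) (det_stu_ne_zero _ hu)
  · rintro rfl
    apply isUnit_of_det_stu
    rw [hs]
    simp

end Pool.Agent.H315R3.QU
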